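import Pool.Agent.Work.MP_59f3ad_nt.US.H.Defs

/-!
# Uniform Schneider, part H: the items

(a) `h(L(μ_p)) ≤ p ^ ((1/2 + ε) [L : ℚ] p)`, (b) `h⁻ ≤ p ^ ((1/4 + ε) [L : ℚ] p)` for totally real `L`.
Every docstring is a complete proof. Number fields are in `Type`. `zK` is the zeta function, `LI` the
Dirichlet series of a function on ideals, `above L K q` the set of primes of `K` above `q`.
-/

set_option autoImplicit false

open NumberField IsDedekindDomain Filter Topology Polynomial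

namespace Pool.Agent.Work.MP_59f3ad_nt.US.H

/-- Item Eul (MEDIUM). Finite Euler inequality.
Proof. Let `m` bound all exponents of the primes of `P` in the ideals of `T`. The map
`I ↦ (v ↦ exponent of v in I)` from `T` to `P → {0..m}` is injective (unique factorisation, all prime
divisors of `I` are in `P`) and `N I ^ (-s) = ∏_v (N v ^ (-s)) ^ e_v`. So the sum over `T` is at most
`∑_(e : P → {0..m}) ∏_v (N v ^ (-s)) ^ e_v = ∏_v ∑_(j ≤ m) (N v ^ (-s)) ^ j` (`Finset.prod_univ_sum`),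
and each factor is at most the geometric series `(1 - N v ^ (-s))⁻¹`, as `0 < N v ^ (-s) < 1`. -/
def Eul : Prop :=
  ∀ (K : Type) [Field K] [NumberField K] (s : ℝ), 1 < s →
    ∀ (T : Finset (Ideal (𝓞 K))) (P : Finset (HeightOneSpectrum (𝓞 K))), (∀ I ∈ T, I ≠ ⊥) →
    (∀ I ∈ T, ∀ v : HeightOneSpectrum (𝓞 K), v.asIdeal ∣ I → v ∈ P) →
    ∑ I ∈ T, (Ideal.absNorm I : ℝ) ^ (-s) ≤
      ∏ v ∈ P, (1 - (Ideal.absNorm v.asIdeal : ℝ) ^ (-s))⁻¹

/-- Item Ov (MEDIUM). The product over primes of `K` is at most the `n`-th power of the product over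
rational primes.
Proof. `n = finrank ℚ K`. Every `v` lies above one rational prime `q`, `N v = q ^ f ≥ q`, so the factor
of `v` is at most `(1 - q ^ (-s))⁻¹`, and at most `n` of the `v` lie above `q` (`∑ e f = n`,
`Ideal.sum_ramification_inertia`, all `e f ≥ 1`). So the product is at most
`(∏_(q ∈ Q) (1 - q ^ (-s))⁻¹) ^ n` for the finite set `Q` of the primes below `P` (all factors are
`≥ 1`), and `∏_(q ∈ Q) (1 - q ^ (-s))⁻¹ ≤ ∑_(m ≥ 1) m ^ (-s) ≤ 1 + 1/(s-1) = s/(s-1)` (first
inequality: `Nat.factoredNumbers`, `EulerProduct` in Mathlib, or the proof of item `Eul` for natural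
numbers; second: comparison with the integral, for instance
`m ^ (-s) ≤ ((m-1) ^ (1-s) - m ^ (1-s))/(s-1)` for `m ≥ 2`). -/
def Ov : Prop :=
  ∀ (K : Type) [Field K] [NumberField K] (s : ℝ), 1 < s →
    ∀ P : Finset (HeightOneSpectrum (𝓞 K)),
      ∏ v ∈ P, (1 - (Ideal.absNorm v.asIdeal : ℝ) ^ (-s))⁻¹ ≤ (s / (s - 1)) ^ Module.finrank ℚ K

/-- Item Sm (EASY). Summability of the zeta series.
Proof. Every finite partial sum is at most `(s/(s-1)) ^ n`: take `P` the set of all primes dividing one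
of the finitely many ideals and use `Eul`, `Ov`. `summable_of_sum_le`. -/
def Sm : Prop :=
  Eul → Ov → ∀ (K : Type) [Field K] [NumberField K] (s : ℝ), 1 < s →
    Summable (fun I : {I : Ideal (𝓞 K) // I ≠ ⊥} => (Ideal.absNorm I.1 : ℝ) ^ (-s))

/-- Item Cl (EASY-MEDIUM). A bound for the class number.
Proof. By `NumberField.exists_ideal_in_class_of_norm_le` every class contains a nonzero integral ideal
of norm at most `M = (4/π) ^ r₂ (n!/n^n) √|d|`. Here `(4/π) ^ r₂ n!/n^n ≤ 1`: `2 r₂ ≤ n`, `4/π < 1.28`,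
for `n = 1` one has `r₂ = 0`; for `n ≥ 2`, `(4/π)^(n/2) n!/n^n ≤ 1` by induction on `n`
(`n = 2`: `1.28/2`; the quotient of consecutive `n!/n^n` is `(n/(n+1))^n ≤ 1/2`, and `√1.28 < 2`). So
every class contains an ideal `I` with `N I ≤ √|d| =: x`, the chosen ideals of different classes are
different, and `1 ≤ x ^ s (N I) ^ (-s)` for each of them; so `h ≤ x ^ s ∑_I (N I) ^ (-s)` over these
finitely many ideals, which is at most `x ^ s (s/(s-1)) ^ n` by `Eul` and `Ov`. -/
def Cl : Prop :=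
  Eul → Ov → ∀ (K : Type) [Field K] [NumberField K] (s : ℝ), 1 < s →
    (classNumber K : ℝ) ≤ (√(|discr K| : ℝ)) ^ s * (s / (s - 1)) ^ Module.finrank ℚ K

/-- Item Dc (MEDIUM). Degree and discriminant of `K = L(μ_p)`.
Proof. Let `K₁` be the image of `L` in `K` as an intermediate field of `K/ℚ` and `K₂ = ℚ(ζ)`, `ζ` a
primitive `p`-th root of unity in `K`. `|discr K₁| = |discr L|`, `|discr K₂| = p^(p-2)`
(`IsCyclotomicExtension.Rat.discr_odd_prime'` or `...discr_prime_pow`), they are coprime, `K₂/ℚ` is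
Galois, so the fields are linearly disjoint (`linearDisjoint_of_isGalois_isCoprime_discr`, symmetric),
`K₁ ⊔ K₂ = ⊤` because `K = L(ζ)`; the different ideals are coprime
(`isCoprime_differentIdeal_of_isCoprime_discr`). Now use
`natAbs_discr_eq_natAbs_discr_pow_mul_natAbs_discr_pow` and
`LinearDisjoint.finrank_right_eq_finrank`. -/
def Dc : Prop :=
  ∀ (L K : Type) [Field L] [NumberField L] [Field K] [NumberField K] [Algebra L K] (p : ℕ),
    p.Prime → p ≠ 2 → IsCyclotomicExtension {p} L K → ¬ (p : ℤ) ∣ discr L →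
    Module.finrank L K = p - 1 ∧
      (discr K).natAbs = (discr L).natAbs ^ (p - 1) * p ^ ((p - 2) * Module.finrank ℚ L)

/-- Item As (EASY-MEDIUM). Asymptotics of (a).
Proof. `p ^ k ≤ h`, so with `s = 1 + 1/log p`, `s/(s-1) = 1 + log p`:
`k log p ≤ s/2 ((p-1) log D + (p-2) d log p) + (p-1) d log(1 + log p)`. Divide by `log p`:
`k ≤ (1 + 1/log p)/2 (p log D/log p + p d) + p d log(1 + log p)/log p`, and
`1/log p`, `log(1 + log p)/log p` tend to `0`; so for `p ≥ p₀(d, D, ε)` the right side is at most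
`(1/2 + ε) d p` (if `d ≥ 1`, `D ≥ 1`). -/
def As : Prop :=
  ∀ (d D : ℕ), 0 < d → 0 < D → ∀ ε : ℝ, 0 < ε → ∃ p₀ : ℕ, ∀ p : ℕ, p.Prime → p₀ ≤ p →
    ∀ k h : ℕ, 0 < h → p ^ k ∣ h →
    (∀ s : ℝ, 1 < s → (h : ℝ) ≤
      (√((D ^ (p - 1) * p ^ ((p - 2) * d) : ℕ) : ℝ)) ^ s * (s / (s - 1)) ^ ((p - 1) * d)) →
    (k : ℝ) ≤ (1 / 2 + ε) * d * p

/-- Item TA (EASY). Theorem (a).
Proof. `As` for `d = finrank ℚ L`, `D = |discr L|` and `p₀` enlarged such that `p₀ > |discr L|`, `p₀ > 2`
(so that `p ∤ discr L`, as `discr L ≠ 0`); `Cl` for `K`, `Dc`, `finrank ℚ K = (p-1) d` by the tower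
law. -/
def TA : Prop :=
  Eul → Ov → Cl → Dc → As → ∀ (L : Type) [Field L] [NumberField L] (ε : ℝ), 0 < ε →
    ∃ p₀ : ℕ, ∀ p : ℕ, p.Prime → p₀ ≤ p → ∀ (K : Type) [Field K] [NumberField K] [Algebra L K],
      IsCyclotomicExtension {p} L K → ∀ k : ℕ, p ^ k ∣ classNumber K →
        (k : ℝ) ≤ (1 / 2 + ε) * Module.finrank ℚ L * p

/-! ### Zeta functions -/

/-- Item EG (MEDIUM). Euler product of a completely multiplicative bounded function on ideals.
Proof. `s > 1`, the series of the absolute values converges by `Sm`. For a finite set `P` of primes the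
product over `P` of the geometric series is the (absolutely convergent) sum of `f(I) N I ^ (-s)` over
the ideals `I ≠ ⊥` all of whose prime divisors are in `P` (unique factorisation; `I` corresponds to
exponents `P →₀ ℕ`; induction on `P` with `summable_mul_of_summable_norm`, `tsum_mul_tsum_of_summable_norm`,
or copy of `EulerProduct` of Mathlib). The difference to `LI K f s` is at most the sum of `N I ^ (-s)`
over the ideals with a prime divisor outside `P`; given `ε` there is a finite set `T` of ideals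
outside of which the sum is `< ε`, and for `P` containing all prime divisors of the members of `T` the
difference is `< ε`. -/
def EG : Prop :=
  Sm → Eul → Ov → ∀ (K : Type) [Field K] [NumberField K] (f : Ideal (𝓞 K) → ℂ), f 1 = 1 →
    (∀ I J, f (I * J) = f I * f J) → (∀ I, ‖f I‖ ≤ 1) → ∀ s : ℝ, 1 < s →
    HasProd (fun v : HeightOneSpectrum (𝓞 K) =>
      (1 - f v.asIdeal * (((Ideal.absNorm v.asIdeal : ℝ) ^ (-s) : ℝ) : ℂ))⁻¹) (LI K f s)

/-- Item Rs (EASY-MEDIUM). The residue.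
Proof. For `s > 1` group the ideals by their norms: `dedekindZeta K s` is the `LSeries` with the
coefficients `#{I : N I = n}`, its terms for `n ≥ 1` are `#{I : N I = n} n ^ (-s)`, the term of `n = 0`
is `0`, and `∑_(I ≠ ⊥) N I ^ (-s)` summed over the fibres of `N` (`Summable.tsum_sigma'` or
`HasSum.sigma`, summable by `Sm`; fibres are finite, `Ideal.finite_setOf_absNorm_eq`) is the same. Then
`NumberField.tendsto_sub_one_mul_dedekindZeta_nhdsGT`, real parts. -/
def Rs : Prop :=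
  (∀ (K : Type) [Field K] [NumberField K] (s : ℝ), 1 < s →
    Summable (fun I : {I : Ideal (𝓞 K) // I ≠ ⊥} => (Ideal.absNorm I.1 : ℝ) ^ (-s))) →
  ∀ (K : Type) [Field K] [NumberField K],
    Tendsto (fun s : ℝ => (s - 1) * zK K s) (𝓝[>] 1) (𝓝 (dedekindZeta_residue K))

/-- Item Ch1 (EASY-MEDIUM). The characters modulo `p` at `a`.
Proof. `G = (ZMod p)ˣ` is cyclic of order `p - 1`. `χ ↦ χ(a)` is a homomorphism from the group of
Dirichlet characters (order `p - 1`, isomorphic to `G`) to the `f`-th roots of unity, `f = orderOf a`;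
it is onto (a generator of the dual restricted to `⟨a⟩` has order `f`: characters of a subgroup extend,
or count: the characters with `χ(a) = 1` are the characters of `G/⟨a⟩`, so there are `(p-1)/f` of them).
So every `f`-th root of unity is taken `(p-1)/f` times, and `∏_(ζ^f = 1) (1 - ζ X) = 1 - X ^ f`. -/
def Ch1 : Prop :=
  ∀ (p : ℕ) [Fact p.Prime] (a : (ZMod p)ˣ) (X : ℂ),
    ∏ χ : DirichletCharacter ℂ p, (1 - χ (a : ZMod p) * X) =
      (1 - X ^ orderOf a) ^ ((p - 1) / orderOf a)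

/-- Item Ch2 (MEDIUM). The even characters modulo `p` at `a`.
Proof. The even characters are the characters of `G/{1,-1}`, a cyclic group of order `(p-1)/2`; the
order `f'` of `a` in it is `orderOf a / 2` if `orderOf a` is even (then `-1`, the only element of order
`2` of the cyclic group `G`, is in `⟨a⟩`) and `orderOf a` otherwise. As in `Ch1` every `f'`-th root of
unity is the value `χ(a)` of exactly `((p-1)/2)/f'` even characters. -/
def Ch2 : Prop :=
  ∀ (p : ℕ) [Fact p.Prime], p ≠ 2 → ∀ (a : (ZMod p)ˣ) (X : ℂ) (f' : ℕ),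
    f' = (if Even (orderOf a) then orderOf a / 2 else orderOf a) →
    ∏ χ ∈ evenC p, (1 - χ (a : ZMod p) * X) =
      (1 - X ^ f') ^ (((p - 1) / 2) / f')

/-- Item KD (MEDIUM). Residue fields generated by `θ`.
Proof. `θ ∈ 𝓞 E` generates `E/L`, `g` its (monic) minimal polynomial over `𝓞 L`, the reduction of `g`
modulo the prime `q` is separable. Let `Q` be a prime of `E` above `q`. (1) `g'(θ) ∉ Q`: modulo `Q`
the element `θ` is a root of the separable polynomial `g mod q`. `g'(θ)` is in the different ideal of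
`𝓞 E/𝓞 L` (`aeval_derivative_mem_differentIdeal`) , so `Q` does not divide the different and `Q` is
unramified over `q` (`not_dvd_differentIdeal_iff` or `...pow_sub_one_dvd_differentIdeal`):
ramification index `1`. (2) For `x ∈ 𝓞 E` the element `g'(θ) x` is in `𝓞 L[θ]` (the conductor
contains `g'(θ)`; Mathlib: `conductor_mul_differentIdeal`, or the dual basis
`traceForm_dualSubmodule_adjoin`). Hence with `d := N_(E/L) (g'(θ))` (a multiple of `g'(θ)` in
`𝓞 L[θ]`, up to sign the discriminant of `g`, not in `q` because `g mod q` is separable): `d x ∈ 𝓞 L[θ]`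
and `d ∈ 𝓞 L` is invertible modulo `q`: so every class of `𝓞 E/Q` is represented by an element of
`𝓞 L[θ]`. -/
def KD : Prop :=
  ∀ (L E : Type) [Field L] [NumberField L] [Field E] [NumberField E] [Algebra L E] (θ : 𝓞 E)
    (q : Ideal (𝓞 L)) [q.IsPrime], q ≠ ⊥ → Algebra.adjoin L {(θ : E)} = ⊤ →
    ((minpoly (𝓞 L) θ).map (Ideal.Quotient.mk q)).Separable →
    ∀ (Q : Ideal (𝓞 E)) [Q.IsPrime], Q.under (𝓞 L) = q →
      Q.ramificationIdx (𝓞 L) = 1 ∧
      ∀ x : 𝓞 E, ∃ y ∈ Algebra.adjoin (𝓞 L) {θ}, x - y ∈ Q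

/-- Item Sp1 (MEDIUM). Splitting in `K = L(μ_p)` of the primes not above `p`.
Proof. `K = L(ζ)`, `[K:L] = p - 1`, so `Φ_p` is the minimal polynomial of `ζ`; `N q` is prime to `p`, so
`Φ_p` (a divisor of `X^p - 1`) is separable modulo `q`. By `KD` every `v` above `q` is unramified and its
residue field is generated over `k = 𝓞 L/q` (`N q` elements) by the primitive `p`-th root of unity
`ζ mod v` (primitive because `Φ_p` mod `v` has no root `1`: `Φ_p(1) = p ≠ 0`). `k(ζ)` has degree `f` over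
`k`, the least `j ≥ 1` with `ζ^(N q ^ j) = ζ`, that is the order of `N q` modulo `p`. So
`N v = N q ^ f`, and by `∑ e f = p - 1` there are `(p-1)/f` primes above `q`. -/
def Sp1 : Prop :=
  KD → ∀ (L K : Type) [Field L] [NumberField L] [Field K] [NumberField K] [Algebra L K] (p : ℕ)
    [Fact p.Prime], p ≠ 2 → IsCyclotomicExtension {p} L K → Module.finrank L K = p - 1 →
    ∀ (q : HeightOneSpectrum (𝓞 L)) (a : (ZMod p)ˣ),
      (a : ZMod p) = (Ideal.absNorm q.asIdeal : ZMod p) →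
      (above L K q).ncard = (p - 1) / orderOf a ∧
      ∀ v ∈ above L K q, Ideal.absNorm v.asIdeal = Ideal.absNorm q.asIdeal ^ orderOf a

/-- Item Sp2 (MEDIUM). Splitting in the subfield `F` of `K = L(μ_p)` with `[K:F] = 2`, `ζ + ζ⁻¹ ∈ F`.
Proof. `η = ζ + ζ⁻¹` generates `F/L` (`[K : L(η)] ≤ 2` and `L(η) ⊂ F`), `[F:L] = (p-1)/2`, its conjugates
over `L` are `ζ^j + ζ^(-j)`, `1 ≤ j ≤ (p-1)/2`, and they are different modulo every prime `v` of `K` not
above `p`: `ζ^i + ζ^(-i) - ζ^j - ζ^(-j) = ζ^(-i) (ζ^(i-j) - 1)(ζ^(i+j) - 1)`, and `ζ^m - 1` is a unit at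
`v` for `p ∤ m` (it divides `p`). So the minimal polynomial of `η` is separable modulo `q` and by `KD`
every prime `w` of `F` above `q` is unramified with residue field `k(η mod w)`, `k = 𝓞 L/q`. Its degree
is the least `j ≥ 1` with `η^(N q ^ j) = η` in the residue field of a prime of `K` above `w`, that is
`ζ^m + ζ^(-m) = ζ + ζ^(-1)`, `m = N q ^ j`, that is `m = 1` or `m = -1` modulo `p` (the same
factorisation): the order `f'` of `N q` in `(ℤ/p)ˣ/{1,-1}`, which is `f/2` if `f` is even (the unique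
element `-1` of order `2` is a power of `N q`) and `f` if `f` is odd. Count with `∑ e f = (p-1)/2`. -/
def Sp2 : Prop :=
  KD → ∀ (L F K : Type) [Field L] [NumberField L] [Field F] [NumberField F] [Field K]
    [NumberField K] [Algebra L F] [Algebra F K] [Algebra L K] [IsScalarTower L F K] (p : ℕ)
    [Fact p.Prime], p ≠ 2 → IsCyclotomicExtension {p} L K → Module.finrank L K = p - 1 →
    Module.finrank F K = 2 → (∃ ζ : K, IsPrimitiveRoot ζ p ∧ ∃ η : F, algebraMap F K η = ζ + ζ⁻¹) →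
    ∀ (q : HeightOneSpectrum (𝓞 L)) (a : (ZMod p)ˣ) (f' : ℕ),
      (a : ZMod p) = (Ideal.absNorm q.asIdeal : ZMod p) →
      f' = (if Even (orderOf a) then orderOf a / 2 else orderOf a) →
      (above L F q).ncard = ((p - 1) / 2) / f' ∧
      ∀ v ∈ above L F q, Ideal.absNorm v.asIdeal = Ideal.absNorm q.asIdeal ^ f'

/-- Item Rm (MEDIUM). The primes above `p` in every subextension `E` of `K = L(μ_p)`.
Proof. `q` prime of `L` above `p`, `v` a prime of `K` above `q`. `e(v/p) = e(v/q) e(q/p) = e(v/q)`, as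
`p ∤ discr L` means that `p` is unramified in `L` (`not_dvd_discr_iff_isUnramifiedIn`). Let
`v₀ = v ∩ ℚ(ζ)`: `e(v₀/p) = p - 1` (`p` is totally ramified in `ℚ(ζ)`; elementary: `p` is a unit times
`(1-ζ)^(p-1)` in `𝓞 K`, so `v(p) = (p-1) v(1-ζ)` is a multiple of `p - 1`, and `v(p) > 0`). So
`e(v/q) ≥ p - 1 = [K:L]` and `∑ e f = p - 1` gives: `v` is the only prime of `K` above `q` and
`f(v/q) = 1`. For the intermediate field `E`: every prime `w` of `E` above `q` has a prime of `K` above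
it, which is `v`, so there is exactly one `w`, and `f(w/q)` divides `f(v/q) = 1`, so `N w = N q`. -/
def Rm : Prop :=
  ∀ (L E K : Type) [Field L] [NumberField L] [Field E] [NumberField E] [Field K]
    [NumberField K] [Algebra L E] [Algebra E K] [Algebra L K] [IsScalarTower L E K] (p : ℕ)
    [Fact p.Prime], p ≠ 2 → IsCyclotomicExtension {p} L K → Module.finrank L K = p - 1 →
    ¬ (p : ℤ) ∣ discr L → ∀ q : HeightOneSpectrum (𝓞 L), (p : 𝓞 L) ∈ q.asIdeal →
      (above L E q).ncard = 1 ∧ ∀ v ∈ above L E q, Ideal.absNorm v.asIdeal = Ideal.absNorm q.asIdeal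

/-- Item Zf (MEDIUM). Factorisation of `ζ_K/ζ_F`.
Proof. `EG` for `K`, `F` and the function `1` and for `L` and the functions `chN L p χ`. Regroup the
products over the primes of `K` (of `F`) by the prime `q` of `L` below (`HasProd.sigma` or
`Multipliable`; all products are absolutely convergent: the local factors are `1 + O(N v ^ (-s))` with
summable `N v ^ (-s)`). For `q` not above `p`, `X = N q ^ (-s)`, `a = N q` in `(ZMod p)ˣ`: by `Sp1`,
`Ch1` the part of `q` in `ζ_K` is `(1 - X^f)^(-(p-1)/f) = ∏_χ (1 - χ(a) X)⁻¹`, by `Sp2`, `Ch2` the part in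
`ζ_F` is the product over the even `χ`; so the part of `ζ_K` is the part of `ζ_F` times the product over
the odd `χ`. For `q` above `p` both parts are `(1 - N q ^ (-s))⁻¹` by `Rm` (for `E = K` and `E = F`) and
`chN L p χ q = χ(0) = 0`. -/
def Zf : Prop :=
  EG → Sm → Eul → Ov → KD → Sp1 → Sp2 → Rm → Ch1 → Ch2 →
  ∀ (L F K : Type) [Field L] [NumberField L] [Field F] [NumberField F] [Field K]
    [NumberField K] [Algebra L F] [Algebra F K] [Algebra L K] [IsScalarTower L F K] (p : ℕ)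
    [Fact p.Prime], p ≠ 2 → IsCyclotomicExtension {p} L K → Module.finrank L K = p - 1 →
    ¬ (p : ℤ) ∣ discr L →
    Module.finrank F K = 2 → (∃ ζ : K, IsPrimitiveRoot ζ p ∧ ∃ η : F, algebraMap F K η = ζ + ζ⁻¹) →
    ∀ s : ℝ, 1 < s → ((zK K s : ℝ) : ℂ) =
      ((zK F s : ℝ) : ℂ) * ∏ χ ∈ oddC p, LI L (chN L p χ) s

/-- The analytic input (part A of the block, captain helper45): uniform bound of the twisted zeta
functions of `L`. -/
def LB : Prop :=
  ∀ (L : Type) [Field L] [NumberField L], ∃ C : ℝ, 0 < C ∧ ∃ q₀ : ℕ, ∀ p : ℕ, p.Prime → q₀ ≤ p →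
    ∀ χ : DirichletCharacter ℂ p, χ ≠ 1 → ∀ s : ℝ, 1 < s → s ≤ 2 →
      ‖LI L (chN L p χ) s‖ ≤ C * (1 + Real.log p)

/-- Item Kp (EASY-MEDIUM). Comparison of the residues.
Proof. There are `(p-1)/2` odd characters (the even ones are the characters of the quotient of the
cyclic group `(ZMod p)ˣ` by `{1,-1}`; or take `X = 2`, `a = 1` ... in `Ch1`, `Ch2` and compare:
`∏_χ (1 - 2) = (-1)^(p-1)`; simplest: multiplication by one odd character is a bijection from the even
to the odd characters and there are `p - 1` characters). They are not trivial. By the hypothesis and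
`zK F s > 0`, `zK K s ≤ zK F s B` with `B = (C (1 + log p)) ^ ((p-1)/2)` for `1 < s ≤ 2`. Multiply by
`s - 1` and let `s → 1` (`hR`: the residues are the limits). -/
def Kp : Prop :=
  ∀ (F K : Type) [Field F] [NumberField F] [Field K] [NumberField K] (p : ℕ) [Fact p.Prime]
    (C : ℝ) (Lf : DirichletCharacter ℂ p → ℝ → ℂ), p ≠ 2 → 0 < C →
    (∀ (E : Type) [Field E] [NumberField E],
      Tendsto (fun s : ℝ => (s - 1) * zK E s) (𝓝[>] 1) (𝓝 (dedekindZeta_residue E))) →
    (∀ s : ℝ, 1 < s → ((zK K s : ℝ) : ℂ) =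
      ((zK F s : ℝ) : ℂ) * ∏ χ ∈ oddC p, Lf χ s) →
    (∀ χ : DirichletCharacter ℂ p, χ ≠ 1 → ∀ s : ℝ, 1 < s → s ≤ 2 →
      ‖Lf χ s‖ ≤ C * (1 + Real.log p)) →
    dedekindZeta_residue K ≤
      (C * (1 + Real.log p)) ^ ((p - 1) / 2) * dedekindZeta_residue F

/-! ### CM fields -/

/-- Item RL (MEDIUM). `K = L(μ_p)` is a CM field if `L` is totally real.
Proof. `ζ` primitive `p`-th root of unity in `K`, `p ≥ 3`, so no embedding of `K` is real:
`IsTotallyComplex K`. `F := L(ζ + ζ⁻¹)` (as intermediate field of `K/L`) is totally real: an embedding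
`φ` of `K` maps `ζ + ζ⁻¹` to `2 Re φ(ζ)` and `L` into `ℝ`; every embedding of `F` extends to `K`.
`[K:F] = 2`: `ζ` is a root of `X² - (ζ + ζ⁻¹) X + 1`, `K = F(ζ)`, and `ζ ∉ F`, `F` being totally real.
So `CMExtension.ofCMExtension F K`, and `F ≤ maximalRealSubfield K`
(`IsTotallyReal.le_maximalRealSubfield`). -/
def RL : Prop :=
  ∀ (L K : Type) [Field L] [NumberField L] [Field K] [NumberField K] [Algebra L K] (p : ℕ)
    [Fact p.Prime], p ≠ 2 → IsCyclotomicExtension {p} L K → IsTotallyReal L →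
    IsCMField K ∧ (∀ x : L, algebraMap L K x ∈ maximalRealSubfield K) ∧
      ∃ ζ : K, IsPrimitiveRoot ζ p ∧ ζ + ζ⁻¹ ∈ maximalRealSubfield K

/-- Item Df (MEDIUM). The relative different of `K/K⁺` has norm at most `p ^ [K : ℚ(μ_p)]`.
Proof. `F = K⁺`. `ζ ∉ F` (`F` is totally real, `p ≥ 3`), so `ζ` generates `K/F` and its minimal
polynomial over `𝓞 F` is `g = X² - (ζ + ζ⁻¹) X + 1`; `g'(ζ) = ζ - ζ⁻¹` is in the different
(`aeval_derivative_mem_differentIdeal`). So the norm of the different divides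
`|N_(K/ℚ)(ζ - ζ⁻¹)| = |N_(K/ℚ)(ζ² - 1)|` (`ζ` is a unit) `= |N_(ℚ(ζ)/ℚ)(ζ² - 1)| ^ [K : ℚ(ζ)]
= p ^ [K : ℚ(ζ)]`, as `ζ²` is a primitive `p`-th root of unity, and
`[K : ℚ(ζ)] = finrank ℚ K / (p - 1)`. A divisor of a positive number is at most this number. -/
def Df : Prop :=
  ∀ (K : Type) [Field K] [NumberField K] [IsCMField K] (p : ℕ) [Fact p.Prime], p ≠ 2 →
    (∃ ζ : K, IsPrimitiveRoot ζ p ∧ ζ + ζ⁻¹ ∈ maximalRealSubfield K) →
    Ideal.absNorm (differentIdeal (𝓞 (maximalRealSubfield K)) (𝓞 K)) ≤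
      p ^ (Module.finrank ℚ K / (p - 1))

/-- Item Hr (MEDIUM). Class number formula for `K` and `K⁺`.
Proof. `N = finrank ℚ K⁺`, `2 N = finrank ℚ K`, `K` totally complex (`N` complex places), `K⁺` totally
real (`N` real places, torsion order `2`). By `dedekindZeta_residue_def`
`κ_K = (2π)^N R h/(w √|d|)`, `κ_+ = 2^N R_+ h_+/(2 √|d_+|)`, and
`regulator_div_regulator_eq_two_pow_mul_indexRealUnits_inv`: `R/R_+ = 2^(N-1)/Q`, `rank K = N - 1`,
`Q = indexRealUnits K ∈ {1, 2}`. So `h = κ_K w √|d|/((2π)^N R)`, `h_+ = 2 κ_+ √|d_+|/(2^N R_+)` and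
`h/h_+ = (κ_K/κ_+) Q w √(|d|/|d_+|) (2π)^(-N)`, at most `2 w √(|d|/|d_+|) κ_K/κ_+`. With
`|d| = N(𝔇) |d_+|²` (`natAbs_discr_eq_absNorm_differentIdeal_mul_natAbs_discr_pow`, `[K:K⁺] = 2`)
`|d|/|d_+| = √(|d| N(𝔇))`, so `√(|d|/|d_+|) = (|d| N(𝔇)) ^ (1/4)`. -/
def Hr : Prop :=
  ∀ (K : Type) [Field K] [NumberField K] [IsCMField K] (B : ℝ),
    dedekindZeta_residue K ≤ B * dedekindZeta_residue (maximalRealSubfield K) →
    (classNumber K : ℝ) ≤ 2 * Units.torsionOrder K *
      (((discr K).natAbs : ℝ) *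
        (Ideal.absNorm (differentIdeal (𝓞 (maximalRealSubfield K)) (𝓞 K)) : ℝ)) ^ (1 / 4 : ℝ) *
      B * classNumber (maximalRealSubfield K)

/-- Item To (EASY-MEDIUM). The number of roots of unity.
Proof. `w = torsionOrder K`; the torsion group is cyclic, a generator is a primitive `w`-th root of unity
in `K`, so `φ(w) = [ℚ(ζ_w) : ℚ]` divides `finrank ℚ K`, and `w ≤ 2 φ(w)²`: multiplicative; for prime
powers `q^k`, `φ² = q^(2k-2) (q-1)²` is `≥ q^k` for `q ≥ 3` (`(q-1)² ≥ q`) and `≥ 2^k/2` for `q = 2`. -/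
def To : Prop :=
  ∀ (K : Type) [Field K] [NumberField K], Units.torsionOrder K ≤ 2 * (Module.finrank ℚ K) ^ 2

/-- Item KR (MEDIUM). The index of a subgroup which contains the classes of `K⁺`.
Proof. `F = K⁺`. Let `e : Cl(F) → Cl(K)` be the extension of ideals, a homomorphism (well defined:
principal ideals become principal) with image in `H`. Its kernel has at most two elements: if
`I 𝓞 K = (α)`, complex conjugation `c` fixes `I 𝓞 K`, so `c(α) = u α` with a unit `u` of `𝓞 K`, and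
`|φ(u)| = 1` for all embeddings (`|φ(c α)| = |φ(α)|`), so `u` is a root of unity (Kronecker, Mathlib
`Embeddings.pow_eq_one_of_norm_eq_one`). If `u = ε/c(ε)` for a unit `ε` then
`β = ε α` has `c(β) = c(ε) u α = β`, `β ∈ F`, `I 𝓞 K = (β)` and `I = β 𝓞 F` (an ideal of `𝓞 F` is
determined by its extension to `𝓞 K`). So the map from the kernel to `μ_K/{ε/c(ε)}` which sends the
class of `I` to the class of `u` is well defined (another `α` changes `u` by `c(ε)/ε`, another `I` in
the same class changes `α` by an element of `F` times a unit), a homomorphism and injective, and the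
group of the `ε/c(ε)` has index at most `2` in `μ_K`
(`index_unitsMulComplexConjInv_range_dvd`). So `h(F) ≤ 2 |im e| ≤ 2 |H|`, and
`H.index |H| = h(K)`. -/
def KR : Prop :=
  ∀ (K : Type) [Field K] [NumberField K] [IsCMField K] (H : Subgroup (ClassGroup (𝓞 K))),
    (∀ (I : Ideal (𝓞 (maximalRealSubfield K))) (J : nonZeroDivisors (Ideal (𝓞 K))),
      (J : Ideal (𝓞 K)) = I.map (algebraMap (𝓞 (maximalRealSubfield K)) (𝓞 K)) →
      ClassGroup.mk0 J ∈ H) →
    H.index * classNumber (maximalRealSubfield K) ≤ 2 * classNumber K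

/-- Item As2 (EASY-MEDIUM). Asymptotics of (b).
Proof. `p^k h_+ ≤ 2 h` and the bound for `h` give
`p^k ≤ 4 w (D^(p-1) p^((p-2) d) p^d)^(1/4) (C (1 + log p))^((p-1)/2)` with `w ≤ 2 ((p-1) d)²`. Take
logarithms and divide by `log p`: `k ≤ (p-1) d/4 + p log D/(4 log p) + (p/2) (|log C| + log(1 + log p))/log p
+ (log 8 + 2 log(p d))/log p`, and all terms except the first are at most `ε d p` together for
`p ≥ p₀`. -/
def As2 : Prop :=
  ∀ (d D : ℕ) (C : ℝ), 0 < d → 0 < D → 0 < C → ∀ ε : ℝ, 0 < ε → ∃ p₀ : ℕ, ∀ p : ℕ, p.Prime →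
    p₀ ≤ p → ∀ k h h' w δ : ℕ, 0 < h' → p ^ k * h' ≤ 2 * h → w ≤ 2 * ((p - 1) * d) ^ 2 →
    δ ≤ p ^ d →
    (h : ℝ) ≤ 2 * w * (((D ^ (p - 1) * p ^ ((p - 2) * d) : ℕ) : ℝ) * (δ : ℝ)) ^ (1 / 4 : ℝ) *
      (C * (1 + Real.log p)) ^ ((p - 1) / 2) * h' →
    (k : ℝ) ≤ (1 / 4 + ε) * d * p

/-- Item TB (EASY-MEDIUM). Theorem (b).
Proof. `C, q₀` from `LB` for `L`; `p₀` from `As2` for `d = finrank ℚ L`, `D = |discr L|`, `C`; enlarge it
such that `p₀ ≥ q₀`, `p₀ > |discr L|`, `p₀ > 2`. `RL` gives the CM field `K` and `F = K⁺`; `L` acts on `F`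
by restriction of the codomain (`F` is a subfield of `K` containing the image of `L`; tower). `Dc`:
`finrank L K = p - 1`, `|discr K|`, `finrank ℚ K = (p-1) d`. `Zf`, `LB`, `Rs`, `Kp` give
`κ_K ≤ B κ_F`, `B = (C (1 + log p)) ^ ((p-1)/2)`; `Hr`, `Df`, `To` the bound for `h(K)`; `KR` gives
`H.index h(F) ≤ 2 h(K)`, `H.index = p^k`; conclude with `As2`. -/
def TB : Prop :=
  Eul → Ov → Sm → EG → Rs → Dc → Ch1 → Ch2 → KD → Sp1 → Sp2 → Rm → Zf → LB → Kp → RL → Df → Hr →
  To → KR → As2 → ∀ (L : Type) [Field L] [NumberField L], IsTotallyReal L → ∀ ε : ℝ, 0 < ε →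
    ∃ p₀ : ℕ, ∀ p : ℕ, p.Prime → p₀ ≤ p → ∀ (K : Type) [Field K] [NumberField K] [Algebra L K],
      IsCyclotomicExtension {p} L K → ∀ _ : IsCMField K, ∀ (k : ℕ)
      (H : Subgroup (ClassGroup (𝓞 K))), H.index = p ^ k →
      (∀ (I : Ideal (𝓞 (maximalRealSubfield K))) (J : nonZeroDivisors (Ideal (𝓞 K))),
        (J : Ideal (𝓞 K)) = I.map (algebraMap (𝓞 (maximalRealSubfield K)) (𝓞 K)) →
        ClassGroup.mk0 J ∈ H) →
      (k : ℝ) ≤ (1 / 4 + ε) * Module.finrank ℚ L * p

end Pool.Agent.Work.MP_59f3ad_nt.US.H
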