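import Pool.Agent.Work.MP_59f3ad_nt.US.H.Stmts

/-!
# Uniform Schneider, part H, item As2: asymptotics of (b)
-/

set_option autoImplicit false

open NumberField IsDedekindDomain Filter Topology Polynomial

namespace Pool.Agent.Work.MP_59f3ad_nt.US.H

namespace XAs2

theorem ev (A ε : ℝ) (hε : 0 < ε) :
    ∃ p₀ : ℕ, ∀ p : ℕ, p₀ ≤ p → A + Real.log (1 + Real.log p) ≤ ε * Real.log p := by
  have h0 : Tendsto (fun p : ℕ => Real.log (p : ℝ)) atTop atTop :=
    Real.tendsto_log_atTop.comp tendsto_natCast_atTop_atTop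
  have h1 : Tendsto (fun p : ℕ => 1 + Real.log (p : ℝ)) atTop atTop :=
    tendsto_atTop_add_const_left atTop 1 h0
  have h2 := h1.eventually (Real.isLittleO_log_id_atTop.def (half_pos hε))
  have h3 := h0.eventually (eventually_ge_atTop ((A + ε / 2) / (ε / 2)))
  have h4 := h0.eventually (eventually_ge_atTop (0 : ℝ))
  obtain ⟨p₀, hp₀⟩ := eventually_atTop.1 (h2.and (h3.and h4))
  refine ⟨p₀, fun p hp => ?_⟩
  obtain ⟨h5, h6, h7⟩ := hp₀ p hp
  rw [id, Real.norm_eq_abs, Real.norm_eq_abs,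
    abs_of_nonneg (by linarith : (0 : ℝ) ≤ 1 + Real.log p)] at h5
  have h8 := (le_abs_self _).trans h5
  rw [div_le_iff₀ (by linarith)] at h6
  linarith

end XAs2

/-- Item As2. -/
theorem prf_As2 : As2 := by
  intro d D C hd hD hC ε hε
  obtain ⟨C', hC'⟩ : ∃ C' : ℝ, C' = max C 1 := ⟨_, rfl⟩
  have hC1 : 1 ≤ C' := by rw [hC']; exact le_max_right _ _
  have hCC : C ≤ C' := by rw [hC']; exact le_max_left _ _
  have hd1 : (1 : ℝ) ≤ d := by exact_mod_cast hd
  have hD1 : (1 : ℝ) ≤ D := by exact_mod_cast hD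
  obtain ⟨A, hA⟩ : ∃ A : ℝ, A = Real.log 8 + 2 * Real.log d + 2 + Real.log D / 4 + Real.log C' :=
    ⟨_, rfl⟩
  obtain ⟨p₁, hp₁⟩ := XAs2.ev A ε hε
  refine ⟨p₁, ?_⟩
  intro p hp hpp k h h' w δ hh' h1 h2 h3 h4
  have hp2 : 2 ≤ p := hp.two_le
  have hp2r : (2 : ℝ) ≤ p := by exact_mod_cast hp2
  have hp0 : (0 : ℝ) < p := by linarith
  obtain ⟨lp, hlp⟩ : ∃ lp : ℝ, lp = Real.log p := ⟨_, rfl⟩
  have hev := hp₁ p hpp
  rw [← hlp] at hev h4
  have hlp0 : 0 < lp := by rw [hlp]; exact Real.log_pos (by linarith)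
  have hlpp : lp ≤ p := by
    rw [hlp]
    have := Real.log_le_sub_one_of_pos hp0
    linarith
  -- the discriminant
  have hX : D ^ (p - 1) * p ^ ((p - 2) * d) * δ ≤ D ^ p * p ^ (p * d) := by
    have e1 : D ^ (p - 1) ≤ D ^ p := Nat.pow_le_pow_right hD (by omega)
    have e2 : p ^ ((p - 2) * d) * δ ≤ p ^ (p * d) := by
      calc p ^ ((p - 2) * d) * δ ≤ p ^ ((p - 2) * d) * p ^ d := Nat.mul_le_mul_left _ h3
        _ = p ^ ((p - 2) * d + d) := by rw [pow_add]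
        _ ≤ p ^ (p * d) := by
          apply Nat.pow_le_pow_right (by omega)
          calc (p - 2) * d + d = (p - 2 + 1) * d := by ring
            _ ≤ p * d := Nat.mul_le_mul_right _ (by omega)
    rw [mul_assoc]
    exact Nat.mul_le_mul e1 e2
  have hXr : (((D ^ (p - 1) * p ^ ((p - 2) * d) : ℕ) : ℝ) * (δ : ℝ)) ≤
      (D : ℝ) ^ p * (p : ℝ) ^ (p * d) := by exact_mod_cast hX
  have hw : (w : ℝ) ≤ 2 * ((p : ℝ) * d) ^ 2 := by
    have e1 : w ≤ 2 * (p * d) ^ 2 := h2.trans (Nat.mul_le_mul_left _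
      (Nat.pow_le_pow_left (Nat.mul_le_mul_right _ (by omega)) 2))
    exact_mod_cast e1
  have hY : (C * (1 + lp)) ^ ((p - 1) / 2) ≤ (C' * (1 + lp)) ^ p := by
    have e1 : C * (1 + lp) ≤ C' * (1 + lp) := mul_le_mul_of_nonneg_right hCC (by linarith)
    have e2 : 1 ≤ C' * (1 + lp) := one_le_mul_of_one_le_of_one_le hC1 (by linarith)
    exact (pow_le_pow_left₀ (by positivity) e1 _).trans (pow_le_pow_right₀ e2 (by omega))
  have hh0 : (0 : ℝ) < h' := by exact_mod_cast hh'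
  have h5 : (p : ℝ) ^ k * h' ≤ 2 * h := by exact_mod_cast h1
  have h6 : (p : ℝ) ^ k ≤ 4 * w *
      (((D ^ (p - 1) * p ^ ((p - 2) * d) : ℕ) : ℝ) * (δ : ℝ)) ^ (1 / 4 : ℝ) *
        (C * (1 + lp)) ^ ((p - 1) / 2) := by
    refine le_of_mul_le_mul_right ?_ hh0
    calc (p : ℝ) ^ k * h' ≤ 2 * h := h5
      _ ≤ 2 * (2 * w * (((D ^ (p - 1) * p ^ ((p - 2) * d) : ℕ) : ℝ) * (δ : ℝ)) ^ (1 / 4 : ℝ) *
          (C * (1 + lp)) ^ ((p - 1) / 2) * h') := by linarith
      _ = _ := by ring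
  have key : (p : ℝ) ^ k ≤ 8 * ((p : ℝ) * d) ^ 2 *
      ((D : ℝ) ^ p * (p : ℝ) ^ (p * d)) ^ (1 / 4 : ℝ) * (C' * (1 + lp)) ^ p := by
    refine h6.trans ?_
    have e1 : (4 * w : ℝ) ≤ 8 * ((p : ℝ) * d) ^ 2 := by linarith
    have e2 := Real.rpow_le_rpow (by positivity) hXr (by norm_num : (0 : ℝ) ≤ 1 / 4)
    exact mul_le_mul (mul_le_mul e1 e2 (by positivity) (by positivity)) hY (by positivity)
      (by positivity)
  have hl := Real.log_le_log (by positivity) key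
  have hd0 : (0 : ℝ) < d := by linarith
  have hD0 : (0 : ℝ) < D := by linarith
  have hC0 : (0 : ℝ) < C' := by linarith
  have h1lp : (0 : ℝ) < 1 + lp := by linarith
  have e1 : Real.log (8 * ((p : ℝ) * d) ^ 2 *
      ((D : ℝ) ^ p * (p : ℝ) ^ (p * d)) ^ (1 / 4 : ℝ) * (C' * (1 + lp)) ^ p) =
      Real.log 8 + 2 * (lp + Real.log d) + 1 / 4 * (p * Real.log D + (p * d : ℕ) * lp) +
        p * (Real.log C' + Real.log (1 + lp)) := by
    rw [Real.log_mul (by positivity) (by positivity), Real.log_mul (by positivity) (by positivity),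
      Real.log_mul (by positivity) (by positivity), Real.log_pow, Real.log_pow,
      Real.log_rpow (by positivity), Real.log_mul hp0.ne' hd0.ne',
      Real.log_mul (by positivity) (by positivity), Real.log_pow, Real.log_pow,
      Real.log_mul hC0.ne' h1lp.ne', ← hlp]
    push_cast
    ring
  rw [e1, Real.log_pow, ← hlp] at hl
  push_cast at hl
  have hld : 0 ≤ Real.log d := Real.log_nonneg hd1
  have hlD : 0 ≤ Real.log D := Real.log_nonneg hD1
  have hl8 : 0 ≤ Real.log 8 := Real.log_nonneg (by norm_num)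
  have h7 : (k : ℝ) * lp ≤ 1 / 4 * (p * d) * lp + p * (A + Real.log (1 + lp)) := by
    rw [hA]
    have e2 : Real.log 8 + 2 * Real.log d ≤ p * (Real.log 8 + 2 * Real.log d) :=
      le_mul_of_one_le_left (by linarith) (by linarith)
    nlinarith
  have h8 : (k : ℝ) * lp ≤ ((1 / 4 + ε) * d * p) * lp := by
    have e2 : (p : ℝ) * (A + Real.log (1 + lp)) ≤ p * (ε * lp) :=
      mul_le_mul_of_nonneg_left hev hp0.le
    have e3 : (p : ℝ) * (ε * lp) ≤ p * (ε * lp) * d :=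
      le_mul_of_one_le_right (by positivity) hd1
    nlinarith
  exact le_of_mul_le_mul_right h8 hlp0

end Pool.Agent.Work.MP_59f3ad_nt.US.H
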