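import Pool.Agent.Work.MP_59f3ad_nt.US.H.Stmts

/-!
# Uniform Schneider, part H, item Ch1: the characters modulo `p` at `a`
-/

set_option autoImplicit false

open NumberField IsDedekindDomain

namespace Pool.Agent.Work.MP_59f3ad_nt.US.H

namespace XCh1

/-- The values of a homomorphism from a finite group to the units of the complex numbers. -/
theorem prod_hom {A : Type} [Group A] [Fintype A] (φ : A →* ℂˣ) (X : ℂ) :
    ∏ χ : A, (1 - (φ χ : ℂ) * X) =
      (1 - X ^ Nat.card φ.range) ^ (Nat.card A / Nat.card φ.range) := by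
  classical
  obtain ⟨m, hm⟩ : ∃ m, m = Nat.card φ.range := ⟨_, rfl⟩
  have hm0 : 0 < m := by rw [hm]; exact Nat.card_pos
  rw [← hm]
  have hc : (Finset.univ.image φ).card = m := by
    rw [← Set.ncard_coe_finset, Finset.coe_image, Finset.coe_univ, Set.image_univ, hm]
    rfl
  obtain ⟨T, hT⟩ : ∃ T : Finset ℂ, T = (Finset.univ.image φ).image Units.val := ⟨_, rfl⟩
  have hsub : T ⊆ Polynomial.nthRootsFinset m (1 : ℂ) := by
    intro z hz
    rw [hT, Finset.mem_image] at hz
    obtain ⟨u, hu, rfl⟩ := hz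
    rw [Finset.mem_image] at hu
    obtain ⟨χ, -, rfl⟩ := hu
    rw [Polynomial.mem_nthRootsFinset hm0]
    have h1 : (⟨φ χ, ⟨χ, rfl⟩⟩ : φ.range) ^ Nat.card φ.range = 1 := pow_card_eq_one'
    have h2 := congrArg (fun x : φ.range => ((x : ℂˣ) : ℂ)) h1
    rw [← hm] at h2
    simpa using h2
  have hTc : T.card = m := by
    rw [hT, Finset.card_image_of_injective _ Units.val_injective, hc]
  have hprim := Complex.isPrimitiveRoot_exp m hm0.ne'
  have hTe : T = Polynomial.nthRootsFinset m (1 : ℂ) :=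
    Finset.eq_of_subset_of_card_le hsub (by rw [hTc, hprim.card_nthRootsFinset])
  have hp : ∏ u ∈ Finset.univ.image φ, (1 - (u : ℂ) * X) = 1 - X ^ m := by
    have h1 : ∏ z ∈ T, (1 - z * X) = ∏ u ∈ Finset.univ.image φ, (1 - (u : ℂ) * X) := by
      rw [hT]
      exact Finset.prod_image fun _ _ _ _ h => Units.val_injective h
    rw [← h1, hTe]
    have h2 := hprim.pow_sub_pow_eq_prod_sub_mul 1 X hm0
    rw [one_pow] at h2
    exact h2.symm
  obtain ⟨c, hcc⟩ : ∃ c, c = (Finset.univ.filter fun g => φ g = 1).card := ⟨_, rfl⟩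
  have hfib : ∀ u ∈ Finset.univ.image φ, (Finset.univ.filter fun g => φ g = u).card = c := by
    intro u hu
    rw [hcc]
    apply MonoidHom.card_fiber_eq_of_mem_range φ
    · simpa only [Finset.mem_image, Finset.mem_univ, true_and, Set.mem_range] using hu
    · exact ⟨1, φ.map_one⟩
  have hcard : Nat.card A = m * c := by
    rw [Nat.card_eq_fintype_card, ← Finset.card_univ,
      Finset.card_eq_sum_card_image φ Finset.univ, Finset.sum_congr rfl hfib,
      Finset.sum_const, hc, smul_eq_mul]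
  rw [hcard, Nat.mul_div_cancel_left _ hm0, ← hp, ← Finset.prod_pow]
  rw [Finset.prod_comp (fun u : ℂˣ => 1 - (u : ℂ) * X) φ]
  exact Finset.prod_congr rfl fun u hu => by rw [hfib u hu]

end XCh1

/-- Item Ch1. -/
theorem prf_Ch1 : Ch1 := by
  classical
  intro p _ a X
  obtain ⟨φ, hφ⟩ : ∃ φ : DirichletCharacter ℂ p →* ℂˣ, ∀ χ, (φ χ : ℂ) = χ (a : ZMod p) :=
    ⟨(MonoidHom.eval a).comp (MulChar.mulEquivToUnitHom (R := ZMod p) (R' := ℂ)).toMonoidHom,
      fun χ => MulChar.coe_toUnitHom χ a⟩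
  have h1 := XCh1.prod_hom φ X
  simp only [hφ] at h1
  have hcard : Nat.card (DirichletCharacter ℂ p) = p - 1 := by
    rw [DirichletCharacter.card_eq_totient_of_hasEnoughRootsOfUnity,
      Nat.totient_prime Fact.out]
  have ho : 0 < orderOf a := orderOf_pos a
  have hr : Nat.card φ.range = orderOf a := by
    apply Nat.dvd_antisymm
    · have : NeZero (orderOf a) := ⟨ho.ne'⟩
      rw [← Complex.card_rootsOfUnity (orderOf a)]
      apply Subgroup.card_dvd_of_le
      rintro _ ⟨χ, rfl⟩
      rw [mem_rootsOfUnity]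
      apply Units.ext
      rw [Units.val_pow_eq_pow_val, hφ, ← map_pow, ← Units.val_pow_eq_pow_val,
        pow_orderOf_eq_one, Units.val_one, map_one, Units.val_one]
    · apply orderOf_dvd_of_pow_eq_one
      by_contra hne
      have hne' : ((a ^ Nat.card φ.range : (ZMod p)ˣ) : ZMod p) ≠ 1 := by
        intro h
        exact hne (Units.ext h)
      obtain ⟨χ, hχ⟩ := DirichletCharacter.exists_apply_ne_one_of_hasEnoughRootsOfUnity ℂ hne'
      apply hχ
      have h2 : (⟨φ χ, ⟨χ, rfl⟩⟩ : φ.range) ^ Nat.card φ.range = 1 := pow_card_eq_one'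
      have h3 := congrArg (fun x : φ.range => ((x : ℂˣ) : ℂ)) h2
      rw [Units.val_pow_eq_pow_val, map_pow, ← hφ]
      simpa using h3
  rw [h1, hr, hcard]

end Pool.Agent.Work.MP_59f3ad_nt.US.H
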