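import Pool.Agent.Work.MP_59f3ad_nt.US.H.Stmts

/-!
# Uniform Schneider, part H: item Ch2 (the even characters modulo `p` at `a`), and Ch1
-/

set_option autoImplicit false

open NumberField IsDedekindDomain Filter Topology Polynomial

namespace Pool.Agent.Work.MP_59f3ad_nt.US.H

namespace XCh2

open Finset in
/-- A homomorphism from a finite group to `ℂ` whose values generate the `m`-th roots of unity. -/
lemma gen {A : Type*} [Group A] [Fintype A] (ψ : A →* ℂ) (m : ℕ) (hm : 0 < m)
    (h1 : ∀ x, ψ x ^ m = 1) (h2 : ∀ k, 0 < k → (∀ x, ψ x ^ k = 1) → m ≤ k) :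
    (univ.filter fun x => ψ x = 1).card * m = Fintype.card A ∧
    ∀ X : ℂ, ∏ x, (1 - ψ x * X) = (1 - X ^ m) ^ (Fintype.card A / m) := by
  classical
  have hprim : IsPrimitiveRoot (Complex.exp (2 * Real.pi * Complex.I / m)) m :=
    Complex.isPrimitiveRoot_exp m hm.ne'
  have hc : ∀ x, ψ x ^ (univ.image ψ).card = 1 := by
    intro x
    have e1 : (univ.image ψ).card = Nat.card ψ.toHomUnits.range := by
      have e2 : univ.image ψ = (univ.image ψ.toHomUnits).image (fun u : ℂˣ => (u : ℂ)) := by
        rw [image_image]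
        rfl
      rw [e2, card_image_of_injective _ Units.val_injective, ← Set.ncard_coe_finset]
      have e3 : ((univ.image ψ.toHomUnits : Finset ℂˣ) : Set ℂˣ) =
          (ψ.toHomUnits.range : Set ℂˣ) := by
        ext u
        simp
      rw [e3]
      rfl
    have e4 : (⟨ψ.toHomUnits x, x, rfl⟩ : ψ.toHomUnits.range) ^ Nat.card ψ.toHomUnits.range = 1 :=
      pow_card_eq_one'
    have e5 := congrArg (fun u : ψ.toHomUnits.range => ((u : ℂˣ) : ℂ)) e4
    simp only [SubmonoidClass.mk_pow, Units.val_pow_eq_pow_val, MonoidHom.coe_toHomUnits,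
      OneMemClass.coe_one, Units.val_one] at e5
    rw [e1]
    exact e5
  have hpos : 0 < (univ.image ψ).card := card_pos.2 ⟨ψ 1, mem_image_of_mem _ (mem_univ _)⟩
  have hle := h2 _ hpos hc
  have himg : univ.image ψ = nthRootsFinset m (1 : ℂ) := by
    refine eq_of_subset_of_card_le ?_ ?_
    · intro z hz
      obtain ⟨x, _, rfl⟩ := mem_image.1 hz
      rw [mem_nthRootsFinset hm]
      exact h1 x
    · rw [hprim.card_nthRootsFinset]
      exact hle
  have hfib : ∀ z ∈ univ.image ψ, (univ.filter fun x => ψ x = z).card =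
      (univ.filter fun x => ψ x = 1).card := by
    intro z hz
    refine MonoidHom.card_fiber_eq_of_mem_range ψ ?_ ⟨1, map_one ψ⟩
    obtain ⟨x, _, hx⟩ := mem_image.1 hz
    exact ⟨x, hx⟩
  have hcard : (univ.filter fun x => ψ x = 1).card * m = Fintype.card A := by
    have e1 : (univ : Finset A).card = ∑ z ∈ univ.image ψ, (univ.filter fun x => ψ x = z).card :=
      card_eq_sum_card_image ψ univ
    rw [sum_congr rfl hfib, sum_const, smul_eq_mul, himg, hprim.card_nthRootsFinset,
      card_univ] at e1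
    rw [e1, mul_comm]
  refine ⟨hcard, fun X => ?_⟩
  have e1 : ∏ x, (1 - ψ x * X) =
      ∏ z ∈ univ.image ψ, (1 - z * X) ^ (univ.filter fun x => ψ x = z).card :=
    prod_comp (fun z : ℂ => 1 - z * X) ψ
  have e2 : Fintype.card A / m = (univ.filter fun x => ψ x = 1).card := by
    rw [← hcard, Nat.mul_div_cancel _ hm]
  rw [e1, prod_congr rfl fun z hz => by rw [hfib z hz], prod_pow, himg,
    ← hprim.pow_sub_pow_eq_prod_sub_mul 1 X hm, one_pow, e2]

variable (p : ℕ) [Fact p.Prime]

/-- Evaluation of the characters. -/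
noncomputable def evH (a : (ZMod p)ˣ) : DirichletCharacter ℂ p →* ℂ where
  toFun χ := χ (a : ZMod p)
  map_one' := MulChar.one_apply_coe a
  map_mul' χ χ' := MulChar.mul_apply χ χ' _

variable {p}

lemma evH_apply (a : (ZMod p)ˣ) (χ : DirichletCharacter ℂ p) : evH p a χ = χ (a : ZMod p) := rfl

lemma evH_pow (a : (ZMod p)ˣ) (χ : DirichletCharacter ℂ p) (k : ℕ) :
    evH p a χ ^ k = χ ((a ^ k : (ZMod p)ˣ) : ZMod p) := by
  rw [evH_apply, Units.val_pow_eq_pow_val, map_pow]

/-- The characters separate the units. -/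
lemma sep {a : (ZMod p)ˣ} (h : ∀ χ : DirichletCharacter ℂ p, χ (a : ZMod p) = 1) : a = 1 := by
  by_contra h1
  have h2 : (a : ZMod p) ≠ 1 := fun h3 => h1 (Units.ext h3)
  obtain ⟨χ, hχ⟩ := DirichletCharacter.exists_apply_ne_one_of_hasEnoughRootsOfUnity ℂ h2
  exact hχ (h χ)

lemma card_all : Fintype.card (DirichletCharacter ℂ p) = p - 1 := by
  rw [← Nat.card_eq_fintype_card, DirichletCharacter.card_eq_totient_of_hasEnoughRootsOfUnity,
    Nat.totient_prime (Fact.out : p.Prime)]

end XCh2

open XCh2 in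
theorem XCh2.ch1 : Ch1 := by
  intro p _ a X
  have h := (gen (evH p a) (orderOf a) (orderOf_pos a) (fun χ => by
    rw [evH_pow, pow_orderOf_eq_one, Units.val_one, map_one]) (fun k hk h => by
    refine Nat.le_of_dvd hk (orderOf_dvd_of_pow_eq_one (sep fun χ => ?_))
    rw [← evH_pow]
    exact h χ)).2 X
  rw [card_all] at h
  exact h

open XCh2 in
theorem prf_Ch2 : Ch2 := by
  intro p _ hp2 a X f' hf'
  classical
  have hp : p.Prime := Fact.out
  have hm1 : (-1 : (ZMod p)ˣ) ≠ 1 := by
    intro h
    have h1 : (-1 : ZMod p) = 1 := by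
      have := congrArg (fun u : (ZMod p)ˣ => (u : ZMod p)) h
      simpa using this
    haveI : Fact (2 < p) := ⟨lt_of_le_of_ne hp.two_le (Ne.symm hp2)⟩
    exact ZMod.neg_one_ne_one h1
  -- the subgroup of even characters
  set E : Subgroup (DirichletCharacter ℂ p) := (evH p (-1)).ker with hE
  have hmem : ∀ χ : DirichletCharacter ℂ p, χ ∈ E ↔ χ.Even := by
    intro χ
    rw [hE, MonoidHom.mem_ker, evH_apply, Units.val_neg, Units.val_one]
    exact Iff.rfl
  have hcardE : Fintype.card E = (p - 1) / 2 := by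
    have h := (gen (evH p (-1)) 2 (by norm_num) (fun χ => by
      rw [evH_pow, neg_one_sq, Units.val_one, map_one]) (fun k hk h => by
      by_contra hlt
      have hk1 : k = 1 := by omega
      subst hk1
      refine hm1 (sep fun χ => ?_)
      have := h χ
      rwa [pow_one] at this)).1
    rw [card_all] at h
    have h2 : Fintype.card E = (Finset.univ.filter fun χ => evH p (-1) χ = 1).card := by
      rw [Fintype.card_subtype]
      congr 1
      ext χ
      rw [Finset.mem_filter, Finset.mem_filter, hE, MonoidHom.mem_ker]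
    rw [h2]
    omega
  have hord : 0 < orderOf a := orderOf_pos a
  have hf0 : 0 < f' := by
    rw [hf']
    split_ifs with h
    · obtain ⟨r, hr⟩ := h
      omega
    · exact hord
  have hpm : a ^ f' = 1 ∨ a ^ f' = -1 := by
    rw [hf']
    split_ifs with h
    · obtain ⟨r, hr⟩ := h
      have e1 : orderOf a / 2 = r := by omega
      rw [e1]
      have e2 : (a ^ r) ^ 2 = 1 := by
        rw [← pow_mul, mul_comm, two_mul, ← hr, pow_orderOf_eq_one]
      have e3 : ((a ^ r : (ZMod p)ˣ) : ZMod p) ^ 2 = 1 := by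
        rw [← Units.val_pow_eq_pow_val, e2, Units.val_one]
      rcases (sq_eq_sq_iff_eq_or_eq_neg.1 (e3.trans (one_pow 2).symm)) with e4 | e4
      · exact Or.inl (Units.ext e4)
      · exact Or.inr (Units.ext (by rw [e4, Units.val_neg, Units.val_one]))
    · exact Or.inl (pow_orderOf_eq_one a)
  have h := (gen ((evH p a).comp E.subtype) f' hf0 (fun χ => by
    have h1 : ((evH p a).comp E.subtype) χ ^ f' =
        (χ : DirichletCharacter ℂ p) ((a ^ f' : (ZMod p)ˣ) : ZMod p) := evH_pow a χ.1 f'
    rw [h1]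
    rcases hpm with h2 | h2
    · rw [h2, Units.val_one, map_one]
    · rw [h2, Units.val_neg, Units.val_one]
      exact (hmem χ.1).1 χ.2) (fun k hk h => by
    have h1 : a ^ (2 * k) = 1 := by
      refine sep fun χ => ?_
      have h2 : χ ^ 2 ∈ E := by
        rw [hE, MonoidHom.mem_ker, map_pow, evH_pow, neg_one_sq, Units.val_one, map_one]
      have h3 : evH p a (χ ^ 2) ^ k = 1 := h ⟨χ ^ 2, h2⟩
      rw [map_pow, ← pow_mul, evH_pow] at h3
      exact h3
    have h4 := orderOf_dvd_of_pow_eq_one h1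
    refine Nat.le_of_dvd hk ?_
    rw [hf']
    split_ifs with he
    · obtain ⟨r, hr⟩ := he
      have e1 : orderOf a / 2 = r := by omega
      rw [e1]
      rw [hr, ← two_mul] at h4
      exact Nat.dvd_of_mul_dvd_mul_left (by norm_num) h4
    · have hc : Nat.Coprime (orderOf a) 2 := by
        rw [Nat.coprime_comm, Nat.coprime_two_left]
        exact Nat.not_even_iff_odd.1 he
      exact hc.dvd_of_dvd_mul_left h4)).2 X
  rw [hcardE] at h
  rw [← h]
  have h5 : ∏ χ ∈ evenC p, (1 - χ (a : ZMod p) * X) =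
      ∏ χ : E, (1 - (χ : DirichletCharacter ℂ p) (a : ZMod p) * X) := by
    refine Finset.prod_subtype (evenC p) (fun χ => ?_) _
    rw [hmem, evenC, Finset.mem_filter]
    simp
  rw [h5]
  rfl

end Pool.Agent.Work.MP_59f3ad_nt.US.H
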