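import Pool.Agent.Work.MP_59f3ad_nt.US.H.Stmts

/-!
# Item Cl: a bound for the class number
-/

set_option autoImplicit false

open NumberField IsDedekindDomain Filter Topology Polynomial
open scoped nonZeroDivisors Real

namespace Pool.Agent.Work.MP_59f3ad_nt.US.H

namespace XCl

lemma two_pow_fact (n : ℕ) : 2 ^ n * (n + 1).factorial ≤ (n + 1) ^ (n + 1) := by
  induction n with
  | zero => simp
  | succ n ih =>
    have h1 : 2 * (n + 1) ^ (n + 1) ≤ (n + 1 + 1) ^ (n + 1) := by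
      have h := one_add_mul_le_pow (a := (1 : ℝ) / (n + 1)) (by
        have : (0 : ℝ) ≤ 1 / ((n : ℝ) + 1) := by positivity
        linarith) (n + 1)
      have h2 : (1 : ℝ) + ((n + 1 : ℕ) : ℝ) * (1 / (n + 1)) = 2 := by
        push_cast
        field_simp
        norm_num
      rw [h2] at h
      have h3 : (1 : ℝ) + 1 / (n + 1) = (n + 1 + 1) / (n + 1) := by field_simp
      rw [h3, div_pow, le_div_iff₀ (by positivity)] at h
      exact_mod_cast h
    calc 2 ^ (n + 1) * (n + 1 + 1).factorial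
        = 2 * (n + 1 + 1) * (2 ^ n * (n + 1).factorial) := by
          rw [Nat.factorial_succ (n + 1)]; ring
      _ ≤ 2 * (n + 1 + 1) * (n + 1) ^ (n + 1) := Nat.mul_le_mul_left _ ih
      _ = (n + 1 + 1) * (2 * (n + 1) ^ (n + 1)) := by ring
      _ ≤ (n + 1 + 1) * (n + 1 + 1) ^ (n + 1) := Nat.mul_le_mul_left _ h1
      _ = (n + 1 + 1) ^ (n + 1 + 1) := by ring

lemma four_div_pi_le : 4 / π ≤ 2 := by
  rw [div_le_iff₀ Real.pi_pos]
  linarith [Real.pi_gt_three]

lemma const_le (n r : ℕ) (hn : 0 < n) (hr : 2 * r ≤ n) :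
    (4 / π) ^ r * ((n.factorial : ℝ) / (n : ℝ) ^ n) ≤ 1 := by
  obtain ⟨k, rfl⟩ : ∃ k, n = k + 1 := ⟨n - 1, by omega⟩
  have h1 : (4 / π) ^ r ≤ 2 ^ k := by
    calc (4 / π) ^ r ≤ 2 ^ r := pow_le_pow_left₀ (by positivity) four_div_pi_le _
      _ ≤ 2 ^ k := pow_le_pow_right₀ (by norm_num) (by omega)
  have h2 : (2 : ℝ) ^ k * ((k + 1).factorial : ℝ) ≤ ((k + 1 : ℕ) : ℝ) ^ (k + 1) := by
    exact_mod_cast two_pow_fact k
  rw [← mul_div_assoc, div_le_one (by positivity)]
  calc (4 / π) ^ r * ((k + 1).factorial : ℝ) ≤ 2 ^ k * ((k + 1).factorial : ℝ) := by gcongr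
    _ ≤ _ := h2

end XCl

open XCl in
theorem prf_Cl : Cl := by
  classical
  intro hE hO K _ _ s hs
  set n := Module.finrank ℚ K with hn
  have hn0 : 0 < n := Module.finrank_pos
  set x : ℝ := √(|discr K| : ℝ) with hx
  have hr2 : 2 * InfinitePlace.nrComplexPlaces K ≤ n := by
    have := InfinitePlace.card_add_two_mul_card_eq_rank K
    omega
  have hM : ∀ C : ClassGroup (𝓞 K), ∃ I : (Ideal (𝓞 K))⁰, ClassGroup.mk0 I = C ∧
      ((Ideal.absNorm (I : Ideal (𝓞 K)) : ℕ) : ℝ) ≤ x := by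
    intro C
    obtain ⟨I, hI, hN⟩ := exists_ideal_in_class_of_norm_le C
    refine ⟨I, hI, hN.trans ?_⟩
    have hc := const_le n (InfinitePlace.nrComplexPlaces K) hn0 hr2
    have hx0 : 0 ≤ x := Real.sqrt_nonneg _
    calc _ = (4 / π) ^ InfinitePlace.nrComplexPlaces K * ((n.factorial : ℝ) / (n : ℝ) ^ n) * x := by
          rw [hx, hn]; ring
      _ ≤ 1 * x := by gcongr
      _ = x := one_mul x
  choose J hJ hJN using hM
  have hinj : Function.Injective (fun C : ClassGroup (𝓞 K) => ((J C : Ideal (𝓞 K)))) := by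
    intro C D h
    have : J C = J D := Subtype.ext h
    rw [← hJ C, ← hJ D, this]
  set T : Finset (Ideal (𝓞 K)) := Finset.univ.image (fun C : ClassGroup (𝓞 K) =>
    ((J C : Ideal (𝓞 K)))) with hT
  have hTc : T.card = classNumber K := by
    rw [hT, Finset.card_image_of_injective _ hinj, Finset.card_univ]; rfl
  have hTne : ∀ I ∈ T, I ≠ ⊥ := by
    intro I hI
    rw [hT, Finset.mem_image] at hI
    obtain ⟨C, -, rfl⟩ := hI
    exact nonZeroDivisors.coe_ne_zero (J C)
  have hTN : ∀ I ∈ T, (Ideal.absNorm I : ℝ) ≤ x := by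
    intro I hI
    rw [hT, Finset.mem_image] at hI
    obtain ⟨C, -, rfl⟩ := hI
    exact hJN C
  have hPf : (⋃ I ∈ T, {v : HeightOneSpectrum (𝓞 K) | v.asIdeal ∣ I}).Finite := by
    apply Set.Finite.biUnion T.finite_toSet
    intro I hI
    exact Ideal.finite_factors (hTne I hI)
  set P : Finset (HeightOneSpectrum (𝓞 K)) := hPf.toFinset with hP
  have h1 := hE K s hs T P hTne (by
    intro I hI v hv
    rw [hP, Set.Finite.mem_toFinset]
    exact Set.mem_biUnion hI hv)
  have h2 := hO K s hs P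
  have h3 : (classNumber K : ℝ) ≤ x ^ s * ∑ I ∈ T, (Ideal.absNorm I : ℝ) ^ (-s) := by
    rw [← hTc, Finset.mul_sum]
    calc (T.card : ℝ) = ∑ I ∈ T, (1 : ℝ) := by simp
      _ ≤ _ := by
        apply Finset.sum_le_sum
        intro I hI
        have hpos : (0 : ℝ) < Ideal.absNorm I := by
          have : Ideal.absNorm I ≠ 0 := by
            rw [Ne, Ideal.absNorm_eq_zero_iff]; exact hTne I hI
          exact_mod_cast Nat.pos_of_ne_zero this
        rw [Real.rpow_neg hpos.le, ← div_eq_mul_inv, one_le_div (by positivity)]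
        exact Real.rpow_le_rpow hpos.le (hTN I hI) (by linarith)
  calc (classNumber K : ℝ) ≤ x ^ s * ∑ I ∈ T, (Ideal.absNorm I : ℝ) ^ (-s) := h3
    _ ≤ x ^ s * (s / (s - 1)) ^ n := by
      apply mul_le_mul_of_nonneg_left (h1.trans h2) (by positivity)

end Pool.Agent.Work.MP_59f3ad_nt.US.H
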