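import Pool.Agent.Work.MP_59f3ad_nt.US.H.Stmts
open NumberField IsDedekindDomain Polynomial

set_option autoImplicit false

namespace Pool.Agent.Work.MP_59f3ad_nt.US.H
namespace XDf

theorem notMem {K : Type} [Field K] [NumberField K] {p : ℕ} (hp : p.Prime) (h2 : p ≠ 2) {ζ : K}
    (hζ : IsPrimitiveRoot ζ p) : ζ ∉ maximalRealSubfield K := by
  intro h
  obtain ⟨φ⟩ : Nonempty (K →+* ℂ) := inferInstance
  have h1 := (mem_maximalRealSubfield_iff ζ).1 h φ
  have h3 : (φ ζ) ^ p = 1 := by rw [← map_pow, hζ.pow_eq_one, map_one]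
  obtain ⟨r, hr⟩ := Complex.conj_eq_iff_real.1 h1
  rw [hr] at h3
  have h4 : r ^ p = 1 := by exact_mod_cast h3
  have hodd : Odd p := hp.odd_of_ne_two h2
  have h5 : r = 1 := by
    have := hodd.strictMono_pow.injective (a₁ := r) (a₂ := 1) (by simpa using h4)
    exact this
  rw [h5] at hr
  have h6 : ζ = 1 := φ.injective (by rw [hr]; simp)
  exact hζ.ne_one hp.one_lt h6

theorem adj {K : Type} [Field K] [NumberField K] [IsCMField K] {p : ℕ} (hp : p.Prime) (h2 : p ≠ 2)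
    {ζ : K} (hζ : IsPrimitiveRoot ζ p) :
    Algebra.adjoin (maximalRealSubfield K) {ζ} = ⊤ := by
  have h1 : (Module.finrank (maximalRealSubfield K) K).Prime := by
    rw [Algebra.IsQuadraticExtension.finrank_eq_two]
    exact Nat.prime_two
  have h3 := Subalgebra.isSimpleOrder_of_finrank_prime (maximalRealSubfield K) K h1
  rcases h3.eq_bot_or_eq_top (Algebra.adjoin (maximalRealSubfield K) {ζ}) with h4 | h4
  · exfalso
    have h5 : ζ ∈ (⊥ : Subalgebra (maximalRealSubfield K) K) := by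
      rw [← h4]
      exact Algebra.subset_adjoin rfl
    obtain ⟨x, hx⟩ := Algebra.mem_bot.1 h5
    apply notMem hp h2 hζ
    rw [← hx]
    exact x.2
  · exact h4

theorem norm_gen {F K : Type} [Field F] [Field K] [Algebra F K] [FiniteDimensional F K] {p : ℕ}
    [hp : Fact p.Prime] (h2 : p ≠ 2) (hirr : Irreducible (cyclotomic p F))
    {ζ : K} (hζ : IsPrimitiveRoot ζ p) :
    Algebra.norm F (ζ - 1) = (p : F) ^ (Module.finrank F K / (p - 1)) := by
  have hpp := hp.out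
  have : NeZero p := ⟨hpp.ne_zero⟩
  have hc := hζ.intermediateField_adjoin_isCyclotomicExtension F
  set E := IntermediateField.adjoin F {ζ} with hE
  have hmem : ζ ∈ E := IntermediateField.mem_adjoin_simple_self F ζ
  have hz : IsPrimitiveRoot (⟨ζ, hmem⟩ : E) p :=
    IsPrimitiveRoot.coe_submonoidClass_iff.mp hζ
  have h3 := hz.norm_sub_one_of_prime_ne_two' hirr h2
  have h4 : Module.finrank F E = p - 1 := by
    rw [IsCyclotomicExtension.finrank E hirr, Nat.totient_prime hpp]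
  have h5 : Module.finrank F E * Module.finrank E K = Module.finrank F K :=
    Module.finrank_mul_finrank F E K
  have h6 : Module.finrank F K / (p - 1) = Module.finrank E K := by
    rw [← h5, h4]
    exact Nat.mul_div_cancel_left _ (by have := hpp.two_le; omega)
  rw [h6]
  have h7 : ζ - 1 = algebraMap E K ((⟨ζ, hmem⟩ : E) - 1) := by
    rw [map_sub, map_one]
    rfl
  rw [h7, ← Algebra.norm_norm (R := F) (S := E), Algebra.norm_algebraMap, map_pow, h3]

theorem norm_eq {K : Type} [Field K] [NumberField K] {p : ℕ} [hp : Fact p.Prime] (h2 : p ≠ 2)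
    {ζ : K} (hζ : IsPrimitiveRoot ζ p) :
    Algebra.norm ℚ (ζ - 1) = (p : ℚ) ^ (Module.finrank ℚ K / (p - 1)) :=
  norm_gen h2 (cyclotomic.irreducible_rat hp.out.pos) hζ

theorem minp {K : Type} [Field K] [NumberField K] [IsCMField K] {p : ℕ} (hp : p.Prime) (h2 : p ≠ 2)
    {ζ : K} (hζ : IsPrimitiveRoot ζ p) (z : 𝓞 K) (hz : algebraMap (𝓞 K) K z = ζ)
    (h : ζ + ζ⁻¹ ∈ maximalRealSubfield K) :
    ∃ a : 𝓞 (maximalRealSubfield K), algebraMap (𝓞 (maximalRealSubfield K)) K a = ζ + ζ⁻¹ ∧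
      minpoly (𝓞 (maximalRealSubfield K)) z = X ^ 2 - C a * X + 1 := by
  have hζi : IsIntegral ℤ ζ := hζ.isIntegral hp.pos
  have hζi' : IsIntegral ℤ ζ⁻¹ := hζ.inv.isIntegral hp.pos
  have hsum : IsIntegral ℤ (ζ + ζ⁻¹) := hζi.add hζi'
  have hs : IsIntegral ℤ (⟨ζ + ζ⁻¹, h⟩ : maximalRealSubfield K) := by
    rw [← isIntegral_algebraMap_iff (B := K) (algebraMap (maximalRealSubfield K) K).injective]
    exact hsum
  refine ⟨⟨⟨ζ + ζ⁻¹, h⟩, hs⟩, rfl, ?_⟩
  set a : 𝓞 (maximalRealSubfield K) := ⟨⟨ζ + ζ⁻¹, h⟩, hs⟩ with ha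
  have haK : algebraMap (𝓞 K) K (algebraMap (𝓞 (maximalRealSubfield K)) (𝓞 K) a) = ζ + ζ⁻¹ := rfl
  set Q : (𝓞 (maximalRealSubfield K))[X] := X ^ 2 - C a * X + 1 with hQ
  have hQm : Q.Monic := by
    rw [hQ]
    monicity!
  have hQd : Q.natDegree = 2 := by
    rw [hQ]
    compute_degree!
  have hint : IsIntegral (𝓞 (maximalRealSubfield K)) z := Algebra.IsIntegral.isIntegral z
  have hQz : aeval z Q = 0 := by
    apply (FaithfulSMul.algebraMap_injective (𝓞 K) K)
    rw [hQ]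
    simp only [map_add, map_sub, map_mul, map_pow, aeval_X, aeval_C, map_one, map_zero, haK, hz]
    field_simp [hζ.ne_zero hp.ne_zero]
    ring
  have hdvd := minpoly.isIntegrallyClosed_dvd hint hQz
  have h3 : 2 ≤ (minpoly (𝓞 (maximalRealSubfield K)) z).natDegree := by
    rw [minpoly.two_le_natDegree_iff hint]
    rintro ⟨x, hx⟩
    apply notMem hp h2 hζ
    rw [← hz, ← hx]
    exact (x : maximalRealSubfield K).2
  exact (Polynomial.eq_of_monic_of_dvd_of_natDegree_le (minpoly.monic hint) hQm hdvd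
    (by rw [hQd]; exact h3)).symm

end XDf

open XDf in
/-- [Df] -/
theorem prf_Df : Df := by
  intro K _ _ _ p hpf h2 hex
  obtain ⟨ζ, hζ, h⟩ := hex
  have hp := hpf.out
  have hp3 : 3 ≤ p := by
    have := hp.two_le
    omega
  have hζ0 : ζ ≠ 0 := hζ.ne_zero hp.ne_zero
  obtain ⟨z, hz⟩ : ∃ z : 𝓞 K, algebraMap (𝓞 K) K z = ζ := ⟨⟨ζ, hζ.isIntegral hp.pos⟩, rfl⟩
  obtain ⟨u, hu⟩ : ∃ u : 𝓞 K, algebraMap (𝓞 K) K u = ζ⁻¹ :=
    ⟨⟨ζ⁻¹, hζ.inv.isIntegral hp.pos⟩, rfl⟩
  obtain ⟨a, ha, hmin⟩ := minp hp h2 hζ z hz h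
  have hadj : Algebra.adjoin (maximalRealSubfield K) {algebraMap (𝓞 K) K z} = ⊤ := by
    rw [hz]
    exact adj hp h2 hζ
  have hd := aeval_derivative_mem_differentIdeal (𝓞 (maximalRealSubfield K))
    (maximalRealSubfield K) K z hadj
  have hval : aeval z (derivative (minpoly (𝓞 (maximalRealSubfield K)) z)) = z - u := by
    apply (FaithfulSMul.algebraMap_injective (𝓞 K) K)
    have haK : algebraMap (𝓞 K) K (algebraMap (𝓞 (maximalRealSubfield K)) (𝓞 K) a) = ζ + ζ⁻¹ := ha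
    rw [hmin]
    simp only [derivative_add, derivative_sub, derivative_mul, derivative_X_pow, derivative_C,
      derivative_X, derivative_one, map_add, map_sub, map_mul, map_pow, aeval_X, aeval_C, map_one,
      map_zero, haK, hz, hu, map_natCast]
    push_cast
    ring
  rw [hval] at hd
  have hdvd := Ideal.absNorm_dvd_norm_of_mem hd
  have hz2 : IsPrimitiveRoot (ζ ^ 2) p :=
    hζ.pow_of_coprime 2 ((Nat.coprime_primes Nat.prime_two hp).2 (Ne.symm h2))
  have hN := norm_eq (K := K) (p := p) h2 hz2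
  have hzu : z * (z - u) = z ^ 2 - 1 := by
    apply (FaithfulSMul.algebraMap_injective (𝓞 K) K)
    simp only [map_sub, map_mul, map_pow, map_one, hz, hu]
    field_simp
  have hN2 : Algebra.norm ℤ (z * (z - u)) = ((p : ℤ) ^ (Module.finrank ℚ K / (p - 1))) := by
    have h8 := Algebra.coe_norm_int (K := K) (z * (z - u))
    have h9 : ((z * (z - u) : 𝓞 K) : K) = ζ ^ 2 - 1 := by
      rw [hzu]
      simp only [map_sub, map_pow, map_one, hz]
    rw [h9, hN] at h8
    exact_mod_cast h8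
  have hdvd2 : ((Ideal.absNorm (differentIdeal (𝓞 (maximalRealSubfield K)) (𝓞 K)) : ℕ) : ℤ) ∣
      ((p : ℤ) ^ (Module.finrank ℚ K / (p - 1))) := by
    rw [← hN2, map_mul]
    exact Dvd.dvd.mul_left hdvd _
  have hdvd3 : Ideal.absNorm (differentIdeal (𝓞 (maximalRealSubfield K)) (𝓞 K)) ∣
      p ^ (Module.finrank ℚ K / (p - 1)) := by
    exact_mod_cast hdvd2
  exact Nat.le_of_dvd (pow_pos hp.pos _) hdvd3

end Pool.Agent.Work.MP_59f3ad_nt.US.H
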