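import Pool.Agent.Work.MP_59f3ad_nt.US.H.Stmts

set_option autoImplicit false

open NumberField IsDedekindDomain Filter Topology

namespace Pool.Agent.Work.MP_59f3ad_nt.US.H

namespace XEG

variable {K : Type} [Field K] [NumberField K]

/-- The term of the series. -/
noncomputable def g (f : Ideal (𝓞 K) → ℂ) (s : ℝ) (I : Ideal (𝓞 K)) : ℂ :=
  f I * (((Ideal.absNorm I : ℝ) ^ (-s) : ℝ) : ℂ)

lemma g_mul (f : Ideal (𝓞 K) → ℂ) (hm : ∀ I J, f (I * J) = f I * f J) (s : ℝ)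
    (I J : Ideal (𝓞 K)) : g f s (I * J) = g f s I * g f s J := by
  unfold g
  rw [hm, map_mul, Nat.cast_mul, Real.mul_rpow (Nat.cast_nonneg _) (Nat.cast_nonneg _)]
  push_cast
  ring

lemma norm_g_le (f : Ideal (𝓞 K) → ℂ) (hb : ∀ I, ‖f I‖ ≤ 1) (s : ℝ) (I : Ideal (𝓞 K)) :
    ‖g f s I‖ ≤ (Ideal.absNorm I : ℝ) ^ (-s) := by
  unfold g
  have h0 : (0 : ℝ) ≤ (Ideal.absNorm I : ℝ) ^ (-s) := Real.rpow_nonneg (Nat.cast_nonneg _) _
  rw [norm_mul, Complex.norm_real, Real.norm_of_nonneg h0]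
  exact mul_le_of_le_one_left h0 (hb I)

lemma norm_g_lt (f : Ideal (𝓞 K) → ℂ) (hb : ∀ I, ‖f I‖ ≤ 1) (s : ℝ) (hs : 1 < s)
    (v : HeightOneSpectrum (𝓞 K)) : ‖g f s v.asIdeal‖ < 1 := by
  refine (norm_g_le f hb s _).trans_lt (Real.rpow_lt_one_of_one_lt_of_neg ?_ (by linarith))
  exact_mod_cast NumberField.HeightOneSpectrum.one_lt_absNorm v

open scoped Classical in
/-- The indicator. -/
noncomputable def A (f : Ideal (𝓞 K) → ℂ) (s : ℝ) (P : Finset (HeightOneSpectrum (𝓞 K)))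
    (I : {I : Ideal (𝓞 K) // I ≠ ⊥}) : ℂ :=
  if ∀ v : HeightOneSpectrum (𝓞 K), v.asIdeal ∣ I.1 → v ∈ P then g f s I.1 else 0

lemma norm_A_le (f : Ideal (𝓞 K) → ℂ) (hb : ∀ I, ‖f I‖ ≤ 1) (s : ℝ)
    (P : Finset (HeightOneSpectrum (𝓞 K))) (I : {I : Ideal (𝓞 K) // I ≠ ⊥}) :
    ‖A f s P I‖ ≤ (Ideal.absNorm I.1 : ℝ) ^ (-s) := by
  unfold A
  split_ifs
  · exact norm_g_le f hb s _
  · rw [norm_zero]
    exact Real.rpow_nonneg (Nat.cast_nonneg _) _

lemma asIdeal_dvd {v w : HeightOneSpectrum (𝓞 K)} (h : w.asIdeal ∣ v.asIdeal) : w = v := by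
  have h1 : v.asIdeal ≤ w.asIdeal := Ideal.le_of_dvd h
  have h2 : v.asIdeal = w.asIdeal := v.isMaximal.eq_of_le w.isPrime.ne_top h1
  exact HeightOneSpectrum.ext h2.symm

lemma dvd_mul_iff (v w : HeightOneSpectrum (𝓞 K)) (J : Ideal (𝓞 K)) :
    w.asIdeal ∣ v.asIdeal * J ↔ w = v ∨ w.asIdeal ∣ J := by
  constructor
  · intro h
    rcases w.prime.dvd_or_dvd h with h | h
    · exact Or.inl (asIdeal_dvd h)
    · exact Or.inr h
  · rintro (rfl | h)
    · exact dvd_mul_right _ _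
    · exact h.mul_left _

/-- Multiplication by a prime. -/
def mulv (v : HeightOneSpectrum (𝓞 K)) (J : {I : Ideal (𝓞 K) // I ≠ ⊥}) :
    {I : Ideal (𝓞 K) // I ≠ ⊥} := ⟨v.asIdeal * J.1, mul_ne_zero v.ne_bot J.2⟩

lemma mulv_inj (v : HeightOneSpectrum (𝓞 K)) : Function.Injective (mulv v) := by
  intro I J h
  have h1 : v.asIdeal * I.1 = v.asIdeal * J.1 := congrArg Subtype.val h
  exact Subtype.ext (mul_left_cancel₀ v.ne_bot h1)

lemma summable_A (f : Ideal (𝓞 K) → ℂ) (hb : ∀ I, ‖f I‖ ≤ 1) (s : ℝ)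
    (hS : Summable (fun I : {I : Ideal (𝓞 K) // I ≠ ⊥} => (Ideal.absNorm I.1 : ℝ) ^ (-s)))
    (P : Finset (HeightOneSpectrum (𝓞 K))) : Summable (A f s P) :=
  hS.of_norm_bounded (norm_A_le f hb s P)

open scoped Classical in
lemma step (f : Ideal (𝓞 K) → ℂ) (hm : ∀ I J, f (I * J) = f I * f J) (hb : ∀ I, ‖f I‖ ≤ 1)
    (s : ℝ)
    (hS : Summable (fun I : {I : Ideal (𝓞 K) // I ≠ ⊥} => (Ideal.absNorm I.1 : ℝ) ^ (-s)))
    (v : HeightOneSpectrum (𝓞 K)) (P : Finset (HeightOneSpectrum (𝓞 K))) (hv : v ∉ P) :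
    ∑' I, A f s (insert v P) I = ∑' I, A f s P I + g f s v.asIdeal * ∑' I, A f s (insert v P) I := by
  set B : {I : Ideal (𝓞 K) // I ≠ ⊥} → ℂ := fun I =>
    if v.asIdeal ∣ I.1 then A f s (insert v P) I else 0 with hB
  have h1 : ∀ I, A f s (insert v P) I = A f s P I + B I := by
    intro I
    simp only [hB, A]
    by_cases hd : v.asIdeal ∣ I.1
    · have h2 : ¬ ∀ w : HeightOneSpectrum (𝓞 K), w.asIdeal ∣ I.1 → w ∈ P := fun h => hv (h v hd)
      rw [if_neg h2, if_pos hd, zero_add]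
    · rw [if_neg hd, add_zero]
      congr 1
      apply propext
      constructor
      · intro h w hw
        rcases Finset.mem_insert.1 (h w hw) with h3 | h3
        · rw [h3] at hw
          exact absurd hw hd
        · exact h3
      · intro h w hw
        exact Finset.mem_insert_of_mem (h w hw)
  have hBs : Summable B := by
    refine hS.of_norm_bounded fun I => ?_
    simp only [hB]
    split_ifs
    · exact norm_A_le f hb s _ I
    · rw [norm_zero]
      exact Real.rpow_nonneg (Nat.cast_nonneg _) _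
  have h2 : ∑' I, B I = g f s v.asIdeal * ∑' I, A f s (insert v P) I := by
    have h3 : Function.support B ⊆ Set.range (mulv v) := by
      intro I hI
      have h4 : v.asIdeal ∣ I.1 := by
        by_contra h5
        exact hI (by simp only [hB, if_neg h5])
      obtain ⟨J, hJ⟩ := h4
      have hJ0 : J ≠ ⊥ := by
        rintro rfl
        exact I.2 (by rw [hJ]; exact mul_zero _)
      exact ⟨⟨J, hJ0⟩, Subtype.ext hJ.symm⟩
    rw [← (mulv_inj v).tsum_eq h3, ← tsum_mul_left]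
    refine tsum_congr fun J => ?_
    simp only [hB, A, mulv]
    rw [if_pos (dvd_mul_right _ _)]
    have h6 : (∀ w : HeightOneSpectrum (𝓞 K), w.asIdeal ∣ v.asIdeal * J.1 → w ∈ insert v P) ↔
        ∀ w : HeightOneSpectrum (𝓞 K), w.asIdeal ∣ J.1 → w ∈ insert v P := by
      constructor
      · intro h w hw
        exact h w ((dvd_mul_iff v w _).2 (Or.inr hw))
      · intro h w hw
        rcases (dvd_mul_iff v w _).1 hw with rfl | h7
        · exact Finset.mem_insert_self _ _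
        · exact h w h7
    by_cases h7 : ∀ w : HeightOneSpectrum (𝓞 K), w.asIdeal ∣ J.1 → w ∈ insert v P
    · rw [if_pos (h6.2 h7), if_pos h7, g_mul f hm]
    · rw [if_neg (fun h => h7 (h6.1 h)), if_neg h7, mul_zero]
  rw [← h2, ← (summable_A f hb s hS P).tsum_add hBs]
  exact tsum_congr h1

lemma fin_prod (f : Ideal (𝓞 K) → ℂ) (h1 : f 1 = 1) (hm : ∀ I J, f (I * J) = f I * f J)
    (hb : ∀ I, ‖f I‖ ≤ 1) (s : ℝ) (hs : 1 < s)
    (hS : Summable (fun I : {I : Ideal (𝓞 K) // I ≠ ⊥} => (Ideal.absNorm I.1 : ℝ) ^ (-s)))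
    (P : Finset (HeightOneSpectrum (𝓞 K))) :
    ∏ v ∈ P, (1 - g f s v.asIdeal)⁻¹ = ∑' I, A f s P I := by
  classical
  induction P using Finset.induction_on with
  | empty =>
    rw [Finset.prod_empty]
    have hne : (1 : Ideal (𝓞 K)) ≠ ⊥ := one_ne_zero
    rw [tsum_eq_single ⟨1, hne⟩]
    · simp only [A]
      rw [if_pos, g, h1]
      · simp
      · intro v hv
        exact absurd (Ideal.isUnit_iff.1 (isUnit_of_dvd_one hv)) v.isPrime.ne_top
    · intro I hI
      simp only [A]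
      rw [if_neg]
      intro h
      have hI1 : I.1 ≠ ⊤ := by
        intro h2
        exact hI (Subtype.ext (h2.trans Ideal.one_eq_top.symm))
      obtain ⟨M, hM, hIM⟩ := Ideal.exists_le_maximal I.1 hI1
      have hM0 : M ≠ ⊥ := by
        rintro rfl
        exact I.2 (le_bot_iff.1 hIM)
      exact absurd (h ⟨M, hM.isPrime, hM0⟩ (Ideal.dvd_iff_le.2 hIM)) (Finset.notMem_empty _)
  | insert v P hv ih =>
    rw [Finset.prod_insert hv, ih]
    have h2 := step f hm hb s hS v P hv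
    have h3 : (1 : ℂ) - g f s v.asIdeal ≠ 0 := by
      intro h4
      have h5 : g f s v.asIdeal = 1 := (sub_eq_zero.1 h4).symm
      have h6 := norm_g_lt f hb s hs v
      rw [h5, norm_one] at h6
      exact lt_irrefl _ h6
    rw [inv_mul_eq_iff_eq_mul₀ h3]
    linear_combination -h2

end XEG

open XEG in
theorem prf_EG : EG := by
  intro hSm hEul hOv K _ _ f h1 hm hb s hs
  have hS := hSm hEul hOv K s hs
  have h2 : Tendsto (fun P : Finset (HeightOneSpectrum (𝓞 K)) => ∑' I, A f s P I) atTop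
      (𝓝 (∑' I : {I : Ideal (𝓞 K) // I ≠ ⊥}, g f s I.1)) := by
    refine tendsto_tsum_of_dominated_convergence hS (fun I => ?_)
      (Eventually.of_forall fun P I => norm_A_le f hb s P I)
    refine tendsto_const_nhds.congr' ?_
    have hfin := Ideal.finite_factors (R := 𝓞 K) (I := I.1) I.2
    refine eventually_atTop.2 ⟨hfin.toFinset, fun P hP => ?_⟩
    simp only [A]
    rw [if_pos]
    intro v hv
    exact hP (hfin.mem_toFinset.2 hv)
  rw [HasProd, SummationFilter.unconditional_filter]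
  have h3 : (fun P : Finset (HeightOneSpectrum (𝓞 K)) => ∑' I, A f s P I) = fun P =>
      ∏ v ∈ P, (1 - f v.asIdeal * (((Ideal.absNorm v.asIdeal : ℝ) ^ (-s) : ℝ) : ℂ))⁻¹ := by
    funext P
    exact (fin_prod f h1 hm hb s hs hS P).symm
  rw [h3] at h2
  exact h2

end Pool.Agent.Work.MP_59f3ad_nt.US.H
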