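import Pool.Agent.Work.MP_59f3ad_nt.US.H.Stmts

/-!
# Uniform Schneider, part H: item Eul (finite Euler inequality)
-/

set_option autoImplicit false

open NumberField IsDedekindDomain Filter Topology Polynomial

namespace Pool.Agent.Work.MP_59f3ad_nt.US.H

namespace XEul

variable (K : Type) [Field K] [NumberField K]

lemma norm_ge_two (v : HeightOneSpectrum (𝓞 K)) : 2 ≤ Ideal.absNorm v.asIdeal := by
  have h0 : Ideal.absNorm v.asIdeal ≠ 0 := by
    rw [Ne, Ideal.absNorm_eq_zero_iff]
    exact v.ne_bot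
  have h1 : Ideal.absNorm v.asIdeal ≠ 1 := by
    rw [Ne, Ideal.absNorm_eq_one_iff]
    exact v.isPrime.ne_top
  omega

lemma exists_split (v : HeightOneSpectrum (𝓞 K)) (I : Ideal (𝓞 K)) :
    ∃ (e : ℕ) (J : Ideal (𝓞 K)), I ≠ ⊥ → ¬ v.asIdeal ∣ J ∧ I = v.asIdeal ^ e * J := by
  by_cases hI : I = ⊥
  · exact ⟨0, ⊥, fun h => absurd hI h⟩
  · obtain ⟨e, J, h1, h2⟩ := WfDvdMonoid.max_power_factor (a₀ := I) (x := v.asIdeal) hI
      v.irreducible
    exact ⟨e, J, fun _ => ⟨h1, h2⟩⟩

lemma norm_mul_pow (v : HeightOneSpectrum (𝓞 K)) (e : ℕ) (J : Ideal (𝓞 K)) (s : ℝ) :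
    (Ideal.absNorm (v.asIdeal ^ e * J) : ℝ) ^ (-s) =
      ((Ideal.absNorm v.asIdeal : ℝ) ^ (-s)) ^ e * (Ideal.absNorm J : ℝ) ^ (-s) := by
  rw [map_mul, map_pow]
  push_cast
  rw [Real.mul_rpow (by positivity) (by positivity), ← Real.rpow_natCast, ← Real.rpow_natCast,
    ← Real.rpow_mul (by positivity), ← Real.rpow_mul (by positivity), mul_comm (e : ℝ)]

end XEul

open XEul in
theorem prf_Eul : Eul := by
  classical
  intro K _ _ s hs T P
  induction P using Finset.induction_on generalizing T with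
  | empty =>
    intro hT hP
    have h1 : ∀ I ∈ T, I = ⊤ := by
      intro I hI
      by_contra hne
      obtain ⟨M, hM, hIM⟩ := Ideal.exists_le_maximal I hne
      have hMb : M ≠ ⊥ := by
        rintro rfl
        exact hT I hI (le_bot_iff.1 hIM)
      exact absurd (hP I hI ⟨M, hM.isPrime, hMb⟩ (Ideal.dvd_iff_le.2 hIM)) (Finset.notMem_empty _)
    rw [Finset.prod_empty]
    have h2 : T ⊆ {⊤} := fun I hI => Finset.mem_singleton.2 (h1 I hI)
    refine (Finset.sum_le_sum_of_subset_of_nonneg h2 fun I _ _ => by positivity).trans ?_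
    rw [Finset.sum_singleton, Ideal.absNorm_top]
    simp
  | insert v P hv ih =>
    intro hT hP
    choose e J h using exists_split K v
    set x : ℝ := (Ideal.absNorm v.asIdeal : ℝ) ^ (-s) with hx
    have hN : (2 : ℝ) ≤ Ideal.absNorm v.asIdeal := by exact_mod_cast norm_ge_two K v
    have hx0 : 0 ≤ x := by positivity
    have hx1 : x < 1 := Real.rpow_lt_one_of_one_lt_of_neg (by linarith) (by linarith)
    set g : Ideal (𝓞 K) → ℝ := fun I => (Ideal.absNorm I : ℝ) ^ (-s) with hg
    have hg0 : ∀ I, 0 ≤ g I := fun I => by positivity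
    set m : ℕ := T.sup e with hm
    have hinj : Set.InjOn (fun I => (e I, J I)) (T : Set (Ideal (𝓞 K))) := by
      intro I hI I' hI' hII
      have e1 : e I = e I' := congrArg Prod.fst hII
      have e2 : J I = J I' := congrArg Prod.snd hII
      rw [(h I (hT I hI)).2, (h I' (hT I' hI')).2, e1, e2]
    have hsum : ∑ I ∈ T, g I = ∑ y ∈ T.image (fun I => (e I, J I)), x ^ y.1 * g y.2 := by
      rw [Finset.sum_image hinj]
      refine Finset.sum_congr rfl fun I hI => ?_
      simp only [hg, hx]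
      rw [← norm_mul_pow, ← (h I (hT I hI)).2]
    have hsub : T.image (fun I => (e I, J I)) ⊆ Finset.range (m + 1) ×ˢ T.image J := by
      intro y hy
      obtain ⟨I, hI, rfl⟩ := Finset.mem_image.1 hy
      refine Finset.mem_product.2 ⟨?_, Finset.mem_image_of_mem J hI⟩
      rw [Finset.mem_range]
      exact Nat.lt_succ_of_le (Finset.le_sup hI)
    have hJ := ih (T.image J) (by
        intro I' hI'
        obtain ⟨I, hI, rfl⟩ := Finset.mem_image.1 hI'
        intro hb
        apply hT I hI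
        rw [(h I (hT I hI)).2, hb]
        exact mul_zero _) (by
        intro I' hI' w hw
        obtain ⟨I, hI, rfl⟩ := Finset.mem_image.1 hI'
        have hwI : w.asIdeal ∣ I := by
          have h2 := (h I (hT I hI)).2
          rw [h2]
          exact hw.mul_left _
        rcases Finset.mem_insert.1 (hP I hI w hwI) with h3 | h3
        · subst h3
          exact absurd hw (h I (hT I hI)).1
        · exact h3)
    have hgeo : ∑ k ∈ Finset.range (m + 1), x ^ k ≤ (1 - x)⁻¹ :=
      sum_le_hasSum _ (fun k _ => pow_nonneg hx0 k) (hasSum_geometric_of_lt_one hx0 hx1)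
    rw [Finset.prod_insert hv]
    calc ∑ I ∈ T, (Ideal.absNorm I : ℝ) ^ (-s) = ∑ I ∈ T, g I := rfl
      _ = ∑ y ∈ T.image (fun I => (e I, J I)), x ^ y.1 * g y.2 := hsum
      _ ≤ ∑ y ∈ Finset.range (m + 1) ×ˢ T.image J, x ^ y.1 * g y.2 :=
          Finset.sum_le_sum_of_subset_of_nonneg hsub fun y _ _ =>
            mul_nonneg (pow_nonneg hx0 _) (hg0 _)
      _ = (∑ k ∈ Finset.range (m + 1), x ^ k) * ∑ I ∈ T.image J, g I := by
          rw [Finset.sum_product, Finset.sum_mul_sum]
      _ ≤ (1 - x)⁻¹ * ∏ v ∈ P, (1 - (Ideal.absNorm v.asIdeal : ℝ) ^ (-s))⁻¹ := by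
          apply mul_le_mul hgeo hJ (Finset.sum_nonneg fun I _ => hg0 I)
          exact inv_nonneg.2 (by linarith)

end Pool.Agent.Work.MP_59f3ad_nt.US.H
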