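import Pool.Agent.Work.MP_59f3ad_nt.US.H.Stmts

/-!
# Uniform Schneider, part H: item KD
-/

set_option autoImplicit false

open NumberField IsDedekindDomain Filter Topology Polynomial

namespace Pool.Agent.Work.MP_59f3ad_nt.US.H

theorem prf_KD : KD := by
  intro L E _ _ _ _ _ θ q _ hq hadj hsep Q _ hQ
  have hQ0 : Q ≠ ⊥ := by
    rintro rfl
    apply hq
    rw [← hQ]
    exact Ideal.under_bot _ _
  have hQmax : Q.IsMaximal := Ideal.IsPrime.isMaximal inferInstance hQ0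
  set g := minpoly (𝓞 L) θ with hg
  have hder : aeval θ (derivative g) ∉ Q := by
    have hle : q ≤ Q.comap (algebraMap (𝓞 L) (𝓞 E)) := by
      rw [← hQ]
    let φ : (𝓞 L ⧸ q) →+* (𝓞 E ⧸ Q) := Ideal.quotientMap Q (algebraMap (𝓞 L) (𝓞 E)) hle
    have hφ : φ.comp (Ideal.Quotient.mk q) = (Ideal.Quotient.mk Q).comp (algebraMap (𝓞 L) (𝓞 E)) := by
      ext x
      simp [φ]
    have key : ∀ f : (𝓞 L)[X], eval₂ φ (Ideal.Quotient.mk Q θ) (f.map (Ideal.Quotient.mk q)) =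
        Ideal.Quotient.mk Q (aeval θ f) := by
      intro f
      rw [eval₂_map, hφ, ← hom_eval₂]
      rfl
    obtain ⟨a, b, hab⟩ := hsep
    intro hmem
    have h1 := congrArg (eval₂ φ (Ideal.Quotient.mk Q θ)) hab
    rw [eval₂_add, eval₂_mul, eval₂_mul, key g, derivative_map, key (derivative g)] at h1
    rw [Ideal.Quotient.eq_zero_iff_mem.2 hmem, hg, minpoly.aeval, map_zero, mul_zero, mul_zero,
      add_zero, eval₂_one] at h1
    have : Nontrivial (𝓞 E ⧸ Q) := Ideal.Quotient.nontrivial_iff.2 hQmax.ne_top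
    exact zero_ne_one h1
  have hcd := conductor_mul_differentIdeal (𝓞 L) L E θ hadj
  have hnot : ¬ (conductor (𝓞 L) θ * differentIdeal (𝓞 L) (𝓞 E)) ≤ Q := by
    rw [hcd, Ideal.span_singleton_le_iff_mem]
    exact hder
  have hc : ¬ conductor (𝓞 L) θ ≤ Q := fun h => hnot (Ideal.mul_le_left.trans h)
  have hd : ¬ Q ∣ differentIdeal (𝓞 L) (𝓞 E) := fun h =>
    hnot (Ideal.mul_le_right.trans (Ideal.dvd_iff_le.1 h))
  constructor
  · have h1 : Algebra.IsUnramifiedAt (𝓞 L) Q := not_dvd_differentIdeal_iff.1 hd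
    exact Ideal.ramificationIdx_eq_one_of_isUnramifiedAt
  · intro x
    obtain ⟨c, hcC, hcQ⟩ := Set.not_subset.1 hc
    have hcC' : ∀ b : 𝓞 E, c * b ∈ Algebra.adjoin (𝓞 L) {θ} := mem_conductor_iff.1 hcC
    have hfin : Finite (𝓞 E ⧸ Q) := Ideal.finiteQuotientOfFreeOfNeBot Q hQ0
    let _ : Field (𝓞 E ⧸ Q) := Ideal.Quotient.field Q
    have hc0 : (Ideal.Quotient.mk Q c) ≠ 0 := fun h => hcQ (Ideal.Quotient.eq_zero_iff_mem.1 h)
    have : Fintype (𝓞 E ⧸ Q) := Fintype.ofFinite _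
    have hpow : (Ideal.Quotient.mk Q c) ^ (Fintype.card (𝓞 E ⧸ Q) - 1) = 1 :=
      FiniteField.pow_card_sub_one_eq_one _ hc0
    obtain ⟨m, hm⟩ : ∃ m, Fintype.card (𝓞 E ⧸ Q) - 1 = m + 1 := by
      have := Fintype.one_lt_card (α := 𝓞 E ⧸ Q)
      exact ⟨Fintype.card (𝓞 E ⧸ Q) - 2, by omega⟩
    rw [hm] at hpow
    have hcadj : c ∈ Algebra.adjoin (𝓞 L) {θ} := by
      have := hcC' 1
      rwa [mul_one] at this
    refine ⟨c ^ m * (c * x), mul_mem (pow_mem hcadj m) (hcC' x), ?_⟩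
    rw [← Ideal.Quotient.eq_zero_iff_mem, map_sub, map_mul, map_mul, map_pow, ← mul_assoc,
      ← pow_succ, hpow, one_mul, sub_self]

end Pool.Agent.Work.MP_59f3ad_nt.US.H
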