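import Pool.Agent.Work.MP_59f3ad_nt.US.H.Stmts

/-!
# Uniform Schneider, part H, item KR: the index of a subgroup which contains the classes of `K⁺`
-/

set_option autoImplicit false

open NumberField IsDedekindDomain Filter Topology Polynomial

namespace Pool.Agent.Work.MP_59f3ad_nt.US.H

namespace XKR

variable {K : Type} [Field K] [NumberField K]

/-- Extension of ideals is injective. -/
lemma map_inj {I J : Ideal (𝓞 (maximalRealSubfield K))}
    (h : I.map (algebraMap (𝓞 (maximalRealSubfield K)) (𝓞 K)) =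
      J.map (algebraMap (𝓞 (maximalRealSubfield K)) (𝓞 K))) : I = J := by
  have h1 := congrArg (Ideal.relNorm (𝓞 (maximalRealSubfield K))) h
  rw [Ideal.relNorm_algebraMap, Ideal.relNorm_algebraMap] at h1
  have hn : Module.finrank (𝓞 (maximalRealSubfield K)) (𝓞 K) ≠ 0 := Module.finrank_pos.ne'
  have h2 : I ∣ J := (UniqueFactorizationMonoid.pow_dvd_pow_iff_dvd hn).1 h1.dvd
  have h3 : J ∣ I := (UniqueFactorizationMonoid.pow_dvd_pow_iff_dvd hn).1 h1.symm.dvd
  exact le_antisymm (Ideal.dvd_iff_le.1 h3) (Ideal.dvd_iff_le.1 h2)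

variable [IsCMField K]

/-- A generator of an extended ideal is multiplied by a root of unity under conjugation. -/
lemma exists_unit (I : Ideal (𝓞 (maximalRealSubfield K))) (α : 𝓞 K) (hα : α ≠ 0)
    (h : I.map (algebraMap (𝓞 (maximalRealSubfield K)) (𝓞 K)) = Ideal.span {α}) :
    ∃ u : Units.torsion K, IsCMField.complexConj K (α : K) = ((u : (𝓞 K)ˣ) : K) * (α : K) := by
  set c := IsCMField.ringOfIntegersComplexConj K with hc
  have h1 : (I.map (algebraMap (𝓞 (maximalRealSubfield K)) (𝓞 K))).map (c : 𝓞 K →+* 𝓞 K) =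
      I.map (algebraMap (𝓞 (maximalRealSubfield K)) (𝓞 K)) := by
    rw [Ideal.map_map]
    congr 1
    ext x
    simp
  rw [h, Ideal.map_span, Set.image_singleton, Ideal.span_singleton_eq_span_singleton] at h1
  obtain ⟨v, hv⟩ := h1.symm
  have hv' : α * (v : 𝓞 K) = c α := hv
  have hK : IsCMField.complexConj K (α : K) = (α : K) * ((v : 𝓞 K) : K) := by
    rw [← IsCMField.coe_ringOfIntegersComplexConj, ← hc, ← hv']
    exact map_mul (algebraMap (𝓞 K) K) _ _
  have hαK : (α : K) ≠ 0 := fun h' => hα (RingOfIntegers.ext (by simpa using h'))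
  refine ⟨⟨v, (Units.mem_torsion K).2 fun w => ?_⟩, ?_⟩
  · have e := IsCMField.infinitePlace_complexConj K w (α : K)
    rw [hK, map_mul] at e
    have hw : w (α : K) ≠ 0 := by
      simpa using hαK
    exact mul_left_cancel₀ hw (by rw [mul_one]; exact e)
  · exact hK.trans (mul_comm _ _)

/-- Two ideals with equivalent units are in the same class. -/
lemma mk0_eq (I₁ I₂ : nonZeroDivisors (Ideal (𝓞 (maximalRealSubfield K)))) (α₁ α₂ : 𝓞 K)
    (h10 : α₁ ≠ 0) (h20 : α₂ ≠ 0)
    (h1 : (I₁ : Ideal (𝓞 (maximalRealSubfield K))).map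
      (algebraMap (𝓞 (maximalRealSubfield K)) (𝓞 K)) = Ideal.span {α₁})
    (h2 : (I₂ : Ideal (𝓞 (maximalRealSubfield K))).map
      (algebraMap (𝓞 (maximalRealSubfield K)) (𝓞 K)) = Ideal.span {α₂})
    (u₁ u₂ : Units.torsion K)
    (c1 : IsCMField.complexConj K (α₁ : K) = ((u₁ : (𝓞 K)ˣ) : K) * (α₁ : K))
    (c2 : IsCMField.complexConj K (α₂ : K) = ((u₂ : (𝓞 K)ˣ) : K) * (α₂ : K))
    (hu : u₁⁻¹ * u₂ ∈ (IsCMField.unitsMulComplexConjInv K).range) :
    ClassGroup.mk0 I₁ = ClassGroup.mk0 I₂ := by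
  obtain ⟨ε, hε⟩ := hu
  have hu2 : (u₂ : (𝓞 K)ˣ) = (u₁ : (𝓞 K)ˣ) * (ε * (IsCMField.unitsComplexConj K ε)⁻¹) := by
    have e : u₂ = u₁ * IsCMField.unitsMulComplexConjInv K ε := by
      rw [hε, mul_inv_cancel_left]
    rw [e]
    rfl
  have hcε : ((IsCMField.unitsComplexConj K ε : (𝓞 K)ˣ) : K) =
      IsCMField.complexConj K ((ε : 𝓞 K) : K) := rfl
  have e0 : ((ε : 𝓞 K) : K) ≠ 0 := by simp
  have e0' : IsCMField.complexConj K ((ε : 𝓞 K) : K) ≠ 0 := by simp
  have e2 : ((u₂ : (𝓞 K)ˣ) : K) * IsCMField.complexConj K ((ε : 𝓞 K) : K) =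
      ((u₁ : (𝓞 K)ˣ) : K) * ((ε : 𝓞 K) : K) := by
    have h := congrArg (fun v : (𝓞 K)ˣ => ((v * IsCMField.unitsComplexConj K ε : (𝓞 K)ˣ) : K)) hu2
    simp only [mul_assoc, inv_mul_cancel, mul_one] at h
    rw [← hcε]
    simpa using h
  have a1 : (α₁ : K) ≠ 0 := fun h' => h10 (RingOfIntegers.ext (by simpa using h'))
  have a2 : (α₂ : K) ≠ 0 := fun h' => h20 (RingOfIntegers.ext (by simpa using h'))
  have u10 : (((u₁ : (𝓞 K)ˣ) : 𝓞 K) : K) ≠ 0 := by simp
  set r : K := ((ε : 𝓞 K) : K) * (α₂ : K) / (α₁ : K) with hr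
  have hr0 : r ≠ 0 := div_ne_zero (mul_ne_zero e0 a2) a1
  have hfix : IsCMField.complexConj K r = r := by
    rw [hr, map_div₀, map_mul, c1, c2]
    rw [div_eq_div_iff (mul_ne_zero u10 a1) a1]
    linear_combination ((α₂ : K) * (α₁ : K)) * e2
  have hmem : r ∈ maximalRealSubfield K := (IsCMField.complexConj_eq_self_iff K r).1 hfix
  obtain ⟨x, y, hy, hxy⟩ := IsFractionRing.div_surjective (A := 𝓞 (maximalRealSubfield K))
    (⟨r, hmem⟩ : maximalRealSubfield K)
  have hy0 : y ≠ 0 := nonZeroDivisors.ne_zero hy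
  have hxyK : (((x : 𝓞 (maximalRealSubfield K)) : maximalRealSubfield K) : K) =
      r * (((y : 𝓞 (maximalRealSubfield K)) : maximalRealSubfield K) : K) := by
    have h := congrArg (fun t : maximalRealSubfield K => (t : K)) hxy
    have hyK : (((y : 𝓞 (maximalRealSubfield K)) : maximalRealSubfield K) : K) ≠ 0 := by
      simpa using hy0
    have h' : (((x : 𝓞 (maximalRealSubfield K)) : maximalRealSubfield K) : K) /
        (((y : 𝓞 (maximalRealSubfield K)) : maximalRealSubfield K) : K) = r := by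
      simpa using h
    rw [← h', div_mul_cancel₀ _ hyK]
  have hx0 : x ≠ 0 := by
    rintro rfl
    have hyK : (((y : 𝓞 (maximalRealSubfield K)) : maximalRealSubfield K) : K) ≠ 0 := by
      simpa using hy0
    exact mul_ne_zero hr0 hyK (by rw [← hxyK]; simp)
  have hint : algebraMap (𝓞 (maximalRealSubfield K)) (𝓞 K) x * α₁ =
      algebraMap (𝓞 (maximalRealSubfield K)) (𝓞 K) y * α₂ * (ε : 𝓞 K) := by
    apply FaithfulSMul.algebraMap_injective (𝓞 K) K
    have hX : algebraMap (𝓞 K) K (algebraMap (𝓞 (maximalRealSubfield K)) (𝓞 K) x) =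
      (((x : 𝓞 (maximalRealSubfield K)) : maximalRealSubfield K) : K) := rfl
    have hY : algebraMap (𝓞 K) K (algebraMap (𝓞 (maximalRealSubfield K)) (𝓞 K) y) =
      (((y : 𝓞 (maximalRealSubfield K)) : maximalRealSubfield K) : K) := rfl
    rw [map_mul, map_mul, map_mul]
    rw [hX, hY, hxyK, hr]
    field_simp
  refine ClassGroup.mk0_eq_mk0_iff.2 ⟨x, y, hx0, hy0, map_inj ?_⟩
  rw [Ideal.map_mul, Ideal.map_mul, Ideal.map_span, Ideal.map_span, Set.image_singleton,
    Set.image_singleton, h1, h2, Ideal.span_singleton_mul_span_singleton,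
    Ideal.span_singleton_mul_span_singleton, Ideal.span_singleton_eq_span_singleton]
  exact Associated.symm ⟨ε, hint.symm⟩

/-- The kernel of the extension of ideal classes has at most two elements. -/
lemma card_ker :
    Nat.card (ClassGroup.extendedHom (𝓞 (maximalRealSubfield K)) (𝓞 K)).ker ≤ 2 := by
  set e := ClassGroup.extendedHom (𝓞 (maximalRealSubfield K)) (𝓞 K) with he
  have hex : ∀ x : e.ker, ∃ (I : nonZeroDivisors (Ideal (𝓞 (maximalRealSubfield K))))
      (α : 𝓞 K) (u : Units.torsion K), ClassGroup.mk0 I = (x : ClassGroup _) ∧ α ≠ 0 ∧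
      (I : Ideal (𝓞 (maximalRealSubfield K))).map
        (algebraMap (𝓞 (maximalRealSubfield K)) (𝓞 K)) = Ideal.span {α} ∧
      IsCMField.complexConj K (α : K) = ((u : (𝓞 K)ˣ) : K) * (α : K) := by
    rintro ⟨x, hx⟩
    obtain ⟨I, rfl⟩ := ClassGroup.mk0_surjective x
    rw [MonoidHom.mem_ker, he, ClassGroup.extendedHom_mk0] at hx
    have hp := (ClassGroup.mk0_eq_one_iff
      (ClassGroup.extendedIdeal (𝓞 (maximalRealSubfield K)) (𝓞 K) I).2).1 hx
    obtain ⟨α, hα⟩ := hp.principal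
    have hα' : (I : Ideal (𝓞 (maximalRealSubfield K))).map
        (algebraMap (𝓞 (maximalRealSubfield K)) (𝓞 K)) = Ideal.span {α} := hα
    have hne : α ≠ 0 := by
      rintro rfl
      have h0 := nonZeroDivisors.ne_zero
        (ClassGroup.extendedIdeal (𝓞 (maximalRealSubfield K)) (𝓞 K) I).2
      apply h0
      show (I : Ideal (𝓞 (maximalRealSubfield K))).map
        (algebraMap (𝓞 (maximalRealSubfield K)) (𝓞 K)) = 0
      rw [hα', Ideal.span_singleton_eq_bot.2 rfl]
      rfl
    obtain ⟨u, hu⟩ := exists_unit _ α hne hα'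
    exact ⟨I, α, u, rfl, hne, hα', hu⟩
  choose I α u h1 h2 h3 h4 using hex
  have hinj : Function.Injective fun x : e.ker =>
      (QuotientGroup.mk (u x) : Units.torsion K ⧸ (IsCMField.unitsMulComplexConjInv K).range) := by
    intro x y hxy
    have h5 := QuotientGroup.eq.1 hxy
    have h6 := mk0_eq (I x) (I y) (α x) (α y) (h2 x) (h2 y) (h3 x) (h3 y) (u x) (u y) (h4 x)
      (h4 y) h5
    rw [h1, h1] at h6
    exact Subtype.ext h6
  have hcard := Nat.card_le_card_of_injective _ hinj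
  exact hcard.trans (Nat.le_of_dvd (by norm_num)
    (IsCMField.index_unitsMulComplexConjInv_range_dvd K))

end XKR

open XKR in
theorem prf_KR : KR := by
  intro K _ _ _ H hH
  set e := ClassGroup.extendedHom (𝓞 (maximalRealSubfield K)) (𝓞 K) with he
  have hr : e.range ≤ H := by
    rintro _ ⟨x, rfl⟩
    obtain ⟨I, rfl⟩ := ClassGroup.mk0_surjective x
    rw [he, ClassGroup.extendedHom_mk0]
    exact hH I _ rfl
  have hk : Nat.card e.ker ≤ 2 := card_ker
  have hc1 : Nat.card e.ker * Nat.card e.range =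
      Nat.card (ClassGroup (𝓞 (maximalRealSubfield K))) := by
    rw [← Subgroup.index_ker]
    exact Subgroup.card_mul_index _
  have hc2 : H.index * Nat.card H = Nat.card (ClassGroup (𝓞 K)) := Subgroup.index_mul_card _
  have hc3 : Nat.card e.range ≤ Nat.card H := Subgroup.card_le_of_le hr
  have n1 : classNumber K = Nat.card (ClassGroup (𝓞 K)) := by
    unfold classNumber
    exact (Nat.card_eq_fintype_card).symm
  have n2 : classNumber (maximalRealSubfield K) =
      Nat.card (ClassGroup (𝓞 (maximalRealSubfield K))) := by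
    unfold classNumber
    exact (Nat.card_eq_fintype_card).symm
  rw [n1, n2, ← hc1, ← hc2]
  calc H.index * (Nat.card e.ker * Nat.card e.range)
      ≤ H.index * (2 * Nat.card H) :=
        Nat.mul_le_mul_left _ (Nat.mul_le_mul hk hc3)
    _ = 2 * (H.index * Nat.card H) := by ring

end Pool.Agent.Work.MP_59f3ad_nt.US.H
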