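import Pool.Agent.Work.MP_59f3ad_nt.US.H.Stmts

/-!
Uniform Schneider, part H, item Kp: comparison of the residues.
-/

set_option autoImplicit false

open NumberField IsDedekindDomain Filter Topology Polynomial

namespace Pool.Agent.Work.MP_59f3ad_nt.US.H

namespace XKp

theorem neg_one_ne {p : ℕ} [hp : Fact p.Prime] (h2 : p ≠ 2) : (-1 : ZMod p) ≠ 1 := by
  have : Fact (2 < p) := ⟨lt_of_le_of_ne hp.out.two_le (Ne.symm h2)⟩
  exact ZMod.neg_one_ne_one

theorem card_add {p : ℕ} [hp : Fact p.Prime] : (evenC p).card + (oddC p).card = p - 1 := by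
  classical
  have h1 : Nat.card (DirichletCharacter ℂ p) = p - 1 := by
    rw [DirichletCharacter.card_eq_totient_of_hasEnoughRootsOfUnity, Nat.totient_prime hp.out]
  rw [← h1, Nat.card_eq_fintype_card, ← Finset.card_univ]
  exact Finset.card_filter_add_card_filter_not _

theorem card_eq {p : ℕ} [hp : Fact p.Prime] (h2 : p ≠ 2) : (evenC p).card = (oddC p).card := by
  classical
  have h1 := DirichletCharacter.sum_characters_eq_zero ℂ (neg_one_ne (p := p) h2)
  rw [← Finset.sum_filter_add_sum_filter_not Finset.univ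
    (fun χ : DirichletCharacter ℂ p => χ.Even)] at h1
  have h3 : ∑ χ ∈ Finset.univ.filter (fun χ : DirichletCharacter ℂ p => χ.Even), χ (-1) =
      ((evenC p).card : ℂ) := by
    rw [Finset.sum_eq_card_nsmul (s := Finset.univ.filter
      (fun χ : DirichletCharacter ℂ p => χ.Even)) (f := fun χ => χ (-1)) (b := (1 : ℂ))
      (fun χ hχ => (Finset.mem_filter.1 hχ).2), nsmul_eq_mul, mul_one]
    unfold evenC
    congr!
  have h4 : ∑ χ ∈ Finset.univ.filter (fun χ : DirichletCharacter ℂ p => ¬ χ.Even), χ (-1) =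
      -((oddC p).card : ℂ) := by
    rw [Finset.sum_eq_card_nsmul (s := Finset.univ.filter
      (fun χ : DirichletCharacter ℂ p => ¬ χ.Even)) (f := fun χ => χ (-1)) (b := (-1 : ℂ))
      (fun χ hχ => (χ.even_or_odd.resolve_left (Finset.mem_filter.1 hχ).2)),
      nsmul_eq_mul, mul_neg_one]
    unfold oddC
    congr!
  rw [h3, h4, add_neg_eq_zero] at h1
  exact_mod_cast h1

theorem card_odd {p : ℕ} [hp : Fact p.Prime] (h2 : p ≠ 2) : (oddC p).card = (p - 1) / 2 := by
  have h1 := card_add (p := p)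
  have h3 := card_eq (p := p) h2
  omega

theorem ne_one {p : ℕ} [hp : Fact p.Prime] {χ : DirichletCharacter ℂ p} (h : χ ∈ oddC p) :
    χ ≠ 1 := by
  classical
  rintro rfl
  refine (Finset.mem_filter.1 h).2 ?_
  exact MulChar.one_apply isUnit_one.neg

theorem zK_nonneg (K : Type) [Field K] [NumberField K] (s : ℝ) : 0 ≤ zK K s :=
  tsum_nonneg fun _ => Real.rpow_nonneg (Nat.cast_nonneg _) _

end XKp

open XKp in
theorem prf_Kp : Kp := by
  intro F K _ _ _ _ p hp C Lf h2 hC hR hZ hL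
  have hlog : 0 ≤ Real.log p := Real.log_natCast_nonneg p
  have hB : 0 ≤ C * (1 + Real.log p) := mul_nonneg hC.le (by linarith)
  have key : ∀ s : ℝ, 1 < s → s ≤ 2 →
      zK K s ≤ (C * (1 + Real.log p)) ^ ((p - 1) / 2) * zK F s := by
    intro s h1 h3
    have h4 := congrArg (fun z : ℂ => ‖z‖) (hZ s h1)
    simp only [norm_mul, norm_prod, Complex.norm_real, Real.norm_eq_abs] at h4
    rw [abs_of_nonneg (zK_nonneg K s), abs_of_nonneg (zK_nonneg F s)] at h4
    rw [h4, mul_comm]
    refine mul_le_mul_of_nonneg_right ?_ (zK_nonneg F s)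
    rw [← card_odd h2, ← Finset.prod_const]
    exact Finset.prod_le_prod (fun _ _ => norm_nonneg _) fun χ hχ => hL χ (ne_one hχ) s h1 h3
  refine le_of_tendsto_of_tendsto (hR K)
    ((hR F).const_mul ((C * (1 + Real.log p)) ^ ((p - 1) / 2))) ?_
  have h5 : Set.Ioc (1 : ℝ) 2 ∈ 𝓝[>] (1 : ℝ) := Ioc_mem_nhdsGT one_lt_two
  filter_upwards [h5] with s hs
  have h6 := mul_le_mul_of_nonneg_left (key s hs.1 hs.2) (sub_nonneg.2 hs.1.le)
  calc (s - 1) * zK K s ≤ (s - 1) * ((C * (1 + Real.log p)) ^ ((p - 1) / 2) * zK F s) := h6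
    _ = (C * (1 + Real.log p)) ^ ((p - 1) / 2) * ((s - 1) * zK F s) := by ring

end Pool.Agent.Work.MP_59f3ad_nt.US.H
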