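import Pool.Agent.Work.MP_59f3ad_nt.US.H.Stmts

/-!
# Uniform Schneider, part H, item Ov: products over primes of a number field
-/

set_option autoImplicit false

open NumberField IsDedekindDomain Filter Topology Polynomial

namespace Pool.Agent.Work.MP_59f3ad_nt.US.H

namespace XOv

/-! ### the sum over natural numbers -/

theorem tele (s : ℝ) (hs : 1 < s) (m : ℕ) (hm : 1 ≤ m) :
    (((m + 1 : ℕ) : ℝ)) ^ (-s) ≤
      ((m : ℝ) ^ (1 - s) - (((m + 1 : ℕ) : ℝ)) ^ (1 - s)) / (s - 1) := by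
  have hs1 : 0 < s - 1 := by linarith
  have hm0 : (0 : ℝ) < m := by exact_mod_cast hm
  have hx : (0 : ℝ) < ((m + 1 : ℕ) : ℝ) := by positivity
  have hxm : ((m + 1 : ℕ) : ℝ) = m + 1 := by push_cast; ring
  rw [le_div_iff₀ hs1]
  have hq : (0 : ℝ) < m / (m + 1 : ℕ) := by positivity
  have hlog : Real.log ((m : ℝ) / (m + 1 : ℕ)) ≤ -(1 / ((m + 1 : ℕ) : ℝ)) := by
    refine (Real.log_le_sub_one_of_pos hq).trans (le_of_eq ?_)
    rw [hxm]
    have : (m : ℝ) + 1 ≠ 0 := by positivity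
    field_simp
    ring
  have h1 : 1 + (s - 1) * (1 / ((m + 1 : ℕ) : ℝ)) ≤ ((m : ℝ) / (m + 1 : ℕ)) ^ (1 - s) := by
    rw [Real.rpow_def_of_pos hq]
    have h2 : (s - 1) * (1 / ((m + 1 : ℕ) : ℝ)) ≤
        Real.log ((m : ℝ) / (m + 1 : ℕ)) * (1 - s) := by nlinarith
    have h3 := Real.add_one_le_exp (Real.log ((m : ℝ) / (m + 1 : ℕ)) * (1 - s))
    linarith
  have h4 : (m : ℝ) ^ (1 - s) =
      ((m : ℝ) / (m + 1 : ℕ)) ^ (1 - s) * (((m + 1 : ℕ) : ℝ)) ^ (1 - s) := by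
    rw [← Real.mul_rpow hq.le hx.le]
    congr 1
    field_simp
  have h5 : (((m + 1 : ℕ) : ℝ)) ^ (-s) =
      (((m + 1 : ℕ) : ℝ)) ^ (1 - s) * (1 / ((m + 1 : ℕ) : ℝ)) := by
    have h6 : (((m + 1 : ℕ) : ℝ)) ^ (1 - s) =
        (((m + 1 : ℕ) : ℝ)) ^ (-s) * ((m + 1 : ℕ) : ℝ) := by
      rw [← Real.rpow_add_one hx.ne']
      congr 1
      ring
    rw [h6]
    field_simp
  have h7 : 0 ≤ (((m + 1 : ℕ) : ℝ)) ^ (1 - s) := Real.rpow_nonneg hx.le _
  have h8 := mul_le_mul_of_nonneg_right h1 h7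
  rw [h5, h4]
  linarith

theorem partial_sum (s : ℝ) (hs : 1 < s) (N : ℕ) :
    ∑ i ∈ Finset.range (N + 1), (((i + 1 : ℕ) : ℝ)) ^ (-s) ≤
      s / (s - 1) - (((N + 1 : ℕ) : ℝ)) ^ (1 - s) / (s - 1) := by
  have hs1 : s - 1 ≠ 0 := by linarith
  induction N with
  | zero =>
    simp only [zero_add, Finset.range_one, Finset.sum_singleton, Nat.cast_one, Real.one_rpow]
    rw [div_sub_div_same, div_self hs1]
  | succ N ih =>
    rw [Finset.sum_range_succ]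
    have h := tele s hs (N + 1) (by omega)
    rw [sub_div] at h
    linarith

theorem sum_le (s : ℝ) (hs : 1 < s) (n : ℕ) :
    ∑ i ∈ Finset.range n, ((i : ℕ) : ℝ) ^ (-s) ≤ s / (s - 1) := by
  have hs1 : 0 < s - 1 := by linarith
  have hpos : 0 ≤ s / (s - 1) := by positivity
  rcases n with _ | _ | n
  · simpa using hpos
  · simp only [zero_add, Finset.range_one, Finset.sum_singleton, Nat.cast_zero]
    rw [Real.zero_rpow (by linarith)]
    exact hpos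
  · rw [Finset.sum_range_succ']
    have h := partial_sum s hs n
    have h0 : (0 : ℝ) ≤ (((n + 1 : ℕ) : ℝ)) ^ (1 - s) / (s - 1) :=
      div_nonneg (Real.rpow_nonneg (by positivity) _) hs1.le
    rw [Nat.cast_zero, Real.zero_rpow (by linarith), add_zero]
    linarith

/-- the function `m ↦ m ^ (-s)` -/
noncomputable def ff (s : ℝ) (_hs : 1 < s) : ℕ →* ℝ where
  toFun m := (m : ℝ) ^ (-s)
  map_one' := by simp
  map_mul' a b := by
    rw [Nat.cast_mul, Real.mul_rpow (Nat.cast_nonneg a) (Nat.cast_nonneg b)]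

theorem euler (s : ℝ) (hs : 1 < s) (Q : Finset ℕ) (hQ : ∀ q ∈ Q, q.Prime) :
    ∏ q ∈ Q, (1 - (q : ℝ) ^ (-s))⁻¹ ≤ s / (s - 1) := by
  have hnn : ∀ n : ℕ, 0 ≤ ff s hs n := fun n => Real.rpow_nonneg (Nat.cast_nonneg n) _
  have hsum : Summable (ff s hs) := summable_of_sum_range_le hnn (sum_le s hs)
  have h := EulerProduct.prod_filter_prime_geometric_eq_tsum_factoredNumbers hsum Q
  rw [Finset.filter_true_of_mem hQ] at h
  have h2 : ∏ q ∈ Q, (1 - (q : ℝ) ^ (-s))⁻¹ = ∏ q ∈ Q, (1 - ff s hs q)⁻¹ := rfl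
  rw [h2, h]
  refine (hsum.tsum_subtype_le _ (Nat.factoredNumbers Q) hnn).trans ?_
  exact Real.tsum_le_of_sum_range_le hnn (sum_le s hs)

/-! ### the primes of the number field -/

section nf

variable {K : Type} [Field K] [NumberField K]

theorem exq (v : HeightOneSpectrum (𝓞 K)) :
    ∃ q : ℕ, q.Prime ∧ q ≤ Ideal.absNorm v.asIdeal ∧ (q : 𝓞 K) ∈ v.asIdeal := by
  have h1 : ((Ideal.absNorm v.asIdeal : ℕ) : 𝓞 K) ∈ v.asIdeal := Ideal.absNorm_mem _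
  have h2 : 1 < Ideal.absNorm v.asIdeal := NumberField.HeightOneSpectrum.one_lt_absNorm v
  have key : ∀ m : ℕ, 0 < m → ((m : ℕ) : 𝓞 K) ∈ v.asIdeal →
      ∃ q : ℕ, q.Prime ∧ q ≤ m ∧ (q : 𝓞 K) ∈ v.asIdeal := by
    intro m
    induction m using Nat.strong_induction_on with
    | _ m ih =>
      intro hm hmem
      have hm1 : m ≠ 1 := by
        rintro rfl
        rw [Nat.cast_one] at hmem
        exact v.isPrime.ne_top ((Ideal.eq_top_iff_one _).2 hmem)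
      obtain ⟨q, hq, k, rfl⟩ := Nat.exists_prime_and_dvd hm1
      have hk : 0 < k := Nat.pos_of_mul_pos_left hm
      rw [Nat.cast_mul] at hmem
      rcases v.isPrime.mem_or_mem hmem with h | h
      · exact ⟨q, hq, Nat.le_mul_of_pos_right q hk, h⟩
      · have hlt : k < q * k := by nlinarith [hq.two_le]
        obtain ⟨q', h1, h2, h3⟩ := ih k hlt hk h
        exact ⟨q', h1, h2.trans hlt.le, h3⟩
  exact key _ (by omega) h1

/-- a rational prime in `v` -/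
noncomputable def qf (v : HeightOneSpectrum (𝓞 K)) : ℕ := (exq v).choose

theorem qf_prime (v : HeightOneSpectrum (𝓞 K)) : (qf v).Prime := (exq v).choose_spec.1

theorem qf_le (v : HeightOneSpectrum (𝓞 K)) : qf v ≤ Ideal.absNorm v.asIdeal :=
  (exq v).choose_spec.2.1

theorem qf_mem (v : HeightOneSpectrum (𝓞 K)) : (qf v : 𝓞 K) ∈ v.asIdeal :=
  (exq v).choose_spec.2.2

theorem card_le (P : Finset (HeightOneSpectrum (𝓞 K))) (q : ℕ) (hq : q.Prime)
    (h : ∀ v ∈ P, q ≤ Ideal.absNorm v.asIdeal ∧ (q : 𝓞 K) ∈ v.asIdeal) :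
    P.card ≤ Module.finrank ℚ K := by
  classical
  have hinj : Set.InjOn (fun v : HeightOneSpectrum (𝓞 K) => v.asIdeal) (P : Set _) :=
    fun v _ w _ hvw => HeightOneSpectrum.ext hvw
  have hdvd : ∏ I ∈ P.image (fun v => v.asIdeal), I ∣ Ideal.span {(q : 𝓞 K)} := by
    refine Finset.prod_primes_dvd _ ?_ ?_
    · intro I hI
      obtain ⟨v, _, rfl⟩ := Finset.mem_image.1 hI
      exact v.prime
    · intro I hI
      obtain ⟨v, hv, rfl⟩ := Finset.mem_image.1 hI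
      rw [Ideal.dvd_span_singleton]
      exact (h v hv).2
  rw [Finset.prod_image hinj] at hdvd
  have h1 := map_dvd Ideal.absNorm hdvd
  rw [map_prod, Ideal.absNorm_span_natCast, RingOfIntegers.rank] at h1
  have h2 := Nat.le_of_dvd (pow_pos hq.pos _) h1
  have h3 : q ^ P.card ≤ ∏ v ∈ P, Ideal.absNorm v.asIdeal := by
    rw [← Finset.prod_const]
    exact Finset.prod_le_prod' fun v hv => (h v hv).1
  exact (Nat.pow_le_pow_iff_right hq.one_lt).1 (h3.trans h2)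

end nf

theorem fac_le (s : ℝ) (hs : 1 < s) (a b : ℕ) (ha : 2 ≤ a) (hab : a ≤ b) :
    0 < (1 - (b : ℝ) ^ (-s))⁻¹ ∧ 1 ≤ (1 - (a : ℝ) ^ (-s))⁻¹ ∧
      (1 - (b : ℝ) ^ (-s))⁻¹ ≤ (1 - (a : ℝ) ^ (-s))⁻¹ := by
  have ha0 : (0 : ℝ) < a := by exact_mod_cast (by omega : 0 < a)
  have ha1 : (1 : ℝ) < a := by exact_mod_cast (by omega : 1 < a)
  have hab' : (a : ℝ) ≤ b := by exact_mod_cast hab
  have hb1 : (1 : ℝ) < b := lt_of_lt_of_le ha1 hab'
  have h1 : (a : ℝ) ^ (-s) < 1 := Real.rpow_lt_one_of_one_lt_of_neg ha1 (by linarith)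
  have h2 : (b : ℝ) ^ (-s) ≤ (a : ℝ) ^ (-s) :=
    Real.rpow_le_rpow_of_nonpos ha0 hab' (by linarith)
  have h3 : 0 ≤ (a : ℝ) ^ (-s) := Real.rpow_nonneg ha0.le _
  refine ⟨inv_pos.2 (by linarith), (one_le_inv₀ (by linarith)).2 (by linarith), ?_⟩
  exact inv_anti₀ (by linarith) (by linarith)

end XOv

theorem prf_Ov : Ov := by
  classical
  intro K _ _ s hs P
  have h1 : ∏ v ∈ P, (1 - (Ideal.absNorm v.asIdeal : ℝ) ^ (-s))⁻¹ ≤
      ∏ v ∈ P, (1 - (XOv.qf v : ℝ) ^ (-s))⁻¹ := by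
    refine Finset.prod_le_prod (fun v _ => ?_) (fun v _ => ?_)
    · exact (XOv.fac_le s hs _ _ (XOv.qf_prime v).two_le (XOv.qf_le v)).1.le
    · exact (XOv.fac_le s hs _ _ (XOv.qf_prime v).two_le (XOv.qf_le v)).2.2
  have h2 : ∏ v ∈ P, (1 - (XOv.qf v : ℝ) ^ (-s))⁻¹ =
      ∏ q ∈ P.image XOv.qf, (1 - (q : ℝ) ^ (-s))⁻¹ ^ (P.filter fun v => XOv.qf v = q).card :=
    Finset.prod_comp (fun q : ℕ => (1 - (q : ℝ) ^ (-s))⁻¹) XOv.qf
  have hQ : ∀ q ∈ P.image XOv.qf, q.Prime := by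
    intro q hq
    obtain ⟨v, _, rfl⟩ := Finset.mem_image.1 hq
    exact XOv.qf_prime v
  have h3 : ∏ q ∈ P.image XOv.qf,
      (1 - (q : ℝ) ^ (-s))⁻¹ ^ (P.filter fun v => XOv.qf v = q).card ≤
      ∏ q ∈ P.image XOv.qf, (1 - (q : ℝ) ^ (-s))⁻¹ ^ Module.finrank ℚ K := by
    refine Finset.prod_le_prod (fun q hq => ?_) (fun q hq => ?_)
    · exact pow_nonneg (XOv.fac_le s hs q q (hQ q hq).two_le le_rfl).1.le _
    · refine pow_le_pow_right₀ (XOv.fac_le s hs q q (hQ q hq).two_le le_rfl).2.1 ?_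
      refine XOv.card_le _ q (hQ q hq) fun v hv => ?_
      have hv' := (Finset.mem_filter.1 hv).2
      rw [← hv']
      exact ⟨XOv.qf_le v, XOv.qf_mem v⟩
  rw [Finset.prod_pow] at h3
  have h4 := XOv.euler s hs _ hQ
  have h5 : (0 : ℝ) ≤ ∏ q ∈ P.image XOv.qf, (1 - (q : ℝ) ^ (-s))⁻¹ :=
    Finset.prod_nonneg fun q hq => (XOv.fac_le s hs q q (hQ q hq).two_le le_rfl).1.le
  rw [h2] at h1
  exact h1.trans (h3.trans (pow_le_pow_left₀ h5 h4 _))

end Pool.Agent.Work.MP_59f3ad_nt.US.H
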