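import Pool.Agent.Work.MP_59f3ad_nt.US.H.Stmts

/-!
# Item RL: `L(μ_p)` is a CM field if `L` is totally real
-/

set_option autoImplicit false

open NumberField IsDedekindDomain Filter Topology Polynomial

namespace Pool.Agent.Work.MP_59f3ad_nt.US.H

namespace XRL

/-- A root of unity of odd prime order is not real at any embedding. -/
theorem not_real {K : Type} [Field K] {ζ : K} {p : ℕ} (hp : p.Prime) (hp2 : p ≠ 2)
    (hζ : IsPrimitiveRoot ζ p) (φ : K →+* ℂ) : star (φ ζ) ≠ φ ζ := by
  intro h
  have hφ : IsPrimitiveRoot (φ ζ) p := hζ.map_of_injective φ.injective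
  have hn : ‖φ ζ‖ = 1 := hφ.norm'_eq_one hp.ne_zero
  have h1 : φ ζ * star (φ ζ) = 1 := by
    have := Complex.mul_conj (φ ζ)
    rw [Complex.star_def, this, Complex.normSq_eq_norm_sq, hn]
    simp
  rw [h] at h1
  have h2 : (φ ζ) ^ 2 = 1 := by rw [sq]; exact h1
  have h3 : p ∣ 2 := hφ.dvd_of_pow_eq_one 2 h2
  exact hp2 ((Nat.prime_dvd_prime_iff_eq hp Nat.prime_two).mp h3)

/-- The sum of a root of unity and its inverse is real at every embedding. -/
theorem sum_mem {K : Type} [Field K] {ζ : K} {p : ℕ} (hp : p ≠ 0)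
    (hζ : IsPrimitiveRoot ζ p) : ζ + ζ⁻¹ ∈ maximalRealSubfield K := by
  intro φ
  have hφ : IsPrimitiveRoot (φ ζ) p := hζ.map_of_injective φ.injective
  have hn : ‖φ ζ‖ = 1 := hφ.norm'_eq_one hp
  have h1 : star (φ ζ) = (φ ζ)⁻¹ := by
    rw [Complex.star_def, Complex.inv_def, Complex.normSq_eq_norm_sq, hn]
    simp
  rw [map_add, map_inv₀, star_add, star_inv₀, h1, inv_inv, add_comm]

theorem base_mem {L K : Type} [Field L] [Field K] [Algebra L K] [IsTotallyReal L] (x : L) :
    algebraMap L K x ∈ maximalRealSubfield K := by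
  intro φ
  have h := IsTotallyReal.complexEmbedding_isReal (φ.comp (algebraMap L K))
  have h2 := RingHom.congr_fun (ComplexEmbedding.isReal_iff.mp h) x
  rw [ComplexEmbedding.conjugate_coe_eq] at h2
  exact h2

theorem finrank_two {L K : Type} [Field L] [NumberField L] [Field K] [NumberField K] [Algebra L K]
    (p : ℕ) [Fact p.Prime] (hp2 : p ≠ 2) (hc : IsCyclotomicExtension {p} L K)
    (hL : IsTotallyReal L) {ζ : K} (hζ : IsPrimitiveRoot ζ p) :
    Module.finrank (maximalRealSubfield K) K = 2 := by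
  have hp : p.Prime := Fact.out
  have : NeZero p := ⟨hp.ne_zero⟩
  have hζ0 : ζ ≠ 0 := hζ.ne_zero hp.ne_zero
  set F := maximalRealSubfield K with hF
  -- `ζ` generates `K` over `F`
  have htop : IntermediateField.adjoin F ({ζ} : Set K) = ⊤ := by
    rw [eq_top_iff]
    have h1 := IsCyclotomicExtension.adjoin_primitive_root_eq_top (A := L) (B := K) hζ
    intro x _
    have hx : x ∈ Algebra.adjoin L ({ζ} : Set K) := by rw [h1]; trivial
    refine Algebra.adjoin_induction (s := ({ζ} : Set K)) (p := fun y _ =>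
      y ∈ IntermediateField.adjoin F ({ζ} : Set K)) ?_ ?_ ?_ ?_ hx
    · intro y hy
      exact IntermediateField.subset_adjoin F _ hy
    · intro r
      exact (IntermediateField.adjoin F ({ζ} : Set K)).algebraMap_mem (⟨algebraMap L K r,
        base_mem r⟩ : F)
    · intro a b _ _ ha hb
      exact add_mem ha hb
    · intro a b _ _ ha hb
      exact mul_mem ha hb
  have hint : IsIntegral F ζ := Algebra.IsIntegral.isIntegral ζ
  have hdeg : Module.finrank F K = (minpoly F ζ).natDegree := by
    rw [← IntermediateField.adjoin.finrank hint, htop, IntermediateField.finrank_top']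
  rw [hdeg]
  let a : F := ⟨ζ + ζ⁻¹, sum_mem hp.ne_zero hζ⟩
  let g : F[X] := X ^ 2 - C a * X + 1
  have hg : aeval ζ g = 0 := by
    simp only [g, map_add, map_sub, map_mul, map_pow, aeval_X, aeval_C, map_one]
    have : algebraMap F K a = ζ + ζ⁻¹ := rfl
    rw [this]
    field_simp
    ring
  have hgd : g.natDegree = 2 := by
    simp only [g]
    compute_degree!
  have hg0 : g ≠ 0 := by
    intro h0
    rw [h0] at hgd
    simp at hgd
  have hle : (minpoly F ζ).natDegree ≤ 2 := by
    rw [← hgd]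
    exact natDegree_le_of_dvd (minpoly.dvd F ζ hg) hg0
  have hpos : 0 < (minpoly F ζ).natDegree := minpoly.natDegree_pos hint
  have hne : (minpoly F ζ).natDegree ≠ 1 := by
    intro h1
    have h2 : ζ ∈ (algebraMap F K).range := minpoly.natDegree_eq_one_iff.mp h1
    obtain ⟨y, hy⟩ := h2
    have h3 : ζ ∈ maximalRealSubfield K := by
      rw [← hy]
      exact y.2
    obtain ⟨φ⟩ : Nonempty (K →+* ℂ) := inferInstance
    exact not_real hp hp2 hζ φ (h3 φ)
  omega

end XRL

/-- Item RL. -/
theorem prf_RL : RL := by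
  intro L K _ _ _ _ _ p _ hp2 hc hL
  have hp : p.Prime := Fact.out
  have : NeZero p := ⟨hp.ne_zero⟩
  obtain ⟨ζ, hζ⟩ := IsCyclotomicExtension.exists_isPrimitiveRoot L K
    (Set.mem_singleton p) hp.ne_zero
  refine ⟨?_, fun x => XRL.base_mem x, ζ, hζ, XRL.sum_mem hp.ne_zero hζ⟩
  have hTC : IsTotallyComplex K := by
    refine ⟨fun v => ?_⟩
    rw [InfinitePlace.isComplex_iff]
    intro hreal
    have h2 := RingHom.congr_fun (ComplexEmbedding.isReal_iff.mp hreal) ζ
    rw [ComplexEmbedding.conjugate_coe_eq] at h2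
    exact XRL.not_real hp hp2 hζ _ h2
  have : Algebra.IsQuadraticExtension (maximalRealSubfield K) K :=
    { finrank_eq_two' := XRL.finrank_two p hp2 hc hL hζ }
  exact {}

end Pool.Agent.Work.MP_59f3ad_nt.US.H
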