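import Pool.Agent.Work.MP_59f3ad_nt.US.H.Stmts

/-!
# Uniform Schneider, part H: item Rm (the primes above `p`)
-/

set_option autoImplicit false

open NumberField IsDedekindDomain

namespace Pool.Agent.Work.MP_59f3ad_nt.US.H

namespace XRm

/-- `p` is not in the square of `q`. -/
theorem not_mem_sq (L : Type) [Field L] [NumberField L] (p : ℕ) [hp : Fact p.Prime]
    (hd : ¬ (p : ℤ) ∣ discr L) (q : HeightOneSpectrum (𝓞 L)) (hq : (p : 𝓞 L) ∈ q.asIdeal) :
    (p : 𝓞 L) ∉ q.asIdeal ^ 2 := by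
  intro hm
  have hpp : Prime (p : ℤ) := Nat.prime_iff_prime_int.mp hp.out
  have hqp : q.asIdeal.IsPrime := q.isPrime
  have hun : Algebra.IsUnramifiedAt ℤ q.asIdeal :=
    (NumberField.not_dvd_discr_iff_forall_mem L (𝓞 L) hpp).1 hd q.asIdeal hqp (by simpa using hq)
  have h1 : q.asIdeal.ramificationIdx ℤ = 1 := Ideal.ramificationIdx_eq_one q.asIdeal ℤ
  have hlo : q.asIdeal.LiesOver (Ideal.span {(p : ℤ)}) :=
    (Ideal.liesOver_span_iff hqp.ne_top hpp).2 (by simpa using hq)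
  have h2 : (Ideal.span {(p : ℤ)}).ramificationIdx' q.asIdeal = 1 := by
    rw [Ideal.ramificationIdx'_eq_ramificationIdx _ _ (by simpa using hpp.ne_zero), h1]
  have hle : (Ideal.span {(p : ℤ)}).map (algebraMap ℤ (𝓞 L)) ≤ q.asIdeal := by
    rw [Ideal.map_span, Ideal.span_le]
    simpa using hq
  have h3 : (Ideal.span {(p : ℤ)}).map (algebraMap ℤ (𝓞 L)) ≤ q.asIdeal ^ 2 := by
    rw [Ideal.map_span, Ideal.span_le]
    simpa using hm
  exact (Ideal.ramificationIdx'_ne_one_iff hle).2 h3 h2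

/-- The key statement: one prime of `K` above `q`. -/
theorem key (L K : Type) [Field L] [NumberField L] [Field K] [NumberField K] [Algebra L K]
    (p : ℕ) [hp : Fact p.Prime] (hc : IsCyclotomicExtension {p} L K)
    (hf : Module.finrank L K = p - 1) (hd : ¬ (p : ℤ) ∣ discr L) (q : HeightOneSpectrum (𝓞 L))
    (hq : (p : 𝓞 L) ∈ q.asIdeal) (v : Ideal (𝓞 K)) (hv : v.IsPrime) (hv0 : v ≠ ⊥)
    (hvq : v.under (𝓞 L) = q.asIdeal) :
    q.asIdeal.map (algebraMap (𝓞 L) (𝓞 K)) = v ^ (p - 1) ∧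
      Ideal.absNorm v = Ideal.absNorm q.asIdeal := by
  have hp1 : 0 < p - 1 := by have := hp.out.two_le; omega
  have hvP : Prime v := Ideal.prime_of_isPrime hv0 hv
  have hqp : q.asIdeal.IsPrime := q.isPrime
  have hlo : v.LiesOver q.asIdeal := ⟨hvq.symm⟩
  -- a primitive root of unity
  have hz := IsCyclotomicExtension.zeta_spec p L K
  obtain ⟨ζ, hζ⟩ : ∃ ζ : 𝓞 K, IsPrimitiveRoot ζ p := ⟨hz.toInteger, hz.toInteger_isPrimitiveRoot⟩
  obtain ⟨z, -, hzz⟩ := hζ.self_sub_one_pow_dvd_order (k := p - 1) (by omega)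
  have hpv : (p : 𝓞 K) ∈ v := by
    have h1 : (p : 𝓞 L) ∈ v.under (𝓞 L) := by rw [hvq]; exact hq
    rw [Ideal.under_def, Ideal.mem_comap] at h1
    simpa using h1
  have hζv : ζ - 1 ∈ v := by
    rw [← Ideal.Quotient.eq_zero_iff_mem]
    have hchar : CharP (𝓞 K ⧸ v) p := by
      have h2 : ((p : ℕ) : 𝓞 K ⧸ v) = 0 := by
        have := (Ideal.Quotient.eq_zero_iff_mem (I := v)).2 hpv
        simpa using this
      exact (CharP.charP_iff_prime_eq_zero hp.out).2 h2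
    have hdom : IsDomain (𝓞 K ⧸ v) := Ideal.Quotient.isDomain v
    have h3 : (Ideal.Quotient.mk v (ζ - 1)) ^ p = 0 := by
      rw [map_sub, map_one, sub_pow_char, one_pow, ← map_pow, hζ.pow_eq_one, map_one, sub_self]
    exact pow_eq_zero_iff hp.out.ne_zero |>.1 h3
  have hvd : v ^ (p - 1) ∣ Ideal.span {(p : 𝓞 K)} := by
    have h1 : Ideal.span {(p : 𝓞 K)} = Ideal.span {z} * Ideal.span {ζ - 1} ^ (p - 1) := by
      rw [hzz, Ideal.span_singleton_pow, Ideal.span_singleton_mul_span_singleton]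
    rw [h1]
    exact Dvd.dvd.mul_left (pow_dvd_pow_of_dvd (Ideal.dvd_span_singleton.2 hζv) _) _
  -- factorisation of `p` in `L`
  obtain ⟨a, ha⟩ : q.asIdeal ∣ Ideal.span {(p : 𝓞 L)} := Ideal.dvd_span_singleton.2 hq
  have haq : ¬ a ≤ q.asIdeal := by
    intro h
    apply not_mem_sq L p hd q hq
    rw [← Ideal.dvd_span_singleton, ha, pow_two]
    exact mul_dvd_mul_left _ (Ideal.dvd_iff_le.2 h)
  have hmap : Ideal.span {(p : 𝓞 K)} = q.asIdeal.map (algebraMap (𝓞 L) (𝓞 K)) *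
      a.map (algebraMap (𝓞 L) (𝓞 K)) := by
    rw [← Ideal.map_mul, ← ha, Ideal.map_span]
    simp
  have hav : ¬ v ∣ a.map (algebraMap (𝓞 L) (𝓞 K)) := by
    intro h
    apply haq
    rw [Ideal.dvd_iff_le, Ideal.map_le_iff_le_comap] at h
    rw [← hvq]
    exact h
  rw [hmap] at hvd
  obtain ⟨J, hJ⟩ := hvP.pow_dvd_of_dvd_mul_right (p - 1) hav hvd
  -- norms
  have hN : Ideal.absNorm (q.asIdeal.map (algebraMap (𝓞 L) (𝓞 K))) =
      Ideal.absNorm q.asIdeal ^ (p - 1) := by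
    rw [Ideal.absNorm_algebraMap, ← hf]
    congr 1
    exact (IsFractionRing.finrank_eq (𝓞 L) L (𝓞 K) K).symm
  have hNv : Ideal.absNorm v = Ideal.absNorm q.asIdeal ^ (q.asIdeal.inertiaDeg' v) :=
    Ideal.absNorm_eq_pow_inertiaDeg'_of_liesOver v q.asIdeal hqp q.ne_bot
  have hqm : q.asIdeal.IsMaximal := q.isMaximal
  have hfp : 0 < q.asIdeal.inertiaDeg' v := Ideal.inertiaDeg'_pos _ _
  have hNq0 : 0 < Ideal.absNorm q.asIdeal :=
    Nat.pos_of_ne_zero fun h => q.ne_bot (Ideal.absNorm_eq_zero_iff.1 h)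
  have hle : Ideal.absNorm q.asIdeal ≤ Ideal.absNorm v := by
    rw [hNv]
    exact Nat.le_self_pow hfp.ne' _
  rw [hJ, map_mul, map_pow] at hN
  have hJ0 : 0 < Ideal.absNorm J := by
    refine Nat.pos_of_ne_zero fun h => ?_
    rw [h, mul_zero] at hN
    exact (pow_pos hNq0 _).ne hN
  have hle2 : Ideal.absNorm v ^ (p - 1) ≤ Ideal.absNorm q.asIdeal ^ (p - 1) := by
    rw [← hN]
    exact Nat.le_mul_of_pos_right _ hJ0
  have heq : Ideal.absNorm v = Ideal.absNorm q.asIdeal :=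
    le_antisymm ((Nat.pow_le_pow_iff_left hp1.ne').1 hle2) hle
  refine ⟨?_, heq⟩
  rw [heq] at hN
  have hJ1 : Ideal.absNorm J = 1 :=
    Nat.eq_of_mul_eq_mul_left (pow_pos hNq0 (p - 1)) (by rw [hN, mul_one])
  rw [hJ, Ideal.absNorm_eq_one_iff.1 hJ1, Ideal.mul_top]

end XRm

open XRm in
/-- Item Rm. -/
theorem prf_Rm : Rm := by
  intro L E K _ _ _ _ _ _ _ _ _ _ p hp hp2 hc hf hd q hq
  have hqm : q.asIdeal.IsMaximal := q.isMaximal
  -- every prime of `E` above `q` has a prime of `K` above it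
  have hup : ∀ w ∈ above L E q, ∃ v : Ideal (𝓞 K), v.IsPrime ∧ v ≠ ⊥ ∧
      v.under (𝓞 E) = w.asIdeal ∧ v.under (𝓞 L) = q.asIdeal := by
    intro w hw
    have hwm : w.asIdeal.IsMaximal := w.isMaximal
    obtain ⟨v, hvm, hvl⟩ :=
      Ideal.exists_maximal_ideal_liesOver_of_isIntegral (S := 𝓞 K) w.asIdeal
    have h1 : v.under (𝓞 E) = w.asIdeal := hvl.over.symm
    refine ⟨v, hvm.isPrime, Ideal.ne_bot_of_liesOver_of_ne_bot w.ne_bot v, h1, ?_⟩
    rw [← Ideal.under_under (B := 𝓞 E) v, h1]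
    exact hw
  have huniq : ∀ w ∈ above L E q, ∀ w' ∈ above L E q, w = w' := by
    intro w hw w' hw'
    obtain ⟨v, hv1, hv2, hv3, hv4⟩ := hup w hw
    obtain ⟨v', hv1', hv2', hv3', hv4'⟩ := hup w' hw'
    have h1 := (key L K p hc hf hd q hq v hv1 hv2 hv4).1
    have h2 := (key L K p hc hf hd q hq v' hv1' hv2' hv4').1
    rw [h1] at h2
    have hp1 : p - 1 ≠ 0 := by have := hp.out.two_le; omega
    have h3 : v ∣ v' := (Ideal.prime_of_isPrime hv2 hv1).dvd_of_dvd_pow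
      (h2 ▸ dvd_pow_self v hp1)
    have h4 : v' ∣ v := (Ideal.prime_of_isPrime hv2' hv1').dvd_of_dvd_pow
      (h2 ▸ dvd_pow_self v' hp1)
    have h5 : v = v' := dvd_antisymm h3 h4
    apply HeightOneSpectrum.ext
    rw [← hv3, ← hv3', h5]
  have hex : ∃ w, w ∈ above L E q := by
    obtain ⟨w, hwm, hwl⟩ :=
      Ideal.exists_maximal_ideal_liesOver_of_isIntegral (S := 𝓞 E) q.asIdeal
    exact ⟨⟨w, hwm.isPrime, Ideal.ne_bot_of_liesOver_of_ne_bot q.ne_bot w⟩, hwl.over.symm⟩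
  constructor
  · obtain ⟨w, hw⟩ := hex
    rw [Set.ncard_eq_one]
    exact ⟨w, Set.eq_singleton_iff_unique_mem.2 ⟨hw, fun w' hw' => huniq w' hw' w hw⟩⟩
  · intro w hw
    obtain ⟨v, hv1, hv2, hv3, hv4⟩ := hup w hw
    have h1 := (key L K p hc hf hd q hq v hv1 hv2 hv4).2
    have hwm : w.asIdeal.IsMaximal := w.isMaximal
    have hl1 : v.LiesOver w.asIdeal := ⟨hv3.symm⟩
    have hl2 : w.asIdeal.LiesOver q.asIdeal := ⟨hw.symm⟩
    have hN1 : Ideal.absNorm v = Ideal.absNorm w.asIdeal ^ (w.asIdeal.inertiaDeg' v) :=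
      Ideal.absNorm_eq_pow_inertiaDeg'_of_liesOver v w.asIdeal w.isPrime w.ne_bot
    have hN2 : Ideal.absNorm w.asIdeal =
        Ideal.absNorm q.asIdeal ^ (q.asIdeal.inertiaDeg' w.asIdeal) :=
      Ideal.absNorm_eq_pow_inertiaDeg'_of_liesOver w.asIdeal q.asIdeal q.isPrime q.ne_bot
    have hf1 : 0 < w.asIdeal.inertiaDeg' v := Ideal.inertiaDeg'_pos _ _
    have hf2 : 0 < q.asIdeal.inertiaDeg' w.asIdeal := Ideal.inertiaDeg'_pos _ _
    have hle1 : Ideal.absNorm w.asIdeal ≤ Ideal.absNorm v := by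
      rw [hN1]
      exact Nat.le_self_pow hf1.ne' _
    have hle2 : Ideal.absNorm q.asIdeal ≤ Ideal.absNorm w.asIdeal := by
      rw [hN2]
      exact Nat.le_self_pow hf2.ne' _
    exact le_antisymm (h1 ▸ hle1) hle2

end Pool.Agent.Work.MP_59f3ad_nt.US.H
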