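import Pool.Agent.Work.MP_59f3ad_nt.US.H.Stmts

/-!
# Uniform Schneider, part H: item Rs (the residue)
-/

set_option autoImplicit false

open NumberField IsDedekindDomain Filter Topology Polynomial

namespace Pool.Agent.Work.MP_59f3ad_nt.US.H

namespace XRs

/-- the norm of a nonzero ideal -/
noncomputable def nrm (K : Type) [Field K] [NumberField K] (I : {I : Ideal (𝓞 K) // I ≠ ⊥}) : ℕ :=
  Ideal.absNorm I.1

theorem fin (K : Type) [Field K] [NumberField K] (n : ℕ) :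
    Finite {I : {I : Ideal (𝓞 K) // I ≠ ⊥} // nrm K I = n} := by
  have h : Finite {I : Ideal (𝓞 K) // Ideal.absNorm I = n} :=
    (Ideal.finite_setOfPred_absNorm_eq (S := 𝓞 K) n).to_subtype
  refine Finite.of_injective
    (fun I : {I : {I : Ideal (𝓞 K) // I ≠ ⊥} // nrm K I = n} =>
      (⟨I.1.1, I.2⟩ : {I : Ideal (𝓞 K) // Ideal.absNorm I = n})) ?_
  intro I J h
  have := congrArg Subtype.val h
  exact Subtype.ext (Subtype.ext this)

theorem card (K : Type) [Field K] [NumberField K] (n : ℕ) (hn : n ≠ 0) :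
    Nat.card {I : {I : Ideal (𝓞 K) // I ≠ ⊥} // nrm K I = n} =
      Nat.card {I : Ideal (𝓞 K) // Ideal.absNorm I = n} := by
  refine Nat.card_congr (Equiv.subtypeSubtypeEquivSubtype
    (p := fun I : Ideal (𝓞 K) => I ≠ ⊥) (q := fun I => Ideal.absNorm I = n) ?_)
  intro I hI hb
  apply hn
  rw [← hI, hb, Ideal.absNorm_bot]

theorem hs (K : Type) [Field K] [NumberField K] (s : ℝ)
    (h : Summable (fun I : {I : Ideal (𝓞 K) // I ≠ ⊥} => (Ideal.absNorm I.1 : ℝ) ^ (-s))) :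
    HasSum (fun n : ℕ => (Nat.card {I : {I : Ideal (𝓞 K) // I ≠ ⊥} // nrm K I = n} : ℝ) *
      (n : ℝ) ^ (-s)) (zK K s) := by
  have h1 : HasSum (fun I : {I : Ideal (𝓞 K) // I ≠ ⊥} => (Ideal.absNorm I.1 : ℝ) ^ (-s))
      (zK K s) := h.hasSum
  have h2 := ((Equiv.sigmaFiberEquiv (nrm K)).hasSum_iff).2 h1
  refine h2.sigma (fun n => ?_)
  have := fin K n
  have := Fintype.ofFinite {I : {I : Ideal (𝓞 K) // I ≠ ⊥} // nrm K I = n}
  have h3 := hasSum_fintype (fun c : {I : {I : Ideal (𝓞 K) // I ≠ ⊥} // nrm K I = n} =>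
    ((fun I : {I : Ideal (𝓞 K) // I ≠ ⊥} => (Ideal.absNorm I.1 : ℝ) ^ (-s)) ∘
      (Equiv.sigmaFiberEquiv (nrm K))) ⟨n, c⟩)
  have h4 : ∀ c : {I : {I : Ideal (𝓞 K) // I ≠ ⊥} // nrm K I = n},
      ((fun I : {I : Ideal (𝓞 K) // I ≠ ⊥} => (Ideal.absNorm I.1 : ℝ) ^ (-s)) ∘
      (Equiv.sigmaFiberEquiv (nrm K))) ⟨n, c⟩ = (n : ℝ) ^ (-s) := by
    intro c
    show ((Ideal.absNorm c.1.1 : ℕ) : ℝ) ^ (-s) = (n : ℝ) ^ (-s)
    have : Ideal.absNorm c.1.1 = n := c.2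
    rw [this]
  rw [Finset.sum_congr rfl (fun c _ => h4 c), Finset.sum_const, Finset.card_univ,
    nsmul_eq_mul, ← Nat.card_eq_fintype_card] at h3
  exact h3

theorem eq (K : Type) [Field K] [NumberField K] (s : ℝ) (hs1 : 1 < s)
    (h : Summable (fun I : {I : Ideal (𝓞 K) // I ≠ ⊥} => (Ideal.absNorm I.1 : ℝ) ^ (-s))) :
    dedekindZeta K (s : ℂ) = ((zK K s : ℝ) : ℂ) := by
  have h1 := hs K s h
  have h2 : HasSum (fun n : ℕ => ((((Nat.card {I : {I : Ideal (𝓞 K) // I ≠ ⊥} // nrm K I = n} : ℝ) *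
      (n : ℝ) ^ (-s)) : ℝ) : ℂ)) ((zK K s : ℝ) : ℂ) := Complex.hasSum_ofReal.2 h1
  unfold dedekindZeta LSeries
  rw [← h2.tsum_eq]
  refine tsum_congr fun n => ?_
  rcases Nat.eq_zero_or_pos n with rfl | hn
  · rw [LSeries.term_zero, Nat.cast_zero, Real.zero_rpow (by linarith), mul_zero,
      Complex.ofReal_zero]
  · rw [LSeries.term_of_ne_zero hn.ne', card K n hn.ne', Complex.ofReal_mul,
      Complex.ofReal_cpow (Nat.cast_nonneg n)]
    push_cast
    rw [Complex.cpow_neg]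
    rfl

end XRs

open XRs in
/-- Item Rs. -/
theorem prf_Rs : Rs := by
  intro hSm K _ _
  have h1 := NumberField.tendsto_sub_one_mul_dedekindZeta_nhdsGT K
  have h2 := (Complex.continuous_re.tendsto _).comp h1
  rw [Complex.ofReal_re] at h2
  refine h2.congr' ?_
  filter_upwards [self_mem_nhdsWithin] with s hs1
  have hs2 : 1 < s := hs1
  show (((s : ℂ) - 1) * dedekindZeta K (s : ℂ)).re = (s - 1) * zK K s
  rw [XRs.eq K s hs2 (hSm K s hs2)]
  have : ((s : ℂ) - 1) * ((zK K s : ℝ) : ℂ) = (((s - 1) * zK K s : ℝ) : ℂ) := by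
    push_cast
    ring
  rw [this, Complex.ofReal_re]

end Pool.Agent.Work.MP_59f3ad_nt.US.H
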