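import Pool.Agent.Work.MP_59f3ad_nt.US.H.Stmts

/-!
# Uniform Schneider, part H, item Sm: summability of the zeta series
-/

set_option autoImplicit false

open NumberField IsDedekindDomain Filter Topology Polynomial

namespace Pool.Agent.Work.MP_59f3ad_nt.US.H

/-- Item Sm. -/
theorem prf_Sm : Sm := by
  intro hE hO K _ _ s hs
  classical
  refine summable_of_sum_le (c := (s / (s - 1)) ^ Module.finrank ℚ K)
    (fun I => Real.rpow_nonneg (Nat.cast_nonneg _) _) fun u => ?_
  have h1 := hE K s hs (u.image Subtype.val)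
    (u.biUnion fun I => (Ideal.finite_factors (I := I.1) I.2).toFinset) (by
      intro I hI
      obtain ⟨J, -, rfl⟩ := Finset.mem_image.1 hI
      exact J.2) (by
      intro I hI v hv
      obtain ⟨J, hJ, rfl⟩ := Finset.mem_image.1 hI
      refine Finset.mem_biUnion.2 ⟨J, hJ, ?_⟩
      rw [Set.Finite.mem_toFinset]
      exact hv)
  rw [Finset.sum_image (fun a _ b _ h => Subtype.ext h)] at h1
  exact h1.trans (hO K s hs _)

end Pool.Agent.Work.MP_59f3ad_nt.US.H
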