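import Pool.Agent.Work.MP_59f3ad_nt.US.H.Stmts

/-!
# Uniform Schneider, part H, item Sp1: splitting in `L(μ_p)` of the primes not above `p`
-/

set_option autoImplicit false

open NumberField IsDedekindDomain Filter Topology Polynomial

namespace Pool.Agent.Work.MP_59f3ad_nt.US.H

namespace ISp1

/-- The numbers `p` and `N` are coprime. -/
lemma bez {p N : ℕ} [Fact p.Prime] (a : (ZMod p)ˣ) (ha : (a : ZMod p) = (N : ZMod p)) :
    ∃ u v : ℤ, u * p + v * N = 1 := by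
  have h1 : IsUnit ((N : ℕ) : ZMod p) := ⟨a, ha⟩
  have h2 := (ZMod.isUnit_iff_coprime N p).1 h1
  obtain ⟨u, v, h⟩ := (Nat.isCoprime_iff_coprime.2 h2.symm)
  exact ⟨u, v, h⟩

/-- `p` is a unit in every ring in which `N = 0`. -/
lemma unit {R : Type*} [CommRing R] {p N : ℕ} (h : ∃ u v : ℤ, u * p + v * N = 1)
    (hN : ((N : ℕ) : R) = 0) : IsUnit ((p : ℕ) : R) := by
  obtain ⟨u, v, h⟩ := h
  have h1 : ((u : R) * p + v * N) = 1 := by exact_mod_cast congrArg (Int.cast : ℤ → R) h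
  rw [hN, mul_zero, add_zero] at h1
  exact IsUnit.of_mul_eq_one_right _ h1

/-- The norm is zero in the quotient. -/
lemma norm_zero {R : Type*} [CommRing R] [IsDedekindDomain R] [Module.Free ℤ R] [Module.Finite ℤ R]
    (q : Ideal R) : ((Ideal.absNorm q : ℕ) : R ⧸ q) = 0 := by
  have h := Ideal.absNorm_mem q
  rw [← Ideal.Quotient.eq_zero_iff_mem] at h
  simpa using h

/-- Powers of a primitive root of unity. -/
lemma pow_eq {F : Type*} [Field F] {p N : ℕ} [Fact p.Prime] (a : (ZMod p)ˣ)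
    (ha : (a : ZMod p) = (N : ZMod p)) (hN : 0 < N) {z : F} (hz : z ^ p = 1) (hz1 : z ≠ 1) (j : ℕ) :
    z ^ N ^ j = z ↔ a ^ j = 1 := by
  have ho : orderOf z = p := orderOf_eq_prime hz hz1
  have hp : p.Prime := Fact.out
  have hz0 : z ≠ 0 := by
    rintro rfl
    rw [zero_pow hp.ne_zero] at hz
    exact zero_ne_one hz
  have hNj : 1 ≤ N ^ j := Nat.one_le_pow _ _ hN
  obtain ⟨k, hk⟩ := Nat.exists_eq_add_of_le hNj
  have h1 : z ^ N ^ j = z ↔ z ^ k = 1 := by
    rw [hk, pow_add, pow_one]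
    constructor
    · intro h
      exact mul_left_cancel₀ hz0 (by rw [h, mul_one])
    · intro h
      rw [h, mul_one]
  have h2 : a ^ j = 1 ↔ ((N ^ j : ℕ) : ZMod p) = 1 := by
    rw [Units.ext_iff]
    push_cast
    rw [ha]
  rw [h1, h2, hk, ← orderOf_dvd_iff_pow_eq_one, ho]
  push_cast
  rw [add_eq_left, ZMod.natCast_eq_zero_iff]

/-- The inertia degree. -/
lemma deg (L K : Type) [Field L] [NumberField L] [Field K] [NumberField K] [Algebra L K] {p : ℕ}
    [Fact p.Prime] (q : Ideal (𝓞 L)) [hq : q.IsMaximal] (v : Ideal (𝓞 K)) [hv : v.IsMaximal]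
    [v.LiesOver q] (z : 𝓞 K) (hN0 : 0 < Ideal.absNorm q)
    (hbez : ∃ x y : ℤ, x * p + y * (Ideal.absNorm q : ℕ) = 1) (a : (ZMod p)ˣ)
    (ha : (a : ZMod p) = (Ideal.absNorm q : ZMod p)) (hz : IsPrimitiveRoot z p)
    (hgen : ∀ x : 𝓞 K, ∃ y ∈ Algebra.adjoin (𝓞 L) {z}, x - y ∈ v) :
    q.inertiaDeg' v = orderOf a := by
  have hp : p.Prime := Fact.out
  letI : Field (𝓞 L ⧸ q) := Ideal.Quotient.field _
  letI : Field (𝓞 K ⧸ v) := Ideal.Quotient.field _
  have hq0 : q ≠ ⊥ := by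
    rintro rfl
    rw [Ideal.absNorm_bot] at hN0
    exact lt_irrefl _ hN0
  have hfin : Finite (𝓞 L ⧸ q) := Ideal.finiteQuotientOfFreeOfNeBot q hq0
  letI : Fintype (𝓞 L ⧸ q) := Fintype.ofFinite _
  have hv0 : v ≠ ⊥ := by
    intro h
    apply hq0
    rw [Ideal.over_def v q, h]
    exact Ideal.under_bot _ _
  have hfin' : Finite (𝓞 K ⧸ v) := Ideal.finiteQuotientOfFreeOfNeBot v hv0
  have hcard : Fintype.card (𝓞 L ⧸ q) = Ideal.absNorm q := by
    rw [Ideal.absNorm_apply, Submodule.cardQuot_apply, Nat.card_eq_fintype_card]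
  rw [Ideal.inertiaDeg'_algebraMap, ← FiniteField.orderOf_frobeniusAlgHom, orderOf_eq_orderOf_iff]
  intro j
  obtain ⟨w, hw⟩ : ∃ w : 𝓞 K ⧸ v, w = Ideal.Quotient.mk v z := ⟨_, rfl⟩
  have hwp : w ^ p = 1 := by
    rw [hw, ← map_pow, hz.pow_eq_one, map_one]
  have hN : ((Ideal.absNorm q : ℕ) : 𝓞 K ⧸ v) = 0 := by
    have h1 := norm_zero q
    have h2 := congrArg (algebraMap (𝓞 L ⧸ q) (𝓞 K ⧸ v)) h1
    rwa [map_natCast, map_zero] at h2
  have hw1 : w ≠ 1 := by
    intro h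
    have h1 := hz.geom_sum_eq_zero hp.one_lt
    have h2 := congrArg (Ideal.Quotient.mk v) h1
    rw [map_sum, map_zero] at h2
    simp only [map_pow, ← hw, h, one_pow, Finset.sum_const, Finset.card_range, nsmul_eq_mul,
      mul_one] at h2
    exact (unit hbez hN).ne_zero h2
  rw [← pow_eq a ha hN0 hwp hw1 j]
  have hfr : ∀ x : 𝓞 K ⧸ v, (FiniteField.frobeniusAlgHom (𝓞 L ⧸ q) (𝓞 K ⧸ v) ^ j) x =
      x ^ Ideal.absNorm q ^ j := by
    intro x
    rw [AlgHom.coe_pow, FiniteField.coe_frobeniusAlgHom, pow_iterate, hcard]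
  constructor
  · intro h
    rw [← hfr, h, AlgHom.one_apply]
  · intro h
    refine AlgHom.ext fun x => ?_
    rw [AlgHom.one_apply]
    obtain ⟨X, rfl⟩ := Ideal.Quotient.mk_surjective x
    obtain ⟨y, hy, hXy⟩ := hgen X
    rw [Ideal.Quotient.eq.2 hXy]
    have h1 : Algebra.adjoin (𝓞 L) {z} ≤ AlgHom.equalizer
        (((FiniteField.frobeniusAlgHom (𝓞 L ⧸ q) (𝓞 K ⧸ v) ^ j).restrictScalars (𝓞 L)).comp
          (Ideal.Quotient.mkₐ (𝓞 L) v)) (Ideal.Quotient.mkₐ (𝓞 L) v) := by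
      refine Algebra.adjoin_le ?_
      rw [Set.singleton_subset_iff]
      show (FiniteField.frobeniusAlgHom (𝓞 L ⧸ q) (𝓞 K ⧸ v) ^ j) (Ideal.Quotient.mk v z) =
        Ideal.Quotient.mk v z
      rw [hfr, ← hw, h]
    exact h1 hy

end ISp1

open ISp1 in
theorem prf_Sp1 : Sp1 := by
  intro hKD L K _ _ _ _ _ p _ hp2 hcyc hfr q a ha
  have hp : p.Prime := Fact.out
  have : NeZero p := ⟨hp.ne_zero⟩
  have hq0 : q.asIdeal ≠ ⊥ := q.ne_bot
  have hqm : q.asIdeal.IsMaximal := q.isMaximal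
  have hqp : q.asIdeal.IsPrime := q.isPrime
  have hζ := IsCyclotomicExtension.zeta_spec p L K
  have hbez := bez a ha
  have hN0 : 0 < Ideal.absNorm q.asIdeal := Nat.pos_of_ne_zero fun h =>
    hq0 (Ideal.absNorm_eq_zero_iff.1 h)
  -- separability
  have hzint := hζ.toInteger_isPrimitiveRoot
  obtain ⟨z, hz⟩ : ∃ z : 𝓞 K, z = hζ.toInteger := ⟨_, rfl⟩
  rw [← hz] at hzint
  have hzK : (z : K) = IsCyclotomicExtension.zeta p L K := by rw [hz]; rfl
  have hadj : Algebra.adjoin L {(z : K)} = ⊤ := by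
    rw [hzK]
    exact IsCyclotomicExtension.adjoin_primitive_root_eq_top hζ
  have hsep : ((minpoly (𝓞 L) z).map (Ideal.Quotient.mk q.asIdeal)).Separable := by
    have h1 : minpoly (𝓞 L) z ∣ X ^ p - C (1 : 𝓞 L) := by
      refine minpoly.isIntegrallyClosed_dvd (Algebra.IsIntegral.isIntegral z) ?_
      rw [map_sub, map_pow, aeval_X, aeval_C, map_one, hzint.pow_eq_one, sub_self]
    have h2 := Polynomial.map_dvd (Ideal.Quotient.mk q.asIdeal) h1
    rw [Polynomial.map_sub, Polynomial.map_pow, map_X, map_C, map_one] at h2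
    have h3 := separable_X_pow_sub_C_unit (1 : (𝓞 L ⧸ q.asIdeal)ˣ)
      (unit hbez (norm_zero q.asIdeal))
    rw [Units.val_one] at h3
    exact h3.of_dvd h2
  -- the primes above
  have key : ∀ v : Ideal (𝓞 K), v.IsPrime → v.LiesOver q.asIdeal →
      v.ramificationIdx (𝓞 L) = 1 ∧ q.asIdeal.inertiaDeg' v = orderOf a := by
    intro v hv hvq
    obtain ⟨hram, hgen⟩ := hKD L K z q.asIdeal hq0 hadj hsep v (Ideal.over_def v q.asIdeal).symm
    refine ⟨hram, ?_⟩
    have hv0 : v ≠ ⊥ := by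
      intro h
      apply hq0
      rw [Ideal.over_def v q.asIdeal, h]
      exact Ideal.under_bot _ _
    have hvm : v.IsMaximal := hv.isMaximal hv0
    exact deg L K q.asIdeal v z hN0 hbez a ha hzint hgen
  have ho : 0 < orderOf a := orderOf_pos a
  have hover : ∀ P ∈ IsDedekindDomain.primesOverFinset q.asIdeal (𝓞 K),
      P.IsPrime ∧ P.LiesOver q.asIdeal := fun P hP =>
    (IsDedekindDomain.mem_primesOverFinset_iff hq0 (𝓞 K)).1 hP
  have hsum := Ideal.sum_ramification_inertia (R := 𝓞 L) (S := 𝓞 K) (K := L) (L := K) hq0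
  have hcard : (IsDedekindDomain.primesOverFinset q.asIdeal (𝓞 K)).card * orderOf a = p - 1 := by
    rw [← hfr, ← hsum, ← smul_eq_mul, ← Finset.sum_const]
    refine Finset.sum_congr rfl fun P hP => ?_
    obtain ⟨h1, h2⟩ := hover P hP
    obtain ⟨h3, h4⟩ := key P h1 h2
    rw [Ideal.ramificationIdx'_eq_ramificationIdx q.asIdeal P hq0, h3, h4, one_mul]
  have hinj : Function.Injective (HeightOneSpectrum.asIdeal (R := 𝓞 K)) := fun x y h =>
    HeightOneSpectrum.ext h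
  have hcount : (above L K q).ncard =
      (IsDedekindDomain.primesOverFinset q.asIdeal (𝓞 K)).card := by
    rw [← Set.ncard_image_of_injective _ hinj, ← Set.ncard_coe_finset]
    congr 1
    ext P
    constructor
    · rintro ⟨v, hv, rfl⟩
      exact (IsDedekindDomain.mem_primesOverFinset_iff hq0 (𝓞 K)).2 ⟨v.isPrime, ⟨hv.symm⟩⟩
    · intro hP
      obtain ⟨h1, h2⟩ := hover P hP
      refine ⟨⟨P, h1, ?_⟩, (Ideal.over_def P q.asIdeal).symm, rfl⟩
      intro hP0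
      apply hq0
      rw [Ideal.over_def P q.asIdeal, hP0]
      exact Ideal.under_bot _ _
  refine ⟨?_, fun v hv => ?_⟩
  · rw [hcount]
    exact (Nat.div_eq_of_eq_mul_left ho hcard.symm).symm
  · have h2 : v.asIdeal.LiesOver q.asIdeal := ⟨hv.symm⟩
    rw [Ideal.absNorm_eq_pow_inertiaDeg'_of_liesOver v.asIdeal q.asIdeal hqp hq0,
      (key v.asIdeal v.isPrime h2).2]

end Pool.Agent.Work.MP_59f3ad_nt.US.H
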