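import Pool.Agent.Work.MP_59f3ad_nt.US.H.Stmts

/-!
# Uniform Schneider, part H, item TB: theorem (b), the assembly
-/

set_option autoImplicit false

open NumberField IsDedekindDomain Filter Topology Polynomial

namespace Pool.Agent.Work.MP_59f3ad_nt.US.H

namespace XTB

/-- a prime larger than the discriminant does not divide it -/
theorem not_dvd (L : Type) [Field L] [NumberField L] {p : ℕ} (h : (discr L).natAbs < p) :
    ¬ (p : ℤ) ∣ discr L := by
  intro hd
  have h1 : p ∣ (discr L).natAbs := Int.natCast_dvd.1 hd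
  have h2 : 0 < (discr L).natAbs := Int.natAbs_pos.2 (discr_ne_zero L)
  exact absurd (Nat.le_of_dvd h2 h1) (not_le.2 h)

/-- `L` acts on the maximal real subfield -/
noncomputable def toF (L K : Type) [Field L] [Field K] [NumberField K] [Algebra L K]
    (h : ∀ x : L, algebraMap L K x ∈ maximalRealSubfield K) : L →+* maximalRealSubfield K :=
  (algebraMap L K).codRestrict (maximalRealSubfield K) h

end XTB

open XTB in
theorem prf_TB : TB := by
  intro hEul hOv hSm hEG hRs hDc hCh1 hCh2 hKD hSp1 hSp2 hRm hZf hLB hKp hRL hDf hHr hTo hKR hAs2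
    L _ _ hreal ε hε
  obtain ⟨C, hC, q₀, hb⟩ := hLB L
  have hd : 0 < Module.finrank ℚ L := Module.finrank_pos
  have hD : 0 < (discr L).natAbs := Int.natAbs_pos.2 (discr_ne_zero L)
  obtain ⟨p₁, hp₁⟩ := hAs2 (Module.finrank ℚ L) (discr L).natAbs C hd hD hC ε hε
  refine ⟨p₁ + q₀ + (discr L).natAbs + 3, ?_⟩
  intro p hp hpp K _ _ _ hcyc hCM k H hH hHc
  have : Fact p.Prime := ⟨hp⟩
  have hp2 : p ≠ 2 := by omega
  have hnd : ¬ (p : ℤ) ∣ discr L := not_dvd L (by omega)
  obtain ⟨-, hLF, ζ, hζ, hζF⟩ := hRL L K p hp2 hcyc hreal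
  obtain ⟨hfin, hdisc⟩ := hDc L K p hp hp2 hcyc hnd
  let _ : Algebra L (maximalRealSubfield K) := (toF L K hLF).toAlgebra
  have : IsScalarTower L (maximalRealSubfield K) K := IsScalarTower.of_algebraMap_eq fun x => rfl
  have hFK : Module.finrank (maximalRealSubfield K) K = 2 :=
    Algebra.IsQuadraticExtension.finrank_eq_two (maximalRealSubfield K) K
  have hQK : Module.finrank ℚ K = (p - 1) * Module.finrank ℚ L := by
    rw [← Module.finrank_mul_finrank ℚ L K, hfin, mul_comm]
  have hZ := hZf hEG hSm hEul hOv hKD hSp1 hSp2 hRm hCh1 hCh2 L (maximalRealSubfield K) K p hp2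
    hcyc hfin hnd hFK ⟨ζ, hζ, ⟨ζ + ζ⁻¹, hζF⟩, rfl⟩
  have hκ := hKp (maximalRealSubfield K) K p C (fun χ s => LI L (chN L p χ) s) hp2 hC
    (hRs (hSm hEul hOv)) hZ (fun χ hχ s hs hs2 => hb p hp (by omega) χ hχ s hs hs2)
  have hh := hHr K _ hκ
  have hδ := hDf K p hp2 ⟨ζ, hζ, hζF⟩
  have hw := hTo K
  have hi := hKR K H hHc
  rw [hH] at hi
  rw [hQK] at hδ hw
  rw [Nat.mul_div_cancel_left _ (by have := hp.two_le; omega)] at hδ
  rw [hdisc] at hh
  have hpos : 0 < classNumber (maximalRealSubfield K) :=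
    Nat.pos_of_ne_zero (classNumber_ne_zero _)
  exact hp₁ p hp (by omega) k (classNumber K) (classNumber (maximalRealSubfield K))
    (Units.torsionOrder K) _ hpos hi hw hδ hh

end Pool.Agent.Work.MP_59f3ad_nt.US.H
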