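import Pool.Agent.Work.MP_59f3ad_nt.US.H.Stmts

/-!
# Uniform Schneider, part H: item To (the number of roots of unity), helper54
-/

set_option autoImplicit false

open NumberField IsDedekindDomain Filter Topology Polynomial

namespace Pool.Agent.Work.MP_59f3ad_nt.US.H

namespace XTo

theorem pp {p k : ℕ} (hp : p.Prime) (hp2 : p ≠ 2) (hk : 0 < k) :
    p ^ k ≤ Nat.totient (p ^ k) ^ 2 := by
  obtain ⟨j, rfl⟩ : ∃ j, k = j + 1 := ⟨k - 1, by omega⟩
  rw [Nat.totient_prime_pow_succ hp]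
  have hp3 : 3 ≤ p := by
    have := hp.two_le
    omega
  obtain ⟨r, rfl⟩ : ∃ r, p = r + 3 := ⟨p - 3, by omega⟩
  have h1 : r + 3 - 1 = r + 2 := by omega
  rw [h1]
  have h2 : r + 3 ≤ (r + 2) ^ 2 := by nlinarith
  have h3 : (r + 3) ^ j ≤ ((r + 3) ^ j) ^ 2 := by
    apply Nat.le_self_pow
    norm_num
  calc (r + 3) ^ (j + 1) = (r + 3) ^ j * (r + 3) := pow_succ _ _
    _ ≤ ((r + 3) ^ j) ^ 2 * (r + 2) ^ 2 := Nat.mul_le_mul h3 h2
    _ = ((r + 3) ^ j * (r + 2)) ^ 2 := by ring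

theorem odd_le (n : ℕ) : ¬ 2 ∣ n → n ≤ Nat.totient n ^ 2 := by
  induction n using Nat.recOnPosPrimePosCoprime with
  | zero => intro _; simp
  | one => intro _; simp
  | prime_pow p k hp hk =>
    intro h2
    refine pp hp ?_ hk
    rintro rfl
    exact h2 (dvd_pow_self 2 hk.ne')
  | coprime a b ha hb hab iha ihb =>
    intro h2
    rw [Nat.totient_mul hab, mul_pow]
    exact Nat.mul_le_mul (iha fun h => h2 (h.mul_right b)) (ihb fun h => h2 (h.mul_left a))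

theorem le_totient (n : ℕ) : n ≤ 2 * Nat.totient n ^ 2 := by
  rcases Nat.eq_zero_or_pos n with rfl | hn
  · simp
  obtain ⟨k, m, hm, rfl⟩ := Nat.exists_eq_two_pow_mul_odd hn.ne'
  have hm2 : ¬ 2 ∣ m := by
    intro h
    exact (Nat.not_even_iff_odd.2 hm) (even_iff_two_dvd.2 h)
  have hcop : Nat.Coprime (2 ^ k) m := by
    apply Nat.Coprime.pow_left
    exact (Nat.Prime.coprime_iff_not_dvd Nat.prime_two).2 hm2
  rw [Nat.totient_mul hcop, mul_pow, ← mul_assoc]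
  refine Nat.mul_le_mul ?_ (odd_le m hm2)
  rcases Nat.eq_zero_or_pos k with rfl | hk
  · simp
  obtain ⟨j, rfl⟩ : ∃ j, k = j + 1 := ⟨k - 1, by omega⟩
  rw [Nat.totient_prime_pow_succ Nat.prime_two]
  have h3 : 2 ^ j ≤ (2 ^ j) ^ 2 := by
    apply Nat.le_self_pow
    norm_num
  calc 2 ^ (j + 1) = 2 * 2 ^ j := by ring
    _ ≤ 2 * (2 ^ j) ^ 2 := Nat.mul_le_mul_left _ h3
    _ = 2 * (2 ^ j * (2 - 1)) ^ 2 := by norm_num

end XTo

open XTo NumberField.Units in
theorem prf_To : To := by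
  intro K _ _
  obtain ⟨μ, hμ⟩ : ∃ μ : torsion K, orderOf μ = torsionOrder K := by
    exact IsCyclic.exists_ofOrder_eq_natCard
  rw [← IsPrimitiveRoot.iff_orderOf, ← IsPrimitiveRoot.coe_submonoidClass_iff,
    ← IsPrimitiveRoot.coe_units_iff] at hμ
  replace hμ := hμ.map_of_injective (FaithfulSMul.algebraMap_injective (𝓞 K) K)
  have h1 : (Nat.lcm (torsionOrder K) (torsionOrder K)).totient ≤ Module.finrank ℚ K := by
    apply IsPrimitiveRoot.lcm_totient_le_finrank hμ hμ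
    rw [Nat.lcm_self]
    exact cyclotomic.irreducible_rat (torsionOrder_pos K)
  rw [Nat.lcm_self] at h1
  calc torsionOrder K ≤ 2 * Nat.totient (torsionOrder K) ^ 2 := le_totient _
    _ ≤ 2 * (Module.finrank ℚ K) ^ 2 := Nat.mul_le_mul_left _ (Nat.pow_le_pow_left h1 2)

end Pool.Agent.Work.MP_59f3ad_nt.US.H
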