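import Pool.Agent.Work.MP_59f3ad_nt.US.H.Stmts

/-!
# Uniform Schneider, part H: item Zf
-/

set_option autoImplicit false

open NumberField IsDedekindDomain Filter Topology Polynomial

namespace Pool.Agent.Work.MP_59f3ad_nt.US.H

namespace XZf

/-- Product over a finite set on which the function is constant. -/
theorem hasProd_const {ι : Type} (S : Set ι) (n : ℕ) (hn : 0 < n) (hS : S.ncard = n)
    (f : ι → ℂ) (c : ℂ) (hf : ∀ x ∈ S, f x = c) : HasProd (fun x : S => f x) (c ^ n) := by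
  have hfin : S.Finite := by
    by_contra h
    have := Set.Infinite.ncard h
    omega
  have : Fintype S := hfin.fintype
  have h1 := hasProd_fintype (fun x : S => f x)
  have h2 : ∏ x : S, f x = c ^ n := by
    rw [Finset.prod_congr rfl (fun x _ => hf x.1 x.2), Finset.prod_const, Finset.card_univ,
      Fintype.card_eq_nat_card, Nat.card_coe_set_eq, hS]
  rwa [h2] at h1

/-- Fibrewise product over the primes of `E`. -/
theorem fib (L E : Type) [Field L] [NumberField L] [Field E] [NumberField E] [Algebra L E]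
    (f : HeightOneSpectrum (𝓞 E) → ℂ) (a : ℂ) (h : HasProd f a)
    (g : HeightOneSpectrum (𝓞 L) → ℂ) (hg : ∀ q, HasProd (fun v : above L E q => f v) (g q)) :
    HasProd g a := by
  let Φ : HeightOneSpectrum (𝓞 E) → HeightOneSpectrum (𝓞 L) := fun v =>
    HeightOneSpectrum.under (𝓞 L) v
  have hset : ∀ q, above L E q = {v | Φ v = q} := by
    intro q
    ext v
    simp only [above, Set.mem_ofPred_eq]
    rw [HeightOneSpectrum.ext_iff]
    rfl
  have h1 : HasProd (f ∘ (Equiv.sigmaFiberEquiv Φ)) a := (Equiv.hasProd_iff _).2 h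
  refine h1.sigma fun q => ?_
  have h2 := hg q
  rw [hset q] at h2
  exact h2

/-- A prime whose norm is divisible by `p` lies above `p`. -/
theorem mem_of_dvd (L : Type) [Field L] [NumberField L] (p : ℕ) [hp : Fact p.Prime]
    (q : HeightOneSpectrum (𝓞 L)) (h : (Ideal.absNorm q.asIdeal : ZMod p) = 0) :
    (p : 𝓞 L) ∈ q.asIdeal := by
  have hpd : p ∣ Ideal.absNorm q.asIdeal := (ZMod.natCast_eq_zero_iff _ _).1 h
  have hmax : q.asIdeal.IsMaximal := q.isMaximal
  have hfin : Finite (𝓞 L ⧸ q.asIdeal) := Ideal.finiteQuotientOfFreeOfNeBot q.asIdeal q.ne_bot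
  rw [Ideal.absNorm_apply, Submodule.cardQuot_apply] at hpd
  obtain ⟨x, hx⟩ := exists_prime_addOrderOf_dvd_card' p hpd
  have hx0 : x ≠ 0 := by
    rintro rfl
    rw [addOrderOf_zero] at hx
    exact hp.out.one_lt.ne hx
  have h1 : (p : ℕ) • x = 0 := by
    rw [← hx]
    exact addOrderOf_nsmul_eq_zero x
  have : IsDomain (𝓞 L ⧸ q.asIdeal) := Ideal.Quotient.isDomain _
  have h2 : ((p : 𝓞 L ⧸ q.asIdeal)) * x = 0 := by
    rw [← nsmul_eq_mul]
    exact h1
  rcases mul_eq_zero.1 h2 with h3 | h3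
  · rw [← Ideal.Quotient.eq_zero_iff_mem]
    rw [map_natCast]
    exact h3
  · exact absurd h3 hx0

theorem pow_rpow (a : ℕ) (n : ℕ) (s : ℝ) :
    ((a ^ n : ℕ) : ℝ) ^ (-s) = (((a : ℝ)) ^ (-s)) ^ n := by
  rw [Nat.cast_pow, ← Real.rpow_natCast, ← Real.rpow_mul (Nat.cast_nonneg a), mul_comm,
    Real.rpow_mul (Nat.cast_nonneg a), Real.rpow_natCast]

theorem prod_split (p : ℕ) [Fact p.Prime] (f : DirichletCharacter ℂ p → ℂ) :
    (∏ χ ∈ evenC p, f χ) * ∏ χ ∈ oddC p, f χ = ∏ χ : DirichletCharacter ℂ p, f χ := by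
  classical
  unfold evenC oddC
  exact Finset.prod_filter_mul_prod_filter_not _ _ _

end XZf

theorem prf_Zf : Zf := by
  intro hEG hSm hEul hOv hKD hSp1 hSp2 hRm hCh1 hCh2 L F K _ _ _ _ _ _ _ _ _ _ p hpF hp2 hcyc hfr
    hdisc hFK hζ s hs
  have hp : p.Prime := hpF.out
  have hp3 : 3 ≤ p := by
    have := hp.two_le
    omega
  -- Euler products
  have e1 : ∀ (E : Type) [Field E] [NumberField E],
      HasProd (fun v : HeightOneSpectrum (𝓞 E) =>
        (1 - (((Ideal.absNorm v.asIdeal : ℝ) ^ (-s) : ℝ) : ℂ))⁻¹) ((zK E s : ℝ) : ℂ) := by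
    intro E _ _
    have h1 := hEG hSm hEul hOv E (fun _ => 1) rfl (fun _ _ => (one_mul 1).symm)
      (fun _ => by simp) s hs
    have h2 : LI E (fun _ => 1) s = ((zK E s : ℝ) : ℂ) := by
      unfold LI zK
      rw [Complex.ofReal_tsum]
      simp
    rw [h2] at h1
    simpa only [one_mul] using h1
  have e2 : ∀ χ : DirichletCharacter ℂ p, HasProd (fun v : HeightOneSpectrum (𝓞 L) =>
      (1 - χ (Ideal.absNorm v.asIdeal : ZMod p) *
        (((Ideal.absNorm v.asIdeal : ℝ) ^ (-s) : ℝ) : ℂ))⁻¹) (LI L (chN L p χ) s) := by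
    intro χ
    refine hEG hSm hEul hOv L (chN L p χ) ?_ ?_ ?_ s hs
    · simp [chN]
    · intro I J
      simp [chN]
    · intro I
      exact χ.norm_le_one _
  -- local factors
  set gK : HeightOneSpectrum (𝓞 L) → ℂ := fun q =>
    if (Ideal.absNorm q.asIdeal : ZMod p) = 0 then
      (1 - (((Ideal.absNorm q.asIdeal : ℝ) ^ (-s) : ℝ) : ℂ))⁻¹
    else (∏ χ : DirichletCharacter ℂ p, (1 - χ (Ideal.absNorm q.asIdeal : ZMod p) *
        (((Ideal.absNorm q.asIdeal : ℝ) ^ (-s) : ℝ) : ℂ)))⁻¹ with hgK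
  set gF : HeightOneSpectrum (𝓞 L) → ℂ := fun q =>
    if (Ideal.absNorm q.asIdeal : ZMod p) = 0 then
      (1 - (((Ideal.absNorm q.asIdeal : ℝ) ^ (-s) : ℝ) : ℂ))⁻¹
    else (∏ χ ∈ evenC p, (1 - χ (Ideal.absNorm q.asIdeal : ZMod p) *
        (((Ideal.absNorm q.asIdeal : ℝ) ^ (-s) : ℝ) : ℂ)))⁻¹ with hgF
  have hK : HasProd gK ((zK K s : ℝ) : ℂ) := by
    refine XZf.fib L K _ _ (e1 K) gK fun q => ?_
    by_cases h0 : (Ideal.absNorm q.asIdeal : ZMod p) = 0
    · have h1 := hRm L K K p hp2 hcyc hfr hdisc q (XZf.mem_of_dvd L p q h0)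
      have h2 := XZf.hasProd_const (above L K q) 1 one_pos h1.1
        (fun v => (1 - (((Ideal.absNorm v.asIdeal : ℝ) ^ (-s) : ℝ) : ℂ))⁻¹)
        ((1 - (((Ideal.absNorm q.asIdeal : ℝ) ^ (-s) : ℝ) : ℂ))⁻¹)
        (fun v hv => by rw [h1.2 v hv])
      rw [pow_one] at h2
      rw [hgK]
      simp only [if_pos h0]
      exact h2
    · obtain ⟨a, ha⟩ : ∃ a : (ZMod p)ˣ, (a : ZMod p) = (Ideal.absNorm q.asIdeal : ZMod p) :=
        ⟨Units.mk0 _ h0, rfl⟩
      have h1 := hSp1 hKD L K p hp2 hcyc hfr q a ha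
      have hpos : 0 < orderOf a := orderOf_pos a
      have hdvd : orderOf a ∣ p - 1 := by
        rw [← ZMod.card_units p]
        exact orderOf_dvd_card
      have h2 := XZf.hasProd_const (above L K q) ((p - 1) / orderOf a)
        (Nat.div_pos (Nat.le_of_dvd (by omega) hdvd) hpos) h1.1
        (fun v => (1 - (((Ideal.absNorm v.asIdeal : ℝ) ^ (-s) : ℝ) : ℂ))⁻¹)
        ((1 - (((Ideal.absNorm q.asIdeal : ℝ) ^ (-s) : ℝ) : ℂ) ^ orderOf a)⁻¹)
        (fun v hv => by rw [h1.2 v hv, XZf.pow_rpow, Complex.ofReal_pow])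
      rw [inv_pow, ← hCh1 p a, ha] at h2
      rw [hgK]
      simp only [if_neg h0]
      exact h2
  have hF : HasProd gF ((zK F s : ℝ) : ℂ) := by
    refine XZf.fib L F _ _ (e1 F) gF fun q => ?_
    by_cases h0 : (Ideal.absNorm q.asIdeal : ZMod p) = 0
    · have h1 := hRm L F K p hp2 hcyc hfr hdisc q (XZf.mem_of_dvd L p q h0)
      have h2 := XZf.hasProd_const (above L F q) 1 one_pos h1.1
        (fun v => (1 - (((Ideal.absNorm v.asIdeal : ℝ) ^ (-s) : ℝ) : ℂ))⁻¹)
        ((1 - (((Ideal.absNorm q.asIdeal : ℝ) ^ (-s) : ℝ) : ℂ))⁻¹)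
        (fun v hv => by rw [h1.2 v hv])
      rw [pow_one] at h2
      rw [hgF]
      simp only [if_pos h0]
      exact h2
    · obtain ⟨a, ha⟩ : ∃ a : (ZMod p)ˣ, (a : ZMod p) = (Ideal.absNorm q.asIdeal : ZMod p) :=
        ⟨Units.mk0 _ h0, rfl⟩
      obtain ⟨f', hf'⟩ : ∃ f' : ℕ, f' = (if Even (orderOf a) then orderOf a / 2 else orderOf a) :=
        ⟨_, rfl⟩
      have h1 := hSp2 hKD L F K p hp2 hcyc hfr hFK hζ q a f' ha hf'
      have hpos : 0 < orderOf a := orderOf_pos a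
      have hdvd : orderOf a ∣ p - 1 := by
        rw [← ZMod.card_units p]
        exact orderOf_dvd_card
      have hodd : Odd p := hp.odd_of_ne_two hp2
      have hfpos : 0 < f' ∧ f' ≤ (p - 1) / 2 := by
        obtain ⟨m, hm⟩ := hodd
        obtain ⟨c, hc⟩ := hdvd
        have hc0 : 0 < c := by
          rcases Nat.eq_zero_or_pos c with h | h
          · rw [h] at hc
            omega
          · exact h
        rw [hf']
        split_ifs with he
        · obtain ⟨k, hk⟩ := he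
          rw [hk] at hc hpos ⊢
          have h3 : (k + k) * c ≥ (k + k) * 1 := Nat.mul_le_mul_left _ hc0
          constructor
          · omega
          · omega
        · have h3 : Odd (orderOf a) := Nat.not_even_iff_odd.1 he
          have h4 : 2 ∣ c := by
            have h5 : 2 ∣ orderOf a * c := ⟨m, by omega⟩
            exact (Nat.Coprime.dvd_of_dvd_mul_left (Nat.coprime_two_left.2 h3) h5)
          obtain ⟨c', rfl⟩ := h4
          have hc' : 0 < c' := by omega
          have h5 : orderOf a * (2 * c') = 2 * (orderOf a * c') := by ring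
          have h6 : orderOf a * c' ≥ orderOf a * 1 := Nat.mul_le_mul_left _ hc'
          exact ⟨hpos, by omega⟩
      have h2 := XZf.hasProd_const (above L F q) (((p - 1) / 2) / f')
        (Nat.div_pos hfpos.2 hfpos.1) h1.1
        (fun v => (1 - (((Ideal.absNorm v.asIdeal : ℝ) ^ (-s) : ℝ) : ℂ))⁻¹)
        ((1 - (((Ideal.absNorm q.asIdeal : ℝ) ^ (-s) : ℝ) : ℂ) ^ f')⁻¹)
        (fun v hv => by rw [h1.2 v hv, XZf.pow_rpow, Complex.ofReal_pow])
      rw [inv_pow, ← hCh2 p hp2 a _ f' hf', ha] at h2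
      rw [hgF]
      simp only [if_neg h0]
      exact h2
  have hO : HasProd (fun q : HeightOneSpectrum (𝓞 L) => ∏ χ ∈ oddC p,
      (1 - χ (Ideal.absNorm q.asIdeal : ZMod p) *
        (((Ideal.absNorm q.asIdeal : ℝ) ^ (-s) : ℝ) : ℂ))⁻¹)
      (∏ χ ∈ oddC p, LI L (chN L p χ) s) := hasProd_prod fun χ _ => e2 χ
  have hFO := hF.mul hO
  refine hK.unique ?_
  convert hFO using 2 with q
  rw [hgK, hgF]
  by_cases h0 : (Ideal.absNorm q.asIdeal : ZMod p) = 0
  · simp only [if_pos h0]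
    rw [h0]
    have h1 : ∀ χ : DirichletCharacter ℂ p, χ (0 : ZMod p) = 0 := fun χ =>
      χ.map_nonunit not_isUnit_zero
    rw [Finset.prod_congr rfl (fun χ _ => by rw [h1 χ, zero_mul, sub_zero, inv_one])]
    simp
  · simp only [if_neg h0]
    rw [← XZf.prod_split p, Finset.prod_inv_distrib, mul_inv]

end Pool.Agent.Work.MP_59f3ad_nt.US.H
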