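import Pool.Agent.Work.MP_59f3ad_nt.US.H.I_As
import Pool.Agent.Work.MP_59f3ad_nt.US.H.I_As2
import Pool.Agent.Work.MP_59f3ad_nt.US.H.I_Ch1
import Pool.Agent.Work.MP_59f3ad_nt.US.H.I_Ch2
import Pool.Agent.Work.MP_59f3ad_nt.US.H.I_Cl
import Pool.Agent.Work.MP_59f3ad_nt.US.H.I_Dc
import Pool.Agent.Work.MP_59f3ad_nt.US.H.I_Df
import Pool.Agent.Work.MP_59f3ad_nt.US.H.I_EG
import Pool.Agent.Work.MP_59f3ad_nt.US.H.I_Eul
import Pool.Agent.Work.MP_59f3ad_nt.US.H.I_Hr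
import Pool.Agent.Work.MP_59f3ad_nt.US.H.I_KD
import Pool.Agent.Work.MP_59f3ad_nt.US.H.I_KR
import Pool.Agent.Work.MP_59f3ad_nt.US.H.I_Kp
import Pool.Agent.Work.MP_59f3ad_nt.US.H.I_Ov
import Pool.Agent.Work.MP_59f3ad_nt.US.H.I_RL
import Pool.Agent.Work.MP_59f3ad_nt.US.H.I_Rm
import Pool.Agent.Work.MP_59f3ad_nt.US.H.I_Rs
import Pool.Agent.Work.MP_59f3ad_nt.US.H.I_Sm
import Pool.Agent.Work.MP_59f3ad_nt.US.H.I_Sp1
import Pool.Agent.Work.MP_59f3ad_nt.US.H.I_Sp2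
import Pool.Agent.Work.MP_59f3ad_nt.US.H.I_TA
import Pool.Agent.Work.MP_59f3ad_nt.US.H.I_TB
import Pool.Agent.Work.MP_59f3ad_nt.US.H.I_To
import Pool.Agent.Work.MP_59f3ad_nt.US.H.I_Zf

/-!
# Uniform Schneider, part H: the two bounds for the class numbers, unconditional (b: given `LB`)
-/

set_option autoImplicit false

open NumberField IsDedekindDomain

namespace Pool.Agent.Work.MP_59f3ad_nt.US.H

/-- Theorem (a): if `p^k` divides the class number of `L(μ_p)` then `k ≤ (1/2 + ε) [L : ℚ] p` for all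
primes `p ≥ p₀(L, ε)`. -/
theorem thmA (L : Type) [Field L] [NumberField L] (ε : ℝ) (hε : 0 < ε) :
    ∃ p₀ : ℕ, ∀ p : ℕ, p.Prime → p₀ ≤ p → ∀ (K : Type) [Field K] [NumberField K] [Algebra L K],
      IsCyclotomicExtension {p} L K → ∀ k : ℕ, p ^ k ∣ classNumber K →
      (k : ℝ) ≤ (1 / 2 + ε) * Module.finrank ℚ L * p :=
  prf_TA prf_Eul prf_Ov prf_Cl prf_Dc prf_As L ε hε

/-- Theorem (b): for `L` totally real, a subgroup of index `p^k` of the class group of `L(μ_p)` which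
contains all the classes extended from the maximal real subfield has
`k ≤ (1/4 + ε) [L : ℚ] p` for all primes `p ≥ p₀(L, ε)`. -/
theorem thmB (hLB : LB) (L : Type) [Field L] [NumberField L] (hL : IsTotallyReal L) (ε : ℝ)
    (hε : 0 < ε) :
    ∃ p₀ : ℕ, ∀ p : ℕ, p.Prime → p₀ ≤ p → ∀ (K : Type) [Field K] [NumberField K] [Algebra L K],
      IsCyclotomicExtension {p} L K → ∀ _ : IsCMField K, ∀ (k : ℕ)
      (H : Subgroup (ClassGroup (𝓞 K))), H.index = p ^ k →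
      (∀ (I : Ideal (𝓞 (maximalRealSubfield K))) (J : nonZeroDivisors (Ideal (𝓞 K))),
        (J : Ideal (𝓞 K)) = I.map (algebraMap (𝓞 (maximalRealSubfield K)) (𝓞 K)) →
        ClassGroup.mk0 J ∈ H) →
      (k : ℝ) ≤ (1 / 4 + ε) * Module.finrank ℚ L * p :=
  prf_TB prf_Eul prf_Ov prf_Sm prf_EG prf_Rs prf_Dc prf_Ch1 prf_Ch2 prf_KD prf_Sp1 prf_Sp2 prf_Rm
    prf_Zf hLB prf_Kp prf_RL prf_Df prf_Hr prf_To prf_KR prf_As2 L hL ε hε

end Pool.Agent.Work.MP_59f3ad_nt.US.H
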