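import Mathlib

/-!
# Uniform Schneider, part H (class number bounds): definitions
-/

set_option autoImplicit false

open NumberField IsDedekindDomain

namespace Pool.Agent.Work.MP_59f3ad_nt.US.H

/-- The Dedekind zeta function on the real axis. -/
noncomputable def zK (K : Type) [Field K] [NumberField K] (s : ℝ) : ℝ :=
  ∑' I : {I : Ideal (𝓞 K) // I ≠ ⊥}, (Ideal.absNorm I.1 : ℝ) ^ (-s)

/-- The Dirichlet series of a function on the ideals, on the real axis. -/
noncomputable def LI (K : Type) [Field K] [NumberField K] (f : Ideal (𝓞 K) → ℂ) (s : ℝ) : ℂ :=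
  ∑' I : {I : Ideal (𝓞 K) // I ≠ ⊥}, f I.1 * (((Ideal.absNorm I.1 : ℝ) ^ (-s) : ℝ) : ℂ)

/-- The function `χ(N I)` on the ideals. -/
noncomputable def chN (L : Type) [Field L] [NumberField L] (p : ℕ) (χ : DirichletCharacter ℂ p) :
    Ideal (𝓞 L) → ℂ := fun I => χ (Ideal.absNorm I : ZMod p)

open scoped Classical in
/-- The even Dirichlet characters modulo `p`. -/
noncomputable def evenC (p : ℕ) [Fact p.Prime] : Finset (DirichletCharacter ℂ p) :=
  Finset.univ.filter fun χ => χ.Even

open scoped Classical in
/-- The odd Dirichlet characters modulo `p`. -/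
noncomputable def oddC (p : ℕ) [Fact p.Prime] : Finset (DirichletCharacter ℂ p) :=
  Finset.univ.filter fun χ => ¬ χ.Even

/-- The primes of `K` above the prime `q` of `L`. -/
def above (L K : Type) [Field L] [NumberField L] [Field K] [NumberField K] [Algebra L K]
    (q : HeightOneSpectrum (𝓞 L)) : Set (HeightOneSpectrum (𝓞 K)) :=
  {v | v.asIdeal.under (𝓞 L) = q.asIdeal}

end Pool.Agent.Work.MP_59f3ad_nt.US.H
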