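import Pool.Agent.Work.MP_59f3ad_nt.US.H.Stmts

/-!
# Uniform Schneider, part H, item As: asymptotics of (a)
-/

set_option autoImplicit false

open Filter Topology

namespace Pool.Agent.Work.MP_59f3ad_nt.US.H

namespace XAs

theorem lim (d D : ℝ) : Tendsto (fun L : ℝ => (1 + 1 / L) / 2 * (Real.log D / L + d) +
    d * (Real.log (1 + L) / L)) atTop (𝓝 (d / 2)) := by
  have h1 : Tendsto (fun L : ℝ => 1 / L) atTop (𝓝 0) := by
    simpa using tendsto_inv_atTop_zero (𝕜 := ℝ)
  have h2 : Tendsto (fun L : ℝ => Real.log D / L) atTop (𝓝 0) :=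
    tendsto_const_nhds.div_atTop tendsto_id
  have h3 : Tendsto (fun L : ℝ => Real.log (1 + L) / L) atTop (𝓝 0) := by
    have h := (Real.tendsto_pow_log_div_mul_add_atTop 1 (-1) 1 one_ne_zero).comp
      (tendsto_atTop_add_const_left atTop (1 : ℝ) tendsto_id)
    refine h.congr fun L => ?_
    simp only [Function.comp_apply, id_eq, pow_one, one_mul]
    congr 1
    ring
  have h4 := (((h1.const_add 1).div_const 2).mul (h2.add_const d)).add (h3.const_mul d)
  have h5 : (1 + 0) / 2 * (0 + d) + d * 0 = d / 2 := by ring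
  rw [h5] at h4
  exact h4

end XAs

theorem prf_As : As := by
  intro d D hd hD ε hε
  have hdr : (0 : ℝ) < d := by exact_mod_cast hd
  have hlt : (d : ℝ) / 2 < (1 / 2 + ε) * d := by nlinarith
  have hev := (XAs.lim (d : ℝ) (D : ℝ)).eventually (gt_mem_nhds hlt)
  have hev2 := (Real.tendsto_log_atTop.comp (tendsto_natCast_atTop_atTop (R := ℝ))).eventually hev
  obtain ⟨p₀, hp₀⟩ := eventually_atTop.1 (hev2.and (eventually_ge_atTop 3))
  refine ⟨p₀, fun p hp hpp k h hh hk hs => ?_⟩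
  obtain ⟨h1, h2⟩ := hp₀ p hpp
  simp only [Function.comp_apply] at h1
  have hp3 : (3 : ℝ) ≤ p := by exact_mod_cast h2
  have hp0 : (0 : ℝ) < p := by linarith
  obtain ⟨L, hL⟩ : ∃ L : ℝ, L = Real.log p := ⟨_, rfl⟩
  rw [← hL] at h1
  have hL0 : 0 < L := by
    rw [hL]
    exact Real.log_pos (by linarith)
  have hs1 := hs (1 + 1 / L) (by have := one_div_pos.2 hL0; linarith)
  have hsd : (1 + 1 / L) / (1 + 1 / L - 1) = 1 + L := by
    field_simp
    ring
  rw [hsd] at hs1
  have hDr : (1 : ℝ) ≤ D := by exact_mod_cast hD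
  have hX : 0 < ((D ^ (p - 1) * p ^ ((p - 2) * d) : ℕ) : ℝ) := by
    push_cast
    positivity
  have hk1 : (p : ℝ) ^ k ≤ h := by exact_mod_cast Nat.le_of_dvd hh hk
  have hlog := Real.log_le_log (pow_pos hp0 k) (hk1.trans hs1)
  rw [Real.log_pow, ← hL, Real.log_mul
    (Real.rpow_pos_of_pos (Real.sqrt_pos.2 hX) _).ne' (pow_pos (by linarith) _).ne',
    Real.log_rpow (Real.sqrt_pos.2 hX), Real.log_sqrt hX.le, Real.log_pow] at hlog
  have hXl : Real.log ((D ^ (p - 1) * p ^ ((p - 2) * d) : ℕ) : ℝ) ≤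
      p * (Real.log D + d * L) := by
    push_cast
    rw [Real.log_mul (pow_pos (by linarith) _).ne' (pow_pos hp0 _).ne', Real.log_pow,
      Real.log_pow, ← hL]
    have e1 : ((p - 1 : ℕ) : ℝ) ≤ p := by exact_mod_cast Nat.sub_le _ _
    have e2 : (((p - 2) * d : ℕ) : ℝ) ≤ p * d := by
      exact_mod_cast Nat.mul_le_mul_right d (Nat.sub_le p 2)
    have e3 := mul_le_mul_of_nonneg_right e1 (Real.log_nonneg hDr)
    have e4 := mul_le_mul_of_nonneg_right e2 hL0.le
    linarith
  have hY : (((p - 1) * d : ℕ) : ℝ) * Real.log (1 + L) ≤ p * d * Real.log (1 + L) := by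
    have e2 : (((p - 1) * d : ℕ) : ℝ) ≤ p * d := by
      exact_mod_cast Nat.mul_le_mul_right d (Nat.sub_le p 1)
    exact mul_le_mul_of_nonneg_right e2 (Real.log_nonneg (by linarith))
  have hs0 : 0 ≤ 1 + 1 / L := by positivity
  have hfin : (k : ℝ) * L ≤ p * L * ((1 + 1 / L) / 2 * (Real.log D / L + d) +
      d * (Real.log (1 + L) / L)) := by
    have e5 : (p : ℝ) * L * ((1 + 1 / L) / 2 * (Real.log D / L + d) +
      d * (Real.log (1 + L) / L)) = (1 + 1 / L) * (p * (Real.log D + d * L) / 2) +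
        p * d * Real.log (1 + L) := by
      field_simp
    rw [e5]
    have e6 := mul_le_mul_of_nonneg_left (div_le_div_of_nonneg_right hXl (by norm_num :
      (0 : ℝ) ≤ 2)) hs0
    linarith
  have hfin2 : (k : ℝ) * L ≤ p * L * ((1 / 2 + ε) * d) :=
    hfin.trans (mul_le_mul_of_nonneg_left h1.le (by positivity))
  have : (k : ℝ) * L ≤ ((1 / 2 + ε) * d * p) * L := by linarith
  exact le_of_mul_le_mul_right this hL0

end Pool.Agent.Work.MP_59f3ad_nt.US.H
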