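import Pool.Agent.Work.MP_59f3ad_nt.US.H.Stmts

/-!
# Item Hr: the class number formula for a CM field and its maximal real subfield
-/

set_option autoImplicit false

open NumberField IsDedekindDomain

namespace Pool.Agent.Work.MP_59f3ad_nt.US.H

namespace XHr

theorem alg {h hp R Rp w wp s t Q B P T : ℝ} (hR : R / Rp = T * Q⁻¹) (hRp : 0 < Rp) (hw : 0 < w)
    (hwp : 2 ≤ wp) (hs : 0 < s) (ht : 0 < t) (hQ : 0 < Q) (hQ2 : Q ≤ 2) (hhp : 0 < hp) (hh : 0 < h)
    (hP : 1 ≤ P) (hT : 0 < T)
    (hκ : (P * R * h) / (w * (s * t)) ≤ B * ((2 * T * Rp * hp) / (wp * t))) :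
    h ≤ 2 * w * s * B * hp := by
  have hR' : R = T * Q⁻¹ * Rp := by
    rw [← hR, div_mul_cancel₀ _ hRp.ne']
  have hwp0 : 0 < wp := by linarith
  have hP0 : 0 < P := by linarith
  have hRpos : 0 < R := by rw [hR']; positivity
  have hB : 0 < B := by
    have h1 : 0 < (P * R * h) / (w * (s * t)) := by positivity
    have h2 : 0 < B * ((2 * T * Rp * hp) / (wp * t)) := lt_of_lt_of_le h1 hκ
    have h3 : 0 < (2 * T * Rp * hp) / (wp * t) := by positivity
    exact (pos_iff_pos_of_mul_pos h2).2 h3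
  rw [← mul_div_assoc, div_le_div_iff₀ (by positivity) (by positivity), hR'] at hκ
  have h1 : (P * h * wp) * (T * Rp * t * Q⁻¹) ≤ (2 * B * hp * w * s * Q) * (T * Rp * t * Q⁻¹) := by
    have e1 : (P * h * wp) * (T * Rp * t * Q⁻¹) = P * (T * Q⁻¹ * Rp) * h * (wp * t) := by ring
    have e2 : (2 * B * hp * w * s * Q) * (T * Rp * t * Q⁻¹) =
        B * (2 * T * Rp * hp) * (w * (s * t)) := by
      field_simp
    rw [e1, e2]
    exact hκ
  have h2 : P * h * wp ≤ 2 * B * hp * w * s * Q := le_of_mul_le_mul_right h1 (by positivity)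
  have h3 : h * 2 ≤ P * h * wp := by
    have h4 : h ≤ P * h := le_mul_of_one_le_left hh.le hP
    exact mul_le_mul h4 hwp (by norm_num) (by positivity)
  have h4 : 2 * B * hp * w * s * Q ≤ 2 * B * hp * w * s * 2 :=
    mul_le_mul_of_nonneg_left hQ2 (by positivity)
  linarith

theorem sq {d n e : ℝ} (hn : 0 ≤ n) (he : 0 ≤ e) (hd : d = n * e ^ 2) :
    Real.sqrt d = (d * n) ^ (1 / 4 : ℝ) * Real.sqrt e := by
  have h1 : (d * n) ^ (1 / 4 : ℝ) = Real.sqrt (n * e) := by
    have h2 : d * n = (n * e) ^ (2 : ℝ) := by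
      rw [hd, Real.rpow_two]
      ring
    rw [h2, ← Real.rpow_mul (mul_nonneg hn he), Real.sqrt_eq_rpow]
    norm_num
  rw [h1, hd, Real.sqrt_mul hn, Real.sqrt_mul hn, Real.sqrt_sq he, mul_assoc,
    Real.mul_self_sqrt he]

end XHr

theorem prf_Hr : Hr := by
  intro K _ _ _ B hB
  have hNr : InfinitePlace.nrRealPlaces K = 0 := IsTotallyComplex.nrRealPlaces_eq_zero K
  have hNc : InfinitePlace.nrComplexPlaces (maximalRealSubfield K) = 0 :=
    IsTotallyReal.nrComplexPlaces_eq_zero (maximalRealSubfield K)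
  have hcard := IsCMField.card_infinitePlace_eq_card_infinitePlace K
  rw [InfinitePlace.card_eq_nrRealPlaces_add_nrComplexPlaces,
    InfinitePlace.card_eq_nrRealPlaces_add_nrComplexPlaces, hNr, hNc, zero_add, add_zero] at hcard
  have hrank : Units.rank K = InfinitePlace.nrComplexPlaces K - 1 := by
    rw [Units.rank, InfinitePlace.card_eq_nrRealPlaces_add_nrComplexPlaces, hNr, zero_add]
  have hNpos : 1 ≤ InfinitePlace.nrComplexPlaces K := by
    have h1 : 0 < Fintype.card (InfinitePlace K) := Fintype.card_pos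
    rw [InfinitePlace.card_eq_nrRealPlaces_add_nrComplexPlaces, hNr, zero_add] at h1
    exact h1
  have hreg := IsCMField.regulator_div_regulator_eq_two_pow_mul_indexRealUnits_inv K
  rw [hrank] at hreg
  have hd := natAbs_discr_eq_absNorm_differentIdeal_mul_natAbs_discr_pow (maximalRealSubfield K)
    (𝓞 (maximalRealSubfield K)) K (𝓞 K)
  rw [Algebra.IsQuadraticExtension.finrank_eq_two (maximalRealSubfield K) K] at hd
  have hdK : (((discr K).natAbs : ℕ) : ℝ) = |(discr K : ℝ)| := by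
    rw [Nat.cast_natAbs, Int.cast_abs]
  have hdF : (((discr (maximalRealSubfield K)).natAbs : ℕ) : ℝ) =
      |(discr (maximalRealSubfield K) : ℝ)| := by
    rw [Nat.cast_natAbs, Int.cast_abs]
  have hd' : |(discr K : ℝ)| =
      (Ideal.absNorm (differentIdeal (𝓞 (maximalRealSubfield K)) (𝓞 K)) : ℝ) *
        |(discr (maximalRealSubfield K) : ℝ)| ^ 2 := by
    rw [← hdK, ← hdF, hd]
    push_cast
    ring
  have hKpos : 0 < |(discr K : ℝ)| := abs_pos.2 (Int.cast_ne_zero.2 (discr_ne_zero K))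
  have hFpos : 0 < |(discr (maximalRealSubfield K) : ℝ)| :=
    abs_pos.2 (Int.cast_ne_zero.2 (discr_ne_zero _))
  have hnpos : 0 < (Ideal.absNorm (differentIdeal (𝓞 (maximalRealSubfield K)) (𝓞 K)) : ℝ) := by
    rcases (Nat.cast_nonneg (α := ℝ) (Ideal.absNorm (differentIdeal (𝓞 (maximalRealSubfield K))
      (𝓞 K)))).eq_or_lt with h | h
    · rw [← h, zero_mul] at hd'
      linarith
    · exact h
  have hsq := XHr.sq hnpos.le hFpos.le hd'
  rw [hdK]
  have hwF : (2 : ℝ) ≤ Units.torsionOrder (maximalRealSubfield K) := by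
    have h1 := Units.even_torsionOrder (maximalRealSubfield K)
    have h2 := Units.torsionOrder_pos (maximalRealSubfield K)
    obtain ⟨r, hr⟩ := h1
    have h3 : 2 ≤ Units.torsionOrder (maximalRealSubfield K) := by omega
    exact_mod_cast h3
  have hQ := IsCMField.indexRealUnits_eq_one_or_two K
  have hQ1 : (0 : ℝ) < (IsCMField.indexRealUnits K : ℝ) := by
    rcases hQ with h | h <;> rw [h] <;> norm_num
  have hQ2 : (IsCMField.indexRealUnits K : ℝ) ≤ 2 := by
    rcases hQ with h | h <;> rw [h] <;> norm_num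
  have hP : (1 : ℝ) ≤ (2 * Real.pi) ^ InfinitePlace.nrComplexPlaces K := by
    refine one_le_pow₀ ?_
    linarith [Real.pi_gt_three]
  have h2N : (2 : ℝ) ^ InfinitePlace.nrComplexPlaces K =
      2 * 2 ^ (InfinitePlace.nrComplexPlaces K - 1) := by
    rw [← pow_succ']
    congr 1
    omega
  rw [dedekindZeta_residue_def, dedekindZeta_residue_def, hNr, hNc, pow_zero, pow_zero, one_mul,
    mul_one, hcard, hsq, h2N] at hB
  refine XHr.alg (R := Units.regulator K) (Rp := Units.regulator (maximalRealSubfield K))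
    (w := Units.torsionOrder K) (wp := Units.torsionOrder (maximalRealSubfield K))
    (t := Real.sqrt |(discr (maximalRealSubfield K) : ℝ)|)
    (Q := IsCMField.indexRealUnits K) (P := (2 * Real.pi) ^ InfinitePlace.nrComplexPlaces K)
    (T := 2 ^ (InfinitePlace.nrComplexPlaces K - 1)) hreg (Units.regulator_pos _)
    (Nat.cast_pos.2 (Units.torsionOrder_pos K)) hwF (Real.rpow_pos_of_pos (by positivity) _)
    (Real.sqrt_pos.2 hFpos) hQ1 hQ2 (Nat.cast_pos.2 (classNumber_pos _))
    (Nat.cast_pos.2 (classNumber_pos _)) hP (by positivity) ?_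
  exact hB

end Pool.Agent.Work.MP_59f3ad_nt.US.H
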