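import Pool.Agent.Work.MP_59f3ad_nt.US.H.Stmts

set_option autoImplicit false

/-! Item Sp2 (helper70): splitting in the subfield of index two. -/

open NumberField IsDedekindDomain Polynomial

namespace Pool.Agent.Work.MP_59f3ad_nt.US.H

namespace XSp2

section field

variable {k : Type*} [Field k]

lemma fac {u w : k} (hu : u ≠ 0) (hw : w ≠ 0) :
    u + u⁻¹ = w + w⁻¹ ↔ u = w ∨ u * w = 1 := by
  have h1 : (u + u⁻¹ - (w + w⁻¹)) * (u * w) = (u - w) * (u * w - 1) := by
    field_simp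
    ring
  have h2 : u * w ≠ 0 := mul_ne_zero hu hw
  constructor
  · intro h
    rw [h, sub_self, zero_mul] at h1
    rcases mul_eq_zero.1 h1.symm with h3 | h3
    · exact Or.inl (sub_eq_zero.1 h3)
    · exact Or.inr (sub_eq_zero.1 h3)
  · intro h
    have h3 : (u - w) * (u * w - 1) = 0 := by
      rcases h with h | h
      · rw [h, sub_self, zero_mul]
      · rw [h, sub_self, mul_zero]
    rw [h3] at h1
    exact sub_eq_zero.1 ((mul_eq_zero.1 h1).resolve_right h2)

lemma inv_pow {p : ℕ} (hp : 1 ≤ p) {z : k} (hz : z ^ p = 1) (j : ℕ) :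
    z ^ (j * (p - 1)) = (z ^ j)⁻¹ := by
  refine eq_inv_of_mul_eq_one_left ?_
  rw [← pow_add, show j * (p - 1) + j = p * j by
    obtain ⟨q, rfl⟩ := Nat.exists_eq_add_of_le' hp
    rw [Nat.add_sub_cancel]; ring, pow_mul, hz, one_pow]

lemma inj {p : ℕ} (hp : p.Prime) {z : k} (hz : IsPrimitiveRoot z p) (i j : ℕ)
    (hi : i ∈ Finset.Icc 1 ((p - 1) / 2)) (hj : j ∈ Finset.Icc 1 ((p - 1) / 2))
    (h : z ^ i + z ^ (i * (p - 1)) = z ^ j + z ^ (j * (p - 1))) : i = j := by
  rw [Finset.mem_Icc] at hi hj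
  have hz0 : z ≠ 0 := hz.ne_zero hp.ne_zero
  rw [inv_pow hp.one_le hz.pow_eq_one, inv_pow hp.one_le hz.pow_eq_one,
    fac (pow_ne_zero _ hz0) (pow_ne_zero _ hz0)] at h
  rcases h with h | h
  · exact hz.pow_inj (by omega) (by omega) h
  · exfalso
    rw [← pow_add] at h
    have h1 := (hz.pow_eq_one_iff_dvd _).1 h
    have h2 := Nat.le_of_dvd (by omega) h1
    omega

/-- the condition on the exponent -/
lemma exponent {p : ℕ} (hp : p.Prime) {z : k} (hz : IsPrimitiveRoot z p) (m : ℕ) :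
    z ^ m + (z ^ m)⁻¹ = z + z⁻¹ ↔ (m : ZMod p) = 1 ∨ (m : ZMod p) = -1 := by
  have hz0 : z ≠ 0 := hz.ne_zero hp.ne_zero
  rw [fac (pow_ne_zero _ hz0) hz0]
  refine or_congr ?_ ?_
  · have h1 : z ^ m = z ↔ z ^ (m + (p - 1)) = 1 := by
      have h2 : z ^ (p - 1) * z = 1 := by
        rw [← pow_succ, Nat.sub_add_cancel hp.one_le, hz.pow_eq_one]
      constructor
      · intro h
        rw [pow_add, h, mul_comm, h2]
      · intro h
        have h3 : z ^ m * (z ^ (p - 1) * z) = z := by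
          rw [← mul_assoc, ← pow_add, h, one_mul]
        rwa [h2, mul_one] at h3
    rw [h1, hz.pow_eq_one_iff_dvd, ← ZMod.natCast_eq_zero_iff, Nat.cast_add,
      Nat.cast_sub hp.one_le, ZMod.natCast_self, zero_sub, Nat.cast_one, ← sub_eq_add_neg,
      sub_eq_zero]
  · rw [← pow_succ, hz.pow_eq_one_iff_dvd, ← ZMod.natCast_eq_zero_iff, Nat.cast_add, Nat.cast_one,
      eq_neg_iff_add_eq_zero]

end field

/-- group theory -/
lemma grp {p : ℕ} [Fact p.Prime] (a : (ZMod p)ˣ) (f' : ℕ)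
    (hf : f' = (if Even (orderOf a) then orderOf a / 2 else orderOf a)) (j : ℕ) :
    ((a : ZMod p) ^ j = 1 ∨ (a : ZMod p) ^ j = -1) ↔ f' ∣ j := by
  have h1 : ((a : ZMod p) ^ j = 1 ∨ (a : ZMod p) ^ j = -1) ↔ a ^ (2 * j) = 1 := by
    rw [← mul_self_eq_one_iff, Units.ext_iff, Units.val_pow_eq_pow_val, Units.val_one, two_mul,
      pow_add]
  rw [h1, ← orderOf_dvd_iff_pow_eq_one, hf]
  split_ifs with he
  · obtain ⟨c, hc⟩ := he
    rw [hc, show (c + c) / 2 = c by omega, ← two_mul]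
    exact Nat.mul_dvd_mul_iff_left (by norm_num)
  · have h2 : Nat.Coprime (orderOf a) 2 := by
      rw [Nat.coprime_two_right]
      exact Nat.not_even_iff_odd.1 he
    exact ⟨fun h => h2.dvd_of_dvd_mul_left h, fun h => h.mul_left 2⟩

/-- a polynomial over `L` with the root `ζ + ζ⁻¹` has all the conjugates as roots -/
lemma conj_root {L K : Type*} [Field L] [Field K] [Algebra L K] [FiniteDimensional L K] {p : ℕ}
    [Fact p.Prime] [IsCyclotomicExtension {p} L K] (hdeg : Module.finrank L K = p - 1) {ζ : K}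
    (hζ : IsPrimitiveRoot ζ p) (P : L[X]) (hP : aeval (ζ + ζ ^ (p - 1)) P = 0) (j : ℕ)
    (hj : j ∈ Finset.Icc 1 ((p - 1) / 2)) :
    aeval (ζ ^ j + ζ ^ (j * (p - 1))) P = 0 := by
  have hp : p.Prime := Fact.out
  have hp2 := hp.two_le
  have : NeZero p := ⟨hp.ne_zero⟩
  rw [Finset.mem_Icc] at hj
  have hint : IsIntegral L ζ := IsIntegral.of_finite L ζ
  have hdvd : minpoly L ζ ∣ cyclotomic p L := by
    apply minpoly.dvd
    rw [aeval_def, ← eval_map, map_cyclotomic]
    exact (hζ.isRoot_cyclotomic hp.pos)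
  have hnat : (minpoly L ζ).natDegree = p - 1 := by
    rw [← hdeg]
    refine (Field.primitive_element_iff_minpoly_natDegree_eq L ζ).1 ?_
    rw [← IntermediateField.toSubalgebra_inj,
      IntermediateField.adjoin_simple_toSubalgebra_of_isAlgebraic hint.isAlgebraic,
      IsCyclotomicExtension.adjoin_primitive_root_eq_top hζ]
    rfl
  have hcyc : cyclotomic p L = minpoly L ζ := by
    refine eq_of_monic_of_dvd_of_natDegree_le (minpoly.monic hint) (cyclotomic.monic p L) hdvd ?_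
    rw [natDegree_cyclotomic, hnat, Nat.totient_prime hp]
  have h1 : minpoly L ζ ∣ P.comp (X + X ^ (p - 1)) := by
    apply minpoly.dvd
    rw [aeval_comp, map_add, map_pow, aeval_X, hP]
  obtain ⟨Q, hQ⟩ := h1
  have h2 : aeval (ζ ^ j) (P.comp (X + X ^ (p - 1))) = 0 := by
    rw [hQ, ← hcyc, map_mul]
    have h3 : aeval (ζ ^ j) (cyclotomic p L) = 0 := by
      rw [aeval_def, ← eval_map, map_cyclotomic]
      refine IsPrimitiveRoot.isRoot_cyclotomic hp.pos (hζ.pow_of_coprime j ?_)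
      exact (Nat.coprime_of_lt_prime (by omega) (by omega) hp).symm
    rw [h3, zero_mul]
  rw [aeval_comp, map_add, map_pow, aeval_X, ← pow_mul] at h2
  exact h2

/-- the minimal polynomial as a product -/
lemma prodform {L F K : Type*} [Field L] [Field F] [Field K] [Algebra L F] [Algebra F K]
    [Algebra L K] [IsScalarTower L F K] [FiniteDimensional L K] {p : ℕ} [Fact p.Prime]
    [IsCyclotomicExtension {p} L K] (hdeg : Module.finrank L K = p - 1)
    (hFK : Module.finrank F K = 2) {ζ : K} (hζ : IsPrimitiveRoot ζ p) (η : F)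
    (hη : algebraMap F K η = ζ + ζ⁻¹) :
    Module.finrank L F = (p - 1) / 2 ∧ (minpoly L η).natDegree = Module.finrank L F ∧
      (minpoly L η).map (algebraMap L K) =
        ∏ j ∈ Finset.Icc 1 ((p - 1) / 2), (X - C (ζ ^ j + ζ ^ (j * (p - 1)))) := by
  have hp : p.Prime := Fact.out
  have : FiniteDimensional L F := FiniteDimensional.left L F K
  have hF : Module.finrank L F = (p - 1) / 2 := by
    have h := Module.finrank_mul_finrank L F K
    rw [hdeg, hFK] at h
    omega
  have hint : IsIntegral L η := IsIntegral.of_finite L η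
  have hle : (minpoly L η).natDegree ≤ (p - 1) / 2 := hF ▸ minpoly.natDegree_le η
  have h0 : aeval (ζ + ζ ^ (p - 1)) (minpoly L η) = 0 := by
    have h1 : ζ ^ (p - 1) = ζ⁻¹ := by
      have := inv_pow hp.one_le hζ.pow_eq_one 1
      rwa [one_mul, pow_one] at this
    rw [h1, ← hη, aeval_algebraMap_apply, minpoly.aeval, map_zero]
  have hroots := conj_root (L := L) hdeg hζ (minpoly L η) h0
  have hmon : ((minpoly L η).map (algebraMap L K)).Monic := (minpoly.monic hint).map _
  have hdvd : (∏ j ∈ Finset.Icc 1 ((p - 1) / 2), (X - C (ζ ^ j + ζ ^ (j * (p - 1)))) : K[X]) ∣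
      (minpoly L η).map (algebraMap L K) := by
    refine Finset.prod_dvd_of_coprime (fun i hi j hj hij => ?_) (fun j hj => ?_)
    · refine isCoprime_X_sub_C_of_isUnit_sub (IsUnit.mk0 _ (sub_ne_zero.2 fun h => hij ?_))
      exact inj hp hζ i j (Finset.mem_coe.1 hi) (Finset.mem_coe.1 hj) h
    · rw [dvd_iff_isRoot, IsRoot.def, eval_map, ← aeval_def]
      exact hroots j hj
  have hmon2 : (∏ j ∈ Finset.Icc 1 ((p - 1) / 2),
      (X - C (ζ ^ j + ζ ^ (j * (p - 1)))) : K[X]).Monic :=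
    monic_prod_of_monic _ _ fun j _ => monic_X_sub_C _
  have hnd : (∏ j ∈ Finset.Icc 1 ((p - 1) / 2),
      (X - C (ζ ^ j + ζ ^ (j * (p - 1)))) : K[X]).natDegree = (p - 1) / 2 := by
    rw [natDegree_prod_of_monic _ _ fun j _ => monic_X_sub_C _]
    simp only [natDegree_X_sub_C, Finset.sum_const, Nat.card_Icc, smul_eq_mul, mul_one]
    omega
  have heq := eq_of_monic_of_dvd_of_natDegree_le hmon2 hmon hdvd (by
    rw [hnd, natDegree_map]
    exact hle)
  refine ⟨hF, ?_, heq⟩
  have h2 := congrArg natDegree heq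
  rw [natDegree_map, hnd] at h2
  rw [h2, hF]

/-- the degree of the residue field -/
lemma deg_field {k E M : Type*} [Field k] [Field E] [Field M] [Algebra k E] [Algebra E M]
    [Algebra k M] [IsScalarTower k E M] [Fintype k] [Finite E] {p : ℕ} [Fact p.Prime] (z : M)
    (hz : IsPrimitiveRoot z p) (e : E) (he : algebraMap E M e = z + z⁻¹)
    (hgen : Algebra.adjoin k {e} = ⊤) (a : (ZMod p)ˣ) (f' : ℕ)
    (ha : (a : ZMod p) = (Fintype.card k : ZMod p))
    (hf : f' = (if Even (orderOf a) then orderOf a / 2 else orderOf a)) :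
    Module.finrank k E = f' := by
  have hp : p.Prime := Fact.out
  rw [← FiniteField.orderOf_frobeniusAlgHom k E]
  have key : ∀ j : ℕ, orderOf (FiniteField.frobeniusAlgHom k E) ∣ j ↔ f' ∣ j := by
    intro j
    rw [orderOf_dvd_iff_pow_eq_one, ← grp a f' hf j, ha, ← Nat.cast_pow,
      ← exponent hp hz (Fintype.card k ^ j)]
    have happ : ∀ x : E, (FiniteField.frobeniusAlgHom k E ^ j) x = x ^ (Fintype.card k ^ j) := by
      intro x
      rw [AlgHom.coe_pow, FiniteField.coe_frobeniusAlgHom, pow_iterate]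
    have hM : (z + z⁻¹) ^ (Fintype.card k ^ j) =
        z ^ (Fintype.card k ^ j) + (z ^ (Fintype.card k ^ j))⁻¹ := by
      have h1 : ∀ x : M, (FiniteField.frobeniusAlgHom k M ^ j) x = x ^ (Fintype.card k ^ j) := by
        intro x
        rw [AlgHom.coe_pow, FiniteField.coe_frobeniusAlgHom, pow_iterate]
      rw [← h1, map_add, h1, h1, _root_.inv_pow]
    have h2 : (FiniteField.frobeniusAlgHom k E ^ j) = 1 ↔ e ^ (Fintype.card k ^ j) = e := by
      constructor
      · intro h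
        rw [← happ, h, AlgHom.one_apply]
      · intro h
        refine AlgHom.ext_of_adjoin_eq_top hgen ?_
        rintro x rfl
        rw [happ, AlgHom.one_apply]
        exact h
    rw [h2, ← hM, ← he, ← map_pow]
    exact (algebraMap E M).injective.eq_iff.symm
  exact Nat.dvd_antisymm ((key f').2 dvd_rfl) ((key _).1 dvd_rfl)

section nf

variable {L F K : Type} [Field L] [NumberField L] [Field F] [NumberField F] [Field K]
  [NumberField K] [Algebra L F] [Algebra F K] [Algebra L K] [IsScalarTower L F K] {p : ℕ}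
  [Fact p.Prime]

/-- the prime `p` is not in `q` -/
lemma p_not_mem (q : HeightOneSpectrum (𝓞 L)) (a : (ZMod p)ˣ)
    (ha : (a : ZMod p) = (Ideal.absNorm q.asIdeal : ZMod p)) : (p : 𝓞 L) ∉ q.asIdeal := by
  have hp : p.Prime := Fact.out
  intro hmem
  have h1 : ¬ p ∣ Ideal.absNorm q.asIdeal := by
    intro h
    rw [← ZMod.natCast_eq_zero_iff, ← ha] at h
    exact a.ne_zero h
  have h2 : Nat.Coprime p (Ideal.absNorm q.asIdeal) := (hp.coprime_iff_not_dvd).2 h1
  have h3 := (Nat.isCoprime_iff_coprime.2 h2).map (Int.castRingHom (𝓞 L))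
  obtain ⟨u, v, huv⟩ := h3
  have h4 : (1 : 𝓞 L) ∈ q.asIdeal := by
    rw [← huv]
    refine q.asIdeal.add_mem (q.asIdeal.mul_mem_left _ ?_) (q.asIdeal.mul_mem_left _ ?_)
    · simpa using hmem
    · simpa using Ideal.absNorm_mem q.asIdeal
  exact q.isPrime.ne_top ((Ideal.eq_top_iff_one _).2 h4)

/-- the roots of unity modulo a prime not above `p` -/
lemma prim (v : Ideal (𝓞 K)) [v.IsMaximal] (hv : (p : 𝓞 K) ∉ v) (z : 𝓞 K)
    (hz : IsPrimitiveRoot z p) : IsPrimitiveRoot (Ideal.Quotient.mk v z) p := by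
  have hp : p.Prime := Fact.out
  have h1 : Ideal.Quotient.mk v z ≠ 1 := by
    intro h
    have h2 : eval z (cyclotomic p (𝓞 K)) = 0 := hz.isRoot_cyclotomic hp.pos
    have h3 := congrArg (Ideal.Quotient.mk v) h2
    rw [map_zero, ← eval₂_at_apply, ← eval_map, map_cyclotomic, h, eval_one_cyclotomic_prime] at h3
    refine hv (Ideal.Quotient.eq_zero_iff_mem.1 ?_)
    rw [map_natCast]
    exact h3
  have h2 : orderOf (Ideal.Quotient.mk v z) = p :=
    orderOf_eq_prime (by rw [← map_pow, hz.pow_eq_one, map_one]) h1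
  have h3 := IsPrimitiveRoot.orderOf (Ideal.Quotient.mk v z)
  rwa [h2] at h3

/-- the product formula over the integers -/
lemma prodint [IsCyclotomicExtension {p} L K] (hdeg : Module.finrank L K = p - 1)
    (hFK : Module.finrank F K = 2) (z : 𝓞 K) (hz : IsPrimitiveRoot (z : K) p) (θ : 𝓞 F)
    (hθ : algebraMap F K (θ : F) = (z : K) + (z : K)⁻¹) :
    (minpoly (𝓞 L) θ).map (algebraMap (𝓞 L) (𝓞 K)) =
      ∏ j ∈ Finset.Icc 1 ((p - 1) / 2), (X - C (z ^ j + z ^ (j * (p - 1)))) := by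
  have hint : IsIntegral (𝓞 L) θ := Algebra.IsIntegral.isIntegral θ
  have h1 := minpoly.isIntegrallyClosed_eq_field_fractions L F hint
  have h2 := (prodform (L := L) (F := F) (K := K) hdeg hFK hz (θ : F) hθ).2.2
  have hinj : Function.Injective (algebraMap (𝓞 K) K) := FaithfulSMul.algebraMap_injective _ _
  apply Polynomial.map_injective _ hinj
  rw [Polynomial.map_map, ← IsScalarTower.algebraMap_eq, IsScalarTower.algebraMap_eq (𝓞 L) L K,
    ← Polynomial.map_map, ← h1]
  refine h2.trans ?_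
  rw [Polynomial.map_prod]
  refine Finset.prod_congr rfl fun j _ => ?_
  have h3 : algebraMap (𝓞 K) K (z ^ j + z ^ (j * (p - 1))) =
      (z : K) ^ j + (z : K) ^ (j * (p - 1)) := by
    rw [map_add, map_pow, map_pow]
  rw [Polynomial.map_sub, map_X, map_C, h3]

/-- the value modulo `v` of `θ` -/
lemma val_theta (v : Ideal (𝓞 K)) [v.IsMaximal] (z : 𝓞 K) (hz : IsPrimitiveRoot z p)
    (θ : 𝓞 F) (hθ : algebraMap F K (θ : F) = (z : K) + (z : K)⁻¹) :
    letI := Ideal.Quotient.field v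
    Ideal.Quotient.mk v (algebraMap (𝓞 F) (𝓞 K) θ) =
      Ideal.Quotient.mk v z + (Ideal.Quotient.mk v z)⁻¹ := by
  let := Ideal.Quotient.field v
  have hp : p.Prime := Fact.out
  have h1 : algebraMap (𝓞 F) (𝓞 K) θ = z + z ^ (p - 1) := by
    apply RingOfIntegers.ext
    have h2 : (z : K) ^ (p - 1) = (z : K)⁻¹ := by
      have h3 : (z : K) ^ p = 1 := by
        have := congrArg (algebraMap (𝓞 K) K) hz.pow_eq_one
        rwa [map_pow, map_one] at this
      have := inv_pow hp.one_le h3 1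
      rwa [one_mul, pow_one] at this
    have h4 : ((z + z ^ (p - 1) : 𝓞 K) : K) = (z : K) + (z : K) ^ (p - 1) := by
      push_cast
      rfl
    rw [h4, h2, ← hθ]
    rfl
  rw [h1, map_add, map_pow]
  congr 1
  have h3 : (Ideal.Quotient.mk v z) ^ p = 1 := by
    rw [← map_pow, hz.pow_eq_one, map_one]
  have := inv_pow hp.one_le h3 1
  rwa [one_mul, pow_one] at this

/-- one prime above `q` -/
lemma one_prime (hKD : KD) [IsCyclotomicExtension {p} L K]
    (hdeg : Module.finrank L K = p - 1)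
    (hFK : Module.finrank F K = 2) (z : 𝓞 K) (hz : IsPrimitiveRoot (z : K) p) (θ : 𝓞 F)
    (hθ : algebraMap F K (θ : F) = (z : K) + (z : K)⁻¹) (q : HeightOneSpectrum (𝓞 L))
    (a : (ZMod p)ˣ) (f' : ℕ) (ha : (a : ZMod p) = (Ideal.absNorm q.asIdeal : ZMod p))
    (hf : f' = (if Even (orderOf a) then orderOf a / 2 else orderOf a))
    (w : Ideal (𝓞 F)) [w.IsMaximal] [hw : w.LiesOver q.asIdeal] :
    w.ramificationIdx (𝓞 L) = 1 ∧ w.inertiaDeg (𝓞 L) = f' := by
  have hp : p.Prime := Fact.out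
  obtain ⟨v, hv1, hv2⟩ := Ideal.exists_maximal_ideal_liesOver_of_isIntegral w (S := 𝓞 K)
  have hvq : v.LiesOver q.asIdeal := Ideal.LiesOver.trans v w q.asIdeal
  have hqm : q.asIdeal.IsMaximal := q.isMaximal
  have hzp : IsPrimitiveRoot z p := by
    have hinj : Function.Injective (algebraMap (𝓞 K) K) := FaithfulSMul.algebraMap_injective _ _
    exact IsPrimitiveRoot.of_map_of_injective (f := algebraMap (𝓞 K) K) hz hinj
  have hpv : (p : 𝓞 K) ∉ v := by
    intro h
    refine p_not_mem q a ha ?_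
    rw [hvq.over, Ideal.mem_comap, map_natCast]
    exact h
  have hzv := prim v hpv z hzp
  let : Field (𝓞 K ⧸ v) := Ideal.Quotient.field v
  let : Field (𝓞 F ⧸ w) := Ideal.Quotient.field w
  let : Field (𝓞 L ⧸ q.asIdeal) := Ideal.Quotient.field q.asIdeal
  have hsep : ((minpoly (𝓞 L) θ).map (Ideal.Quotient.mk q.asIdeal)).Separable := by
    rw [← separable_map (algebraMap (𝓞 L ⧸ q.asIdeal) (𝓞 K ⧸ v)), Polynomial.map_map]
    have h1 : (algebraMap (𝓞 L ⧸ q.asIdeal) (𝓞 K ⧸ v)).comp (Ideal.Quotient.mk q.asIdeal) =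
        (Ideal.Quotient.mk v).comp (algebraMap (𝓞 L) (𝓞 K)) := by
      ext x
      rfl
    rw [h1, ← Polynomial.map_map, prodint hdeg hFK z hz θ hθ, Polynomial.map_prod]
    have h2 : ∀ j ∈ Finset.Icc 1 ((p - 1) / 2),
        (X - C (z ^ j + z ^ (j * (p - 1))) : (𝓞 K)[X]).map (Ideal.Quotient.mk v) =
        X - C ((Ideal.Quotient.mk v z) ^ j + (Ideal.Quotient.mk v z) ^ (j * (p - 1))) := by
      intro j _
      have h3 : Ideal.Quotient.mk v (z ^ j + z ^ (j * (p - 1))) =
          (Ideal.Quotient.mk v z) ^ j + (Ideal.Quotient.mk v z) ^ (j * (p - 1)) := by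
        rw [map_add, map_pow, map_pow]
      rw [Polynomial.map_sub, map_X, map_C, h3]
    rw [Finset.prod_congr rfl h2]
    exact separable_prod_X_sub_C_iff'.2 fun i hi j hj h => inj hp hzv i j hi hj h
  have hadj : Algebra.adjoin L {(θ : F)} = ⊤ := by
    have h1 := (prodform (L := L) (F := F) (K := K) hdeg hFK hz (θ : F) hθ).2.1
    have h2 := (Field.primitive_element_iff_minpoly_natDegree_eq L (θ : F)).2 h1
    rw [← IntermediateField.adjoin_simple_toSubalgebra_of_isAlgebraic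
      (IsIntegral.of_finite L (θ : F)).isAlgebraic, h2]
    rfl
  have hk := hKD L F θ q.asIdeal q.ne_bot hadj hsep w hw.over.symm
  refine ⟨hk.1, ?_⟩
  rw [Ideal.inertiaDeg_eq_of_isMaximal q.asIdeal w]
  have : Fintype (𝓞 L ⧸ q.asIdeal) := Fintype.ofFinite _
  have : IsScalarTower (𝓞 L ⧸ q.asIdeal) (𝓞 F ⧸ w) (𝓞 K ⧸ v) := by
    refine IsScalarTower.of_algebraMap_eq fun x => ?_
    obtain ⟨x, rfl⟩ := Ideal.Quotient.mk_surjective x
    change Ideal.Quotient.mk v (algebraMap (𝓞 L) (𝓞 K) x) =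
      Ideal.Quotient.mk v (algebraMap (𝓞 F) (𝓞 K) (algebraMap (𝓞 L) (𝓞 F) x))
    rw [← IsScalarTower.algebraMap_apply]
  refine deg_field (k := 𝓞 L ⧸ q.asIdeal) (E := 𝓞 F ⧸ w) (M := 𝓞 K ⧸ v)
    (Ideal.Quotient.mk v z) hzv (Ideal.Quotient.mk w θ) ?_ ?_ a f' ?_ hf
  · exact val_theta v z hzp θ hθ
  · refine Algebra.eq_top_iff.2 fun x => ?_
    obtain ⟨x, rfl⟩ := Ideal.Quotient.mk_surjective x
    obtain ⟨y, hy, hxy⟩ := hk.2 x
    rw [Ideal.Quotient.eq.2 hxy]
    clear hxy
    induction hy using Algebra.adjoin_induction with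
    | mem x hx =>
      rw [Set.mem_singleton_iff.1 hx]
      exact Algebra.subset_adjoin rfl
    | algebraMap r =>
      have h1 : Ideal.Quotient.mk w (algebraMap (𝓞 L) (𝓞 F) r) =
          algebraMap (𝓞 L ⧸ q.asIdeal) (𝓞 F ⧸ w) (Ideal.Quotient.mk q.asIdeal r) := rfl
      rw [h1]
      exact Subalgebra.algebraMap_mem _ _
    | add x y _ _ hx hy =>
      rw [map_add]
      exact Subalgebra.add_mem _ hx hy
    | mul x y _ _ hx hy =>
      rw [map_mul]
      exact Subalgebra.mul_mem _ hx hy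
  · rw [ha, Ideal.absNorm_apply, Submodule.cardQuot_apply, Nat.card_eq_fintype_card]

end nf

end XSp2

open XSp2 in
/-- **Sp2** -/
theorem prf_Sp2 : Sp2 := by
  intro hKD L F K _ _ _ _ _ _ _ _ _ _ p _ hp2 _ hdeg hFK hex q a f' ha hf
  obtain ⟨ζ, hζ, η, hη⟩ := hex
  have hp : p.Prime := Fact.out
  have : NeZero p := ⟨hp.ne_zero⟩
  have hint : IsIntegral ℤ η := by
    rw [← isIntegral_algebraMap_iff (algebraMap F K).injective, hη]
    exact (hζ.isIntegral hp.pos).add (hζ.inv.isIntegral hp.pos)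
  let θ : 𝓞 F := ⟨η, hint⟩
  let z : 𝓞 K := hζ.toInteger
  have hz : IsPrimitiveRoot (z : K) p := hζ
  have hθ : algebraMap F K (θ : F) = (z : K) + (z : K)⁻¹ := hη
  have key : ∀ (w : Ideal (𝓞 F)) [w.IsMaximal] [w.LiesOver q.asIdeal],
      w.ramificationIdx (𝓞 L) = 1 ∧ w.inertiaDeg (𝓞 L) = f' := fun w _ _ =>
    one_prime hKD hdeg hFK z hz θ hθ q a f' ha hf w
  have hqm : q.asIdeal.IsMaximal := q.isMaximal
  have hF : Module.finrank L F = (p - 1) / 2 :=
    (prodform (L := L) (F := F) (K := K) hdeg hFK hζ η hη).1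
  constructor
  · have : Fintype (q.asIdeal.primesOver (𝓞 F)) := Fintype.ofFinite _
    have h1 := Ideal.sum_ramification_inertia_eq_finrank q.asIdeal (𝓞 F)
    have h2 : ∀ P : q.asIdeal.primesOver (𝓞 F),
        P.1.ramificationIdx (𝓞 L) * P.1.inertiaDeg (𝓞 L) = f' := by
      intro P
      have hP1 : P.1.IsPrime := P.2.1
      have hP2 : P.1.LiesOver q.asIdeal := P.2.2
      have hP3 : P.1.IsMaximal := Ideal.IsMaximal.of_liesOver_isMaximal P.1 q.asIdeal
      rw [(key P.1).1, (key P.1).2, one_mul]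
    rw [Finset.sum_congr rfl fun P _ => h2 P, Finset.sum_const, smul_eq_mul,
      ← IsFractionRing.finrank_eq (𝓞 L) L (𝓞 F) F, hF, Finset.card_univ] at h1
    have h3 : (above L F q).ncard = Fintype.card (q.asIdeal.primesOver (𝓞 F)) := by
      have h4 : q.asIdeal.primesOver (𝓞 F) = HeightOneSpectrum.asIdeal '' (above L F q) := by
        ext P
        constructor
        · rintro ⟨hP1, hP2⟩
          have hP3 : P ≠ ⊥ := by
            rintro rfl
            refine q.ne_bot ?_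
            rw [hP2.over]
            exact Ideal.comap_bot_of_injective _ (FaithfulSMul.algebraMap_injective (𝓞 L) (𝓞 F))
          exact ⟨⟨P, hP1, hP3⟩, hP2.over.symm, rfl⟩
        · rintro ⟨w, hw, rfl⟩
          exact ⟨w.isPrime, ⟨(hw : w.asIdeal.under (𝓞 L) = q.asIdeal).symm⟩⟩
      rw [← Nat.card_eq_fintype_card, Nat.card_coe_set_eq, h4,
        Set.ncard_image_of_injective _ fun x y h => HeightOneSpectrum.ext h]
    have hf0 : 0 < f' := by
      rcases Nat.eq_zero_or_pos f' with h | h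
      · rw [h, mul_zero] at h1
        have := hp.two_le
        omega
      · exact h
    rw [h3, ← h1, Nat.mul_div_cancel _ hf0]
  · intro v hv
    have hv1 : v.asIdeal.LiesOver q.asIdeal := ⟨(hv : v.asIdeal.under (𝓞 L) = q.asIdeal).symm⟩
    have hv2 : v.asIdeal.IsMaximal := v.isMaximal
    rw [← (key v.asIdeal).2]
    exact (Ideal.absNorm_pow_inertiaDeg q.asIdeal v.asIdeal).symm

end Pool.Agent.Work.MP_59f3ad_nt.US.H
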